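import Mathlib.Analysis.SpecialFunctions.Exp
import Mathlib.Analysis.Complex.ExponentialBounds
import Mathlib.Algebra.Order.BigOperators.Group.Finset
import Mathlib.Tactic

/-!
Combinatorial tools: halving hitting sets, greedy peeling, choice of representatives with small
load, counting of classes.
-/

namespace Pool.Agent.Work.MP_149e94_lc

open Finset
open scoped Classical

theorem halving {α : Type} [Fintype α] (A : Finset α) (K : ℕ) (hK : 2 * Fintype.card α < 2 ^ K)
    (T : α → Finset α) (hT : ∀ v, T v ⊆ A ∧ (T v).card = K) (hA : K ≤ A.card) :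
    ∃ A' ⊆ A, 2 * A'.card ≤ A.card ∧ ∀ v, ∃ a ∈ A', a ∈ T v := by
  set B₁ : Finset (Finset α) := univ.biUnion fun v => (A \ T v).powerset with hB₁
  have h1 : B₁.card ≤ Fintype.card α * 2 ^ (A.card - K) := by
    refine card_biUnion_le.trans ?_
    rw [sum_congr rfl (g := fun _ => 2 ^ (A.card - K)) fun v _ => by
      rw [card_powerset, card_sdiff_of_subset (hT v).1, (hT v).2]]
    simp
  have h2 : (B₁ ∪ B₁.image fun S => A \ S).card < A.powerset.card := by
    have a := card_union_le B₁ (B₁.image fun S => A \ S)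
    have b : (B₁.image fun S => A \ S).card ≤ B₁.card := card_image_le
    have c : 2 ^ A.card = 2 ^ K * 2 ^ (A.card - K) := by rw [← pow_add]; congr 1; omega
    have d : 2 * Fintype.card α * 2 ^ (A.card - K) < 2 ^ K * 2 ^ (A.card - K) :=
      Nat.mul_lt_mul_of_pos_right hK (by positivity)
    rw [card_powerset, c]
    nlinarith
  obtain ⟨S, hS, hS'⟩ := exists_mem_notMem_of_card_lt_card h2
  rw [mem_powerset] at hS
  rw [mem_union, not_or] at hS'
  have hit : ∀ R ⊆ A, R ∉ B₁ → ∀ v, ∃ a ∈ R, a ∈ T v := by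
    intro R hR hR' v
    by_contra hn
    push Not at hn
    exact hR' (mem_biUnion.mpr ⟨v, mem_univ _, mem_powerset.mpr fun a ha =>
      mem_sdiff.mpr ⟨hR ha, hn a ha⟩⟩)
  have hc : (A \ S).card = A.card - S.card := card_sdiff_of_subset hS
  have hc' := card_le_card hS
  by_cases h : 2 * S.card ≤ A.card
  · exact ⟨S, hS, h, hit S hS hS'.1⟩
  · refine ⟨A \ S, sdiff_subset, by omega, hit _ sdiff_subset fun h' => hS'.2 ?_⟩
    exact mem_image.mpr ⟨A \ S, h', Finset.sdiff_sdiff_eq_self hS⟩

theorem exists_nearest {α : Type} (A : Finset α) (f : α → ℝ) (K : ℕ) (hA : K ≤ A.card) :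
    ∃ T ⊆ A, T.card = K ∧ ∀ a ∈ T, ∀ w ∈ A, w ∉ T → f a ≤ f w := by
  induction K with
  | zero => exact ⟨∅, by simp, rfl, by simp⟩
  | succ K ih =>
    obtain ⟨T, h1, h2, h3⟩ := ih (by omega)
    have hne : (A \ T).Nonempty := by
      rw [← card_pos, card_sdiff_of_subset h1]; omega
    obtain ⟨b, hb, hb'⟩ := exists_min_image (A \ T) f hne
    rw [mem_sdiff] at hb
    refine ⟨insert b T, insert_subset hb.1 h1, by rw [card_insert_of_notMem hb.2, h2], ?_⟩
    intro a ha w hw hw'
    rw [mem_insert, not_or] at hw'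
    rcases mem_insert.mp ha with rfl | ha
    · exact hb' w (mem_sdiff.mpr ⟨hw, hw'.2⟩)
    · exact h3 a ha w hw hw'.2

/-- Greedy peeling: every set gets a hub, and few sets through a point have a hub of low level. -/
theorem peeling {α ι : Type} [Fintype α] [Nonempty α] (N : ι → α → Prop) (n : ℕ) :
    ∀ I : Finset ι, I.card ≤ n → (∀ i ∈ I, ∃ x, N i x) →
    ∃ z : ι → α, (∀ i ∈ I, N i (z i)) ∧ ∀ x (φ : ℕ),
      (I.filter fun i => N i x ∧ (I.filter fun i' => z i' = z i).card ≤ φ).card ≤ φ := by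
  induction n with
  | zero =>
    intro I hI _
    have : I = ∅ := card_eq_zero.mp (by omega)
    subst this
    exact ⟨fun _ => Classical.arbitrary α, by simp, by simp⟩
  | succ n ih =>
    intro I hI hN
    rcases I.eq_empty_or_nonempty with rfl | ⟨i₀, hi₀⟩
    · exact ⟨fun _ => Classical.arbitrary α, by simp, by simp⟩
    obtain ⟨z₀, -, hz₀⟩ := exists_max_image (univ : Finset α)
      (fun x => (I.filter fun i => N i x).card) univ_nonempty
    have hpos : 0 < (I.filter fun i => N i z₀).card := by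
      obtain ⟨x, hx⟩ := hN i₀ hi₀
      exact lt_of_lt_of_le (card_pos.mpr ⟨i₀, mem_filter.mpr ⟨hi₀, hx⟩⟩) (hz₀ x (mem_univ _))
    have hsplit := card_filter_add_card_filter_not (s := I) (fun i => N i z₀)
    obtain ⟨z', h1, h2⟩ := ih (I.filter fun i => ¬ N i z₀) (by omega)
      fun i hi => hN i (mem_filter.mp hi).1
    refine ⟨fun i => if N i z₀ then z₀ else z' i, fun i hi => ?_, fun x φ => ?_⟩
    · by_cases h : N i z₀
      · simp [h]
      · simp only [h, if_false]
        exact h1 i (mem_filter.mpr ⟨hi, h⟩)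
    · by_cases hφ : (I.filter fun i => N i z₀).card ≤ φ
      · refine le_trans (card_le_card fun i hi => ?_) ((hz₀ x (mem_univ _)).trans hφ)
        rw [mem_filter] at hi ⊢
        exact ⟨hi.1, hi.2.1⟩
      · refine le_trans (card_le_card fun i hi => ?_) (h2 x φ)
        rw [mem_filter] at hi
        obtain ⟨hi, hx, hc⟩ := hi
        have hn : ¬ N i z₀ := by
          intro h
          apply hφ
          refine le_trans (card_le_card fun i' hi' => ?_) hc
          rw [mem_filter] at hi' ⊢
          exact ⟨hi'.1, by simp [h, hi'.2]⟩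
        refine mem_filter.mpr ⟨mem_filter.mpr ⟨hi, hn⟩, hx, le_trans (card_le_card fun i' hi' => ?_) hc⟩
        simp only [mem_filter] at hi' ⊢
        exact ⟨hi'.1.1, by simp [hn, hi'.1.2, hi'.2]⟩

theorem exists_rep_aux {α κ σ : Type} [Fintype α] [Nonempty σ] (T : κ → Finset σ)
    (seg : σ → α → Prop) (K : Finset κ) : (∀ c ∈ K, (T c).Nonempty) →
    ∀ ω : α → ℝ, ∃ rep : κ → σ, (∀ c ∈ K, rep c ∈ T c) ∧
      ∑ x, ω x * 2 ^ (K.filter fun c => seg (rep c) x).card ≤
        ∑ x, ω x * ∏ c ∈ K, (1 + (((T c).filter fun s => seg s x).card : ℝ) / (T c).card) := by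
  induction K using Finset.induction_on with
  | empty => intro _ ω; exact ⟨fun _ => Classical.arbitrary σ, by simp, by simp⟩
  | insert c K hc ih =>
    intro hT ω
    have hTc := hT c (mem_insert_self _ _)
    have hcard : (0 : ℝ) < (T c).card := by exact_mod_cast card_pos.mpr hTc
    set P : α → ℝ := fun x =>
      ∏ c ∈ K, (1 + (((T c).filter fun s => seg s x).card : ℝ) / (T c).card) with hP
    obtain ⟨s, hs, hs'⟩ : ∃ s ∈ T c, ∑ x, (ω x * (if seg s x then 2 else 1)) * P x ≤
        ∑ x, ω x * ((1 + (((T c).filter fun s => seg s x).card : ℝ) / (T c).card) * P x) := by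
      apply exists_le_of_sum_le hTc
      apply le_of_eq
      rw [sum_comm, sum_const, nsmul_eq_mul, mul_sum]
      refine sum_congr rfl fun x _ => ?_
      rw [← sum_mul, ← mul_sum]
      have : ∑ s ∈ T c, (if seg s x then (2 : ℝ) else 1) =
          (T c).card + ((T c).filter fun s => seg s x).card := by
        rw [card_filter, Nat.cast_sum, card_eq_sum_ones, Nat.cast_sum, ← sum_add_distrib]
        refine sum_congr rfl fun s _ => ?_
        split_ifs <;> norm_num
      rw [this]
      field_simp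
    obtain ⟨rep, h1, h2⟩ := ih (fun c' hc' => hT c' (mem_insert_of_mem hc'))
      (fun x => ω x * (if seg s x then 2 else 1))
    refine ⟨Function.update rep c s, fun c' hc' => ?_, ?_⟩
    · rcases mem_insert.mp hc' with rfl | hd
      · simpa using hs
      · rw [Function.update_of_ne (fun e => hc (by rw [← e]; exact hd))]
        exact h1 c' hd
    · simp only [prod_insert hc]
      refine le_trans (le_of_eq ?_) (h2.trans hs')
      refine sum_congr rfl fun x _ => ?_
      have e : (K.filter fun c' => seg (Function.update rep c s c') x) =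
          K.filter fun c' => seg (rep c') x := by
        refine filter_congr fun c' hc' => ?_
        rw [Function.update_of_ne (by rintro rfl; exact hc hc')]
      rw [filter_insert, Function.update_self, e]
      split_ifs with h
      · rw [card_insert_of_notMem (fun h' => hc (mem_filter.mp h').1), pow_succ]; ring
      · ring

theorem exists_rep {α κ σ : Type} [Fintype α] [Nonempty σ] (T : κ → Finset σ)
    (seg : σ → α → Prop) (K : Finset κ) (hT : ∀ c ∈ K, (T c).Nonempty) (S k : ℕ)
    (hk : Fintype.card α ≤ 2 ^ k)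
    (hS : ∀ x, ∑ c ∈ K, (((T c).filter fun s => seg s x).card : ℝ) / (T c).card ≤ S) :
    ∃ rep : κ → σ, (∀ c ∈ K, rep c ∈ T c) ∧
      ∀ x, (K.filter fun c => seg (rep c) x).card ≤ k + 2 * S := by
  obtain ⟨rep, h1, h2⟩ := exists_rep_aux T seg K hT (fun _ => 1)
  refine ⟨rep, h1, fun x => ?_⟩
  have a : (2 : ℝ) ^ (K.filter fun c => seg (rep c) x).card ≤
      ∑ x, 1 * (2 : ℝ) ^ (K.filter fun c => seg (rep c) x).card := by
    have := single_le_sum (f := fun x => 1 * (2 : ℝ) ^ (K.filter fun c => seg (rep c) x).card)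
      (fun x _ => by positivity) (mem_univ x)
    simpa using this
  have b : ∀ x, 1 * ∏ c ∈ K, (1 + (((T c).filter fun s => seg s x).card : ℝ) / (T c).card) ≤
      2 ^ (2 * S) := by
    intro x
    rw [one_mul]
    refine (Real.prod_one_add_le_exp_sum _ fun c => by positivity).trans ?_
    refine (Real.exp_le_exp.mpr (hS x)).trans ?_
    rw [pow_mul, ← Real.exp_one_pow]
    exact pow_le_pow_left₀ (Real.exp_pos _).le (by linarith [Real.exp_one_lt_d9]) _
  have c := sum_le_card_nsmul univ _ _ fun x _ => b x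
  have d : (Fintype.card α : ℝ) ≤ 2 ^ k := by exact_mod_cast hk
  have e : (2 : ℝ) ^ (K.filter fun c => seg (rep c) x).card ≤ 2 ^ (k + 2 * S) := by
    refine a.trans (h2.trans (c.trans ?_))
    rw [card_univ, nsmul_eq_mul, pow_add]
    exact mul_le_mul_of_nonneg_right d (by positivity)
  exact (pow_le_pow_iff_right₀ one_lt_two).mp e

/-- Few pairs of heavy points. -/
theorem few_pairs {α : Type} (Z : Finset α) (K : Finset (α × α)) (q : α → ℕ) (θ A B : ℝ)
    (hθ : 0 ≤ θ) (hB : 0 ≤ B) (hq : ∀ z ∈ Z, θ ≤ q z) (hK : ∀ c ∈ K, c.1 ∈ Z ∧ c.2 ∈ Z)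
    (hA : ∑ z ∈ Z, (q z : ℝ) ≤ A)
    (hB' : ∀ u, ∑ w ∈ Z.filter (fun w => (u, w) ∈ K), (q w : ℝ) ≤ B) :
    (K.card : ℝ) * θ ^ 2 ≤ A * B := by
  have h1 : (Z.card : ℝ) * θ ≤ A := by
    have := card_nsmul_le_sum Z (fun z => (q z : ℝ)) θ hq
    rw [nsmul_eq_mul] at this
    exact this.trans hA
  have h2 : ∀ u, ((Z.filter fun w => (u, w) ∈ K).card : ℝ) * θ ≤ B := by
    intro u
    have := card_nsmul_le_sum (Z.filter fun w => (u, w) ∈ K) (fun z => (q z : ℝ)) θ
      fun z hz => hq z (mem_filter.mp hz).1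
    rw [nsmul_eq_mul] at this
    exact this.trans (hB' u)
  have h3 : K.card ≤ ∑ u ∈ Z, (Z.filter fun w => (u, w) ∈ K).card := by
    have : K ⊆ Z.biUnion fun u => (Z.filter fun w => (u, w) ∈ K).image fun w => (u, w) := by
      intro c hc
      simp only [mem_biUnion, mem_image, mem_filter]
      exact ⟨c.1, (hK c hc).1, c.2, ⟨(hK c hc).2, hc⟩, rfl⟩
    exact (card_le_card this).trans (card_biUnion_le.trans (sum_le_sum fun u _ => card_image_le))
  have h4 : (K.card : ℝ) * θ ≤ Z.card * B := by
    have a : (K.card : ℝ) ≤ ∑ u ∈ Z, ((Z.filter fun w => (u, w) ∈ K).card : ℝ) := by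
      exact_mod_cast h3
    have b := sum_le_card_nsmul Z _ B fun u _ => h2 u
    rw [nsmul_eq_mul, ← sum_mul] at b
    exact (mul_le_mul_of_nonneg_right a hθ).trans b
  calc (K.card : ℝ) * θ ^ 2 = (K.card * θ) * θ := by ring
    _ ≤ Z.card * B * θ := mul_le_mul_of_nonneg_right h4 hθ
    _ = Z.card * θ * B := by ring
    _ ≤ A * B := mul_le_mul_of_nonneg_right h1 hB

/-- Elements whose class is small are few. -/
theorem few_small {σ κ : Type} [DecidableEq κ] (I : Finset σ) (cls : σ → κ) (g : κ → ℕ) (t : ℝ) (ht : 0 ≤ t)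
    (hg : ∀ s ∈ I, (I.filter fun s' => cls s' = cls s).card ≤ g (cls s)) :
    ((I.filter fun s => (g (cls s) : ℝ) < t).card : ℝ) ≤ (I.image cls).card * t := by
  set J := I.filter fun s => (g (cls s) : ℝ) < t with hJ
  have h1 := card_eq_sum_card_fiberwise (s := J) (t := I.image cls) (f := cls)
    fun s hs => mem_coe.mpr (mem_image_of_mem _ (mem_filter.mp hs).1)
  rw [h1, Nat.cast_sum]
  have := sum_le_card_nsmul (I.image cls) (fun c => ((J.filter fun s => cls s = c).card : ℝ)) t ?_
  · simpa using this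
  intro c _
  rcases (J.filter fun s => cls s = c).eq_empty_or_nonempty with he | ⟨s, hs⟩
  · simp [he, ht]
  simp only [hJ, mem_filter] at hs
  have a : (J.filter fun s' => cls s' = c).card ≤ g (cls s) := by
    refine le_trans (card_le_card fun s' hs' => ?_) (hg s hs.1.1)
    simp only [hJ, mem_filter] at hs' ⊢
    exact ⟨hs'.1.1, by rw [hs'.2, hs.2]⟩
  have b : ((J.filter fun s' => cls s' = c).card : ℝ) ≤ g (cls s) := by exact_mod_cast a
  exact b.trans hs.1.2.le

end Pool.Agent.Work.MP_149e94_lc
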