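import Pool.Agent.Work.MP_149e94_lc.Tree
import Pool.Agent.Work.MP_149e94_lc.Comb

/-!
A base structure of logarithmic stretch with few hops and small load (clusters in the style of
Thorup and Zwick, shortcut along their trees).
-/

namespace Pool.Agent.Work.MP_149e94_lc

open Finset
open scoped Classical

variable {α : Type} [MetricSpace α] [Fintype α]

theorem sparse_subset (k : ℕ) (hk : Fintype.card α < 2 ^ k) (A : Finset α) :
    ∃ A' ⊆ A, 2 * A'.card ≤ A.card ∧
      ∀ v, (A.filter fun w => ∀ a ∈ A', dist v w < dist v a).card ≤ k + 1 := by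
  by_cases hA : k + 1 ≤ A.card
  swap
  · exact ⟨∅, by simp, by simp, fun v => (card_filter_le _ _).trans (by omega)⟩
  choose T h1 h2 h3 using fun v : α => exists_nearest A (fun w => dist v w) (k + 1) hA
  obtain ⟨A', g1, g2, g3⟩ := halving A (k + 1) (by rw [pow_succ]; omega) T
    (fun v => ⟨h1 v, h2 v⟩) hA
  refine ⟨A', g1, g2, fun v => ?_⟩
  rw [← h2 v]
  refine card_le_card fun w hw => ?_
  rw [mem_filter] at hw
  obtain ⟨a, ha, ha'⟩ := g3 v
  by_contra hn
  exact absurd (h3 v a ha' w hw.1 hn) (not_le.mpr (hw.2 a ha))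

theorem base_aux (hC : Chain α) (k : ℕ) (hk : Fintype.card α < 2 ^ k) (i : ℕ) :
    ∀ A : Finset α, A.card < 2 ^ i → ∃ H : Finset (α × α), (∀ x, load H x ≤ i * ((k + 1) * k)) ∧
      ∀ u v, ∀ a ∈ A, Reach H (4 * k) (2 * dist u a + (4 * i + 1) * dist u v) u v := by
  induction i with
  | zero =>
    intro A hA
    have : A = ∅ := card_eq_zero.mp (by omega)
    subst this
    exact ⟨∅, fun x => by simp [load], by simp⟩
  | succ i ih =>
    intro A hA
    obtain ⟨A', h1, h2, h3⟩ := sparse_subset k hk A
    obtain ⟨H', l1, l2⟩ := ih A' (by rw [pow_succ] at hA; omega)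
    have hw : ∀ w : α, ∃ H : Finset (α × α), (∀ x, load H x ≤ k) ∧
        (∀ e ∈ H, ∀ x, Btw e.1 x e.2 → ∀ a ∈ A', dist x w < dist x a) ∧
        ∀ v, (∀ a ∈ A', dist v w < dist v a) → Reach H (2 * k) (dist v w) v w := by
      intro w
      obtain ⟨H, g1, g2, g3⟩ := forest_shortcut hC k
        (univ.filter fun v => ∀ a ∈ A', dist v w < dist v a) (fun _ => w)
        (fun v hv x hx => by
          simp only [mem_filter, mem_univ, true_and, and_true] at hv ⊢
          intro a ha
          have := hv a ha
          have := dist_triangle v x a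
          unfold Btw at hx
          linarith)
        (fun w => (card_le_univ _).trans hk.le)
      exact ⟨H, g1, fun e he x hx => by simpa using g2 e he x hx, fun v hv => g3 v (by simpa)⟩
    choose Hw g1 g2 g3 using hw
    refine ⟨H' ∪ A.biUnion Hw, fun x => ?_, fun u v a ha => ?_⟩
    · have a := load_biUnion_le A (A.filter fun w => ∀ a ∈ A', dist x w < dist x a) Hw x k
        (fun w _ => g1 w x) (fun w hw hw' e he hx => hw' (mem_filter.mpr ⟨hw, g2 w e he x hx⟩))
      have b := Nat.mul_le_mul_right k (h3 x)
      have c := load_union H' (A.biUnion Hw) x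
      have d := l1 x
      rw [add_mul, one_mul]
      omega
    · have hd := dist_nonneg (x := u) (y := v)
      have hi : (0 : ℝ) ≤ i := Nat.cast_nonneg _
      by_cases hu : ∀ b ∈ A', dist u a < dist u b
      swap
      · push Not at hu
        obtain ⟨b, hb, hb'⟩ := hu
        refine (l2 u v b hb).mono subset_union_left le_rfl ?_
        push_cast
        nlinarith
      by_cases hv : ∀ b ∈ A', dist v a < dist v b
      swap
      · push Not at hv
        obtain ⟨b, hb, hb'⟩ := hv
        refine (l2 u v b hb).mono subset_union_left le_rfl ?_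
        have := dist_triangle u v b
        have := dist_triangle v u a
        rw [dist_comm v u] at this
        push_cast
        nlinarith
      have hsub : Hw a ⊆ H' ∪ A.biUnion Hw :=
        (subset_biUnion_of_mem Hw ha).trans subset_union_right
      refine ((g3 a u hu).trans (g3 a v hv).symm).mono hsub (by omega) ?_
      have := dist_triangle v u a
      rw [dist_comm v u] at this
      push_cast
      nlinarith

theorem base (hC : Chain α) (k : ℕ) (hk : Fintype.card α < 2 ^ k) :
    ∃ H : Finset (α × α), (∀ x, load H x ≤ k * ((k + 1) * k)) ∧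
      ∀ u v, Reach H (4 * k) ((4 * k + 1) * dist u v) u v := by
  obtain ⟨H, h1, h2⟩ := base_aux hC k hk k univ (by simpa using hk)
  exact ⟨H, h1, fun u v => by simpa using h2 u v u (mem_univ _)⟩

end Pool.Agent.Work.MP_149e94_lc
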