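import Mathlib.Topology.MetricSpace.Basic
import Mathlib.Algebra.Order.Floor.Semifield
import Mathlib.Algebra.Order.BigOperators.Group.Finset
import Mathlib.Algebra.BigOperators.Intervals
import Mathlib.Tactic

/-!
Abstract setting for low-sensitivity hopsets: a metric space in which the points between two
given points form a chain. Hop walks, loads, positions along a geodesic, blocks.
-/

namespace Pool.Agent.Work.MP_149e94_lc

open Finset
open scoped Classical

variable {α : Type} [MetricSpace α]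

/-- `x` lies between `s` and `t`. -/
def Btw (s x t : α) : Prop := dist s x + dist x t = dist s t

/-- The points between two points form a chain. -/
def Chain (α : Type) [MetricSpace α] : Prop :=
  ∀ s t x y : α, Btw s x t → Btw s y t → dist s x ≤ dist s y → Btw s x y

/-- No third point lies between `u` and `v`. -/
def Atomic (u v : α) : Prop := u ≠ v ∧ ∀ x, Btw u x v → x = u ∨ x = v

def Step (H : Finset (α × α)) (u v : α) : Prop := Atomic u v ∨ (u, v) ∈ H ∨ (v, u) ∈ H

/-- A walk of at most `k` steps and cost at most `c`. -/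
inductive Reach (H : Finset (α × α)) : ℕ → ℝ → α → α → Prop
  | refl (k : ℕ) (c : ℝ) (u : α) : 0 ≤ c → Reach H k c u u
  | step (k : ℕ) (c c' : ℝ) (u v w : α) : Step H u v → Reach H k c' v w → dist u v + c' ≤ c →
      Reach H (k + 1) c u w

noncomputable def load (H : Finset (α × α)) (v : α) : ℕ :=
  (H.filter fun e => Btw e.1 v e.2).card

theorem Btw.symm {s x t : α} (h : Btw s x t) : Btw t x s := by
  unfold Btw at *
  rw [dist_comm t x, dist_comm x s, dist_comm t s]; linarith

theorem btw_left (s t : α) : Btw s s t := by simp [Btw]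
theorem btw_right (s t : α) : Btw s t t := by simp [Btw]

theorem Btw.le_left {s x t : α} (h : Btw s x t) : dist s x ≤ dist s t := by
  unfold Btw at h; linarith [dist_nonneg (x := x) (y := t)]

theorem Btw.le_right {s x t : α} (h : Btw s x t) : dist x t ≤ dist s t := by
  unfold Btw at h; linarith [dist_nonneg (x := s) (y := x)]

theorem Btw.eq_of_self {s x : α} (h : Btw s x s) : x = s := by
  have := h.le_right
  rw [dist_self] at this
  exact dist_le_zero.mp this

/-- If `x` is between `s` and `t` and `y` between `s` and `x`, then `y` is between `s` and `t`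
and `x` is between `y` and `t`. -/
theorem Btw.trans_left {s x y t : α} (h : Btw s x t) (h' : Btw s y x) : Btw s y t ∧ Btw y x t := by
  unfold Btw at *
  have h1 := dist_triangle y x t
  have h2 := dist_triangle s y t
  constructor <;> linarith

theorem Btw.trans_right {s x y t : α} (h : Btw s x t) (h' : Btw x y t) : Btw s y t ∧ Btw s x y := by
  have := h.symm.trans_left h'.symm
  exact ⟨this.1.symm, this.2.symm⟩

theorem Atomic.symm {u v : α} (h : Atomic u v) : Atomic v u :=
  ⟨h.1.symm, fun x hx => (h.2 x hx.symm).symm⟩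

theorem Step.symm {H : Finset (α × α)} {u v : α} (h : Step H u v) : Step H v u := by
  rcases h with h | h | h
  · exact Or.inl h.symm
  · exact Or.inr (Or.inr h)
  · exact Or.inr (Or.inl h)

theorem Step.mono {H H' : Finset (α × α)} (hH : H ⊆ H') {u v : α} (h : Step H u v) :
    Step H' u v := by
  rcases h with h | h | h
  · exact Or.inl h
  · exact Or.inr (Or.inl (hH h))
  · exact Or.inr (Or.inr (hH h))

theorem Reach.nonneg {H : Finset (α × α)} {k : ℕ} {c : ℝ} {u v : α} (h : Reach H k c u v) :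
    0 ≤ c := by
  induction h with
  | refl k c u hc => exact hc
  | step k c c' u v w _ _ hc ih => linarith [dist_nonneg (x := u) (y := v)]

theorem Reach.mono {H H' : Finset (α × α)} {k k' : ℕ} {c c' : ℝ} {u v : α}
    (h : Reach H k c u v) (hH : H ⊆ H') (hk : k ≤ k') (hc : c ≤ c') : Reach H' k' c' u v := by
  induction h generalizing k' c' with
  | refl k c u h0 => exact Reach.refl _ _ _ (h0.trans hc)
  | step k c c'' u v w hs _ hc' ih =>
    obtain ⟨m, rfl⟩ : ∃ m, k' = m + 1 := ⟨k' - 1, by omega⟩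
    exact Reach.step m c' c'' u v w (hs.mono hH) (ih (by omega) le_rfl) (hc'.trans hc)

theorem Reach.trans {H : Finset (α × α)} {k k' : ℕ} {c c' : ℝ} {u v w : α}
    (h : Reach H k c u v) (h' : Reach H k' c' v w) : Reach H (k + k') (c + c') u w := by
  induction h with
  | refl k c u h0 => exact h'.mono Subset.rfl (by omega) (by linarith)
  | step k c c'' u v x hs _ hc' ih =>
    have : k + 1 + k' = (k + k') + 1 := by omega
    rw [this]
    exact Reach.step _ _ (c'' + c') u v w hs (ih h') (by linarith)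

theorem Reach.single {H : Finset (α × α)} {u v : α} (h : Step H u v) : Reach H 1 (dist u v) u v :=
  Reach.step 0 _ 0 u v v h (Reach.refl 0 0 v le_rfl) (by simp)

theorem Reach.symm {H : Finset (α × α)} {k : ℕ} {c : ℝ} {u v : α} (h : Reach H k c u v) :
    Reach H k c v u := by
  induction h with
  | refl k c u h0 => exact Reach.refl _ _ _ h0
  | step k c c'' u v x hs _ hc' ih =>
    exact (ih.trans (Reach.single hs.symm)).mono Subset.rfl le_rfl (by rw [dist_comm v u]; linarith)

theorem load_mono {H H' : Finset (α × α)} (h : H ⊆ H') (v : α) : load H v ≤ load H' v :=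
  card_le_card (filter_subset_filter _ h)

theorem load_union (H H' : Finset (α × α)) (v : α) : load (H ∪ H') v ≤ load H v + load H' v := by
  unfold load
  rw [filter_union]
  exact card_union_le _ _

theorem load_biUnion {ι : Type} (I : Finset ι) (H : ι → Finset (α × α)) (v : α) :
    load (I.biUnion H) v ≤ ∑ i ∈ I, load (H i) v := by
  unfold load
  rw [filter_biUnion]
  exact card_biUnion_le

theorem load_eq_zero {H : Finset (α × α)} {v : α} (h : ∀ e ∈ H, ¬ Btw e.1 v e.2) :
    load H v = 0 := by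
  unfold load
  rw [card_eq_zero, filter_eq_empty_iff]
  exact fun e he => h e he

/-- The load of a union where only the members of `J` can touch `v`. -/
theorem load_biUnion_le {ι : Type} (I J : Finset ι) (H : ι → Finset (α × α)) (v : α) (b : ℕ)
    (hb : ∀ i ∈ I, load (H i) v ≤ b) (hJ : ∀ i ∈ I, i ∉ J → ∀ e ∈ H i, ¬ Btw e.1 v e.2) :
    load (I.biUnion H) v ≤ J.card * b := by
  refine (load_biUnion I H v).trans ?_
  rw [← sum_filter_add_sum_filter_not I (fun i => i ∈ J)]
  have h1 : ∑ i ∈ I.filter (fun i => ¬ i ∈ J), load (H i) v = 0 := by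
    refine sum_eq_zero fun i hi => ?_
    rw [mem_filter] at hi
    exact load_eq_zero (hJ i hi.1 hi.2)
  have h2 : ∑ i ∈ I.filter (fun i => i ∈ J), load (H i) v ≤ (I.filter (fun i => i ∈ J)).card * b := by
    have := sum_le_card_nsmul (I.filter (fun i => i ∈ J)) (fun i => load (H i) v) b
      (fun i hi => hb i (mem_filter.mp hi).1)
    simpa using this
  have h3 : (I.filter (fun i => i ∈ J)).card ≤ J.card :=
    card_le_card fun i hi => (mem_filter.mp hi).2
  have := Nat.mul_le_mul_right b h3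
  omega

/-! ### Positions along a geodesic -/

/-- `x` is on the geodesic of the pair `p`. -/
def On (p : α × α) (x : α) : Prop := Btw p.1 x p.2

theorem On.btw (hC : Chain α) {p : α × α} {x y : α} (hx : On p x) (hy : On p y)
    (h : dist p.1 x ≤ dist p.1 y) : dist p.1 x + dist x y = dist p.1 y :=
  hC _ _ _ _ hx hy h

theorem On.eq_of_pos (hC : Chain α) {p : α × α} {x y : α} (hx : On p x) (hy : On p y)
    (h : dist p.1 x = dist p.1 y) : x = y := by
  have := hx.btw hC hy h.le
  exact dist_eq_zero.mp (by linarith)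

theorem On.btw_of_le (hC : Chain α) {p : α × α} {x z y : α} (hx : On p x) (hz : On p z)
    (hy : On p y) (h1 : dist p.1 x ≤ dist p.1 z) (h2 : dist p.1 z ≤ dist p.1 y) : Btw x z y := by
  have a := hx.btw hC hz h1
  have b := hz.btw hC hy h2
  have c := hx.btw hC hy (h1.trans h2)
  unfold Btw; linarith

theorem On.of_btw (hC : Chain α) {p : α × α} {x z y : α} (hx : On p x) (hy : On p y)
    (h : dist p.1 x ≤ dist p.1 y) (hz : Btw x z y) :
    On p z ∧ dist p.1 x ≤ dist p.1 z ∧ dist p.1 z ≤ dist p.1 y := by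
  have a := hx.btw hC hy h
  have b := dist_triangle p.1 x z
  have c := dist_triangle z y p.2
  have e := dist_triangle p.1 z p.2
  have f := dist_triangle p.1 z y
  unfold On Btw at *
  refine ⟨by linarith, ?_, ?_⟩ <;> linarith [dist_nonneg (x := x) (y := z), dist_nonneg (x := z) (y := y)]

theorem On.of_btw' (hC : Chain α) {p : α × α} {x z y : α} (hx : On p x) (hy : On p y)
    (hz : Btw x z y) : On p z := by
  rcases le_total (dist p.1 x) (dist p.1 y) with h | h
  · exact (hx.of_btw hC hy h hz).1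
  · exact (hy.of_btw hC hx h hz.symm).1

/-- The index of the piece of length `L` holding `x`. -/
noncomputable def idx (L : ℝ) (p : α × α) (x : α) : ℕ := ⌊dist p.1 x / L⌋₊

theorem idx_mono {L : ℝ} (hL : 0 < L) {p : α × α} {x y : α} (h : dist p.1 x ≤ dist p.1 y) :
    idx L p x ≤ idx L p y :=
  Nat.floor_le_floor (div_le_div_of_nonneg_right h hL.le)

theorem pos_lt_of_idx_lt {L : ℝ} (hL : 0 < L) {p : α × α} {x y : α} (h : idx L p x < idx L p y) :
    dist p.1 x < dist p.1 y := by
  by_contra h'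
  exact absurd (idx_mono hL (not_lt.mp h')) (by omega)

theorem idx_le_pos {L : ℝ} (hL : 0 < L) (p : α × α) (x : α) : (idx L p x : ℝ) * L ≤ dist p.1 x := by
  have := Nat.floor_le (a := dist p.1 x / L) (div_nonneg dist_nonneg hL.le)
  unfold idx
  rwa [le_div_iff₀ hL] at this

theorem pos_lt_idx {L : ℝ} (hL : 0 < L) (p : α × α) (x : α) :
    dist p.1 x < ((idx L p x : ℝ) + 1) * L := by
  have := Nat.lt_floor_add_one (dist p.1 x / L)
  unfold idx
  rwa [div_lt_iff₀ hL] at this

theorem idx_div {L : ℝ} (l : ℕ) (p : α × α) (x : α) : idx (L * l) p x = idx L p x / l := by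
  unfold idx
  rw [← Nat.floor_div_natCast, div_div]

/-- The points of the geodesic with index in `[A, B)`. -/
def Blk (L : ℝ) (p : α × α) (A B : ℕ) (x : α) : Prop := On p x ∧ A ≤ idx L p x ∧ idx L p x < B

theorem Blk.dist_lt (hC : Chain α) {L : ℝ} (hL : 0 < L) {p : α × α} {A B : ℕ} {x y : α}
    (hx : Blk L p A B x) (hy : Blk L p A B y) : dist x y < ((B : ℝ) - A) * L := by
  have key : ∀ x y, Blk L p A B x → Blk L p A B y → dist p.1 x ≤ dist p.1 y →
      dist x y < ((B : ℝ) - A) * L := by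
    intro x y hx hy h
    have a := hx.1.btw hC hy.1 h
    have b := idx_le_pos hL p x
    have c := pos_lt_idx hL p y
    have d : (A : ℝ) ≤ idx L p x := by exact_mod_cast hx.2.1
    have e : (idx L p y : ℝ) + 1 ≤ B := by exact_mod_cast hy.2.2
    nlinarith
  rcases le_total (dist p.1 x) (dist p.1 y) with h | h
  · exact key x y hx hy h
  · rw [dist_comm]; exact key y x hy hx h

/-- The first point of `X` reaches the last one with at most `k` hops and error at most `e`. -/
def Cross (H : Finset (α × α)) (p : α × α) (X : α → Prop) (k : ℕ) (e : ℝ) : Prop :=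
  ∀ x y, X x → X y → (∀ z, X z → dist p.1 x ≤ dist p.1 z) → (∀ z, X z → dist p.1 z ≤ dist p.1 y) →
    Reach H k (dist x y + e) x y

theorem Cross.mono {H H' : Finset (α × α)} {p : α × α} {X : α → Prop} {k k' : ℕ} {e e' : ℝ}
    (h : Cross H p X k e) (hH : H ⊆ H') (hk : k ≤ k') (he : e ≤ e') : Cross H' p X k' e' :=
  fun x y hx hy h1 h2 => (h x y hx hy h1 h2).mono hH hk (by linarith)

theorem Cross.of_empty {H : Finset (α × α)} {p : α × α} {X : α → Prop} (k : ℕ) (e : ℝ)
    (h : ∀ x, ¬ X x) : Cross H p X k e := fun x _ hx => absurd hx (h x)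

theorem Cross.congr {H : Finset (α × α)} {p : α × α} {X Y : α → Prop} {k : ℕ} {e : ℝ}
    (h : Cross H p X k e) (hXY : ∀ x, X x ↔ Y x) : Cross H p Y k e := by
  have : X = Y := funext fun x => propext (hXY x)
  rwa [← this]

variable [Fintype α]

theorem exists_first (p : α × α) (X : α → Prop) (h : ∃ x, X x) :
    ∃ x, X x ∧ ∀ z, X z → dist p.1 x ≤ dist p.1 z := by
  obtain ⟨x, hx⟩ := h
  obtain ⟨y, hy, hy'⟩ := exists_min_image (univ.filter X) (fun z => dist p.1 z) ⟨x, by simpa⟩
  exact ⟨y, by simpa using hy, fun z hz => hy' z (by simpa)⟩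

theorem exists_last (p : α × α) (X : α → Prop) (h : ∃ x, X x) :
    ∃ x, X x ∧ ∀ z, X z → dist p.1 z ≤ dist p.1 x := by
  obtain ⟨x, hx⟩ := h
  obtain ⟨y, hy, hy'⟩ := exists_max_image (univ.filter X) (fun z => dist p.1 z) ⟨x, by simpa⟩
  exact ⟨y, by simpa using hy, fun z hz => hy' z (by simpa)⟩

theorem Cross.append (hC : Chain α) {H : Finset (α × α)} {p : α × α} {L : ℝ} (hL : 0 < L)
    {A B C k₁ k₂ : ℕ} {e₁ e₂ : ℝ} (hAB : A ≤ B) (hBC : B ≤ C) (he₁ : 0 ≤ e₁) (he₂ : 0 ≤ e₂)
    (h₁ : Cross H p (Blk L p A B) k₁ e₁) (h₂ : Cross H p (Blk L p B C) k₂ e₂) :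
    Cross H p (Blk L p A C) (k₁ + k₂ + 1) (e₁ + e₂) := by
  by_cases n₁ : ∃ x, Blk L p A B x
  swap
  · refine (h₂.congr fun x => ⟨fun h => ⟨h.1, hAB.trans h.2.1, h.2.2⟩, fun h => ⟨h.1, ?_, h.2.2⟩⟩).mono
      Subset.rfl (by omega) (by linarith)
    by_contra h'
    exact n₁ ⟨x, h.1, h.2.1, by omega⟩
  by_cases n₂ : ∃ x, Blk L p B C x
  swap
  · refine (h₁.congr fun x => ⟨fun h => ⟨h.1, h.2.1, h.2.2.trans_le hBC⟩, fun h => ⟨h.1, h.2.1, ?_⟩⟩).mono
      Subset.rfl (by omega) (by linarith)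
    by_contra h'
    exact n₂ ⟨x, h.1, by omega, h.2.2⟩
  intro x y hx hy h1 h2
  obtain ⟨x', hx', hx''⟩ := exists_last p _ n₁
  obtain ⟨y', hy', hy''⟩ := exists_first p _ n₂
  have sub1 : ∀ z, Blk L p A B z → Blk L p A C z := fun z h => ⟨h.1, h.2.1, h.2.2.trans_le hBC⟩
  have sub2 : ∀ z, Blk L p B C z → Blk L p A C z := fun z h => ⟨h.1, hAB.trans h.2.1, h.2.2⟩
  have hxx' := h1 x' (sub1 _ hx')
  have hyy' := h2 y' (sub2 _ hy')
  have hxB : Blk L p A B x := ⟨hx.1, hx.2.1, (idx_mono hL hxx').trans_lt hx'.2.2⟩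
  have hyB : Blk L p B C y := ⟨hy.1, hy'.2.1.trans (idx_mono hL hyy'), hy.2.2⟩
  have hlt : dist p.1 x' < dist p.1 y' := pos_lt_of_idx_lt hL (hx'.2.2.trans_le hy'.2.1)
  have r1 := h₁ x x' hxB hx' (fun z hz => h1 z (sub1 z hz)) hx''
  have r2 := h₂ y' y hy' hyB hy'' (fun z hz => h2 z (sub2 z hz))
  have hat : Atomic x' y' := by
    refine ⟨fun h => by rw [h] at hlt; exact lt_irrefl _ hlt, fun z hz => ?_⟩
    obtain ⟨a, b, c⟩ := hx'.1.of_btw hC hy'.1 hlt.le hz
    by_cases hz' : idx L p z < B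
    · left
      exact a.eq_of_pos hC hx'.1 (le_antisymm (hx'' z ⟨a, hx'.2.1.trans (idx_mono hL b), hz'⟩) b)
    · right
      exact a.eq_of_pos hC hy'.1
        (le_antisymm c (hy'' z ⟨a, by omega, (idx_mono hL c).trans_lt hy'.2.2⟩))
  have r3 := (r1.trans (Reach.single (H := H) (Or.inl hat))).trans r2
  refine r3.mono Subset.rfl (by omega) ?_
  have a := hx.1.btw hC hx'.1 hxx'
  have b := hx'.1.btw hC hy'.1 hlt.le
  have c := hy'.1.btw hC hy.1 hyy'
  have d := hx.1.btw hC hy.1 (hxx'.trans (hlt.le.trans hyy'))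
  linarith

/-- Extending a crossing piece by piece. -/
theorem Cross.extend (hC : Chain α) {H : Finset (α × α)} {p : α × α} {L : ℝ} (hL : 0 < L)
    (B₀ β : ℕ) (e : ℕ → ℝ) (he : ∀ c, 0 ≤ e c) {A B : ℕ} (hAB : A ≤ B)
    (h : Cross H p (Blk L p B₀ (B₀ + A)) (A * (β + 1)) (∑ c ∈ range A, e c))
    (h' : ∀ c, A ≤ c → c < B → Cross H p (Blk L p (B₀ + c) (B₀ + c + 1)) β (e c)) :
    Cross H p (Blk L p B₀ (B₀ + B)) (B * (β + 1)) (∑ c ∈ range B, e c) := by
  induction B, hAB using Nat.le_induction with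
  | base => exact h
  | succ B hAB ih =>
    have := Cross.append hC hL (by omega) (by omega) (sum_nonneg fun c _ => he c) (he B)
      (ih fun c h1 h2 => h' c h1 (by omega)) (h' B hAB (by omega))
    rw [sum_range_succ]
    exact this.mono Subset.rfl (by ring_nf; omega) le_rfl

theorem Cross.jump (hC : Chain α) {H : Finset (α × α)} {p : α × α} {L : ℝ} (hL : 0 < L)
    (B₀ β : ℕ) (e : ℕ → ℝ) (he : ∀ c, 0 ≤ e c) {A B : ℕ} (hAB : A ≤ B)
    (h : Cross H p (Blk L p B₀ (B₀ + A)) (A * (β + 1)) (∑ c ∈ range A, e c))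
    (h' : Cross H p (Blk L p (B₀ + A) (B₀ + B)) β (∑ c ∈ Ico A B, e c)) :
    Cross H p (Blk L p B₀ (B₀ + B)) (B * (β + 1)) (∑ c ∈ range B, e c) := by
  rcases hAB.eq_or_lt with rfl | hlt
  · exact h
  have := Cross.append hC hL (by omega) (by omega) (sum_nonneg fun c _ => he c)
    (sum_nonneg fun c _ => he c) h h'
  rw [sum_range_add_sum_Ico _ hAB] at this
  refine this.mono Subset.rfl ?_ le_rfl
  have : (A + 1) * (β + 1) ≤ B * (β + 1) := Nat.mul_le_mul_right _ hlt
  ring_nf at this ⊢; omega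

/-- Crossing a block of `l` pieces with two jumps. -/
theorem Cross.assemble (hC : Chain α) {H : Finset (α × α)} {p : α × α} {L : ℝ} (hL : 0 < L)
    (B₀ β l : ℕ) (e : ℕ → ℝ) (he : ∀ c, 0 ≤ e c) {A₁ B₁ A₂ B₂ : ℕ} (h1 : A₁ ≤ B₁) (h2 : B₁ ≤ A₂)
    (h3 : A₂ ≤ B₂) (h4 : B₂ ≤ l)
    (j1 : Cross H p (Blk L p (B₀ + A₁) (B₀ + B₁)) β (∑ c ∈ Ico A₁ B₁, e c))
    (j2 : Cross H p (Blk L p (B₀ + A₂) (B₀ + B₂)) β (∑ c ∈ Ico A₂ B₂, e c))
    (h' : ∀ c, c < l → (c < A₁ ∨ B₁ ≤ c) → (c < A₂ ∨ B₂ ≤ c) →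
      Cross H p (Blk L p (B₀ + c) (B₀ + c + 1)) β (e c)) :
    Cross H p (Blk L p B₀ (B₀ + l)) (l * (β + 1)) (∑ c ∈ range l, e c) := by
  have s0 : Cross H p (Blk L p B₀ (B₀ + 0)) (0 * (β + 1)) (∑ c ∈ range 0, e c) :=
    Cross.of_empty _ _ fun x hx => by have := hx.2; omega
  have s1 := Cross.extend hC hL B₀ β e he (Nat.zero_le A₁) s0
    fun c _ hc => h' c (by omega) (by omega) (by omega)
  have s2 := Cross.jump hC hL B₀ β e he h1 s1 j1
  have s3 := Cross.extend hC hL B₀ β e he h2 s2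
    fun c _ hc => h' c (by omega) (by omega) (by omega)
  have s4 := Cross.jump hC hL B₀ β e he h3 s3 j2
  exact Cross.extend hC hL B₀ β e he h4 s4 fun c _ hc => h' c (by omega) (by omega) (by omega)

end Pool.Agent.Work.MP_149e94_lc
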