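import Mathlib.Combinatorics.SimpleGraph.Paths
import Mathlib.Combinatorics.SimpleGraph.Connectivity.Connected
import Mathlib.Data.Set.Card
import Mathlib.Analysis.SpecialFunctions.Log.Base

/-!
Weighted graphs, hopsets and their vertex sensitivity.
-/

namespace Pool.Agent.Work.MP_149e94_lc

variable {V : Type}

/-- The total weight of a walk. -/
def wt (w : Sym2 V → ℝ) {G : SimpleGraph V} {s t : V} (p : G.Walk s t) : ℝ := (p.edges.map w).sum

/-- The walk has least weight among all walks with the same ends. -/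
def IsShortest (w : Sym2 V → ℝ) {G : SimpleGraph V} {s t : V} (p : G.Walk s t) : Prop :=
  ∀ q : G.Walk s t, wt w p ≤ wt w q

/-- Shortest paths are unique. -/
def UniqueShortest (G : SimpleGraph V) (w : Sym2 V → ℝ) : Prop :=
  ∀ (s t : V) (p q : G.Walk s t), IsShortest w p → IsShortest w q → p = q

/-- The shortest-path distance (used only for connected pairs). -/
noncomputable def gdist (G : SimpleGraph V) (w : Sym2 V → ℝ) (s t : V) : ℝ :=
  ⨅ p : G.Walk s t, wt w p

open Classical in
/-- The weight of a walk in `G ∪ H`: an edge of `H` weighs the distance of its ends in `G`,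
any other edge keeps its weight. -/
noncomputable def augWt (G : SimpleGraph V) (w : Sym2 V → ℝ) (H : Set (Sym2 V)) {s t : V}
    (p : (G ⊔ SimpleGraph.fromEdgeSet H).Walk s t) : ℝ :=
  (p.darts.map fun d => if d.edge ∈ H then gdist G w d.fst d.snd else w d.edge).sum

/-- `H` is a `(β, ε)`-hopset of the weighted graph. -/
def IsHopset (G : SimpleGraph V) (w : Sym2 V → ℝ) (β : ℕ) (ε : ℝ) (H : Set (Sym2 V)) : Prop :=
  (∀ s t : V, s(s, t) ∈ H → s ≠ t ∧ G.Reachable s t) ∧
  ∀ s t : V, G.Reachable s t → ∃ p : (G ⊔ SimpleGraph.fromEdgeSet H).Walk s t,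
    p.IsPath ∧ p.length ≤ β ∧ augWt G w H p ≤ (1 + ε) * gdist G w s t

/-- The vertex `v` lies on the shortest path between the ends of `e`. -/
def Bypasses (G : SimpleGraph V) (w : Sym2 V → ℝ) (e : Sym2 V) (v : V) : Prop :=
  ∃ s t : V, e = s(s, t) ∧ ∃ p : G.Walk s t, IsShortest w p ∧ v ∈ p.support

/-- The number of edges of `H` that bypass `v`. -/
noncomputable def sens (G : SimpleGraph V) (w : Sym2 V → ℝ) (H : Set (Sym2 V)) (v : V) : ℕ :=
  {e | e ∈ H ∧ Bypasses G w e v}.ncard

end Pool.Agent.Work.MP_149e94_lc
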