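import Pool.Agent.Work.MP_149e94_lc.Base

/-!
Jumps through representatives of classes of segments, and pairs of hubs.
-/

namespace Pool.Agent.Work.MP_149e94_lc

open Finset
open scoped Classical

theorem card_le_of_fibers {β : Type} (S : Finset (β × ℕ)) (Q : Finset β) (K : ℕ)
    (h1 : ∀ s ∈ S, s.1 ∈ Q)
    (h2 : ∀ q ∈ Q, ∃ I : Finset ℕ, I.card ≤ K ∧ ∀ s ∈ S, s.1 = q → s.2 ∈ I) :
    S.card ≤ Q.card * K := by
  rw [card_eq_sum_card_fiberwise (s := S) (t := Q) (f := Prod.fst) fun s hs => h1 s hs]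
  have := sum_le_card_nsmul Q (fun q => (S.filter fun s => s.1 = q).card) K fun q hq => ?_
  · simpa using this
  obtain ⟨I, hI, hI'⟩ := h2 q hq
  refine le_trans (card_le_card_of_injOn Prod.snd (fun s hs => ?_) fun s hs s' hs' e => ?_) hI
  · have := mem_filter.mp (mem_coe.mp hs)
    exact hI' s this.1 this.2
  · have a := (mem_filter.mp (mem_coe.mp hs)).2
    have b := (mem_filter.mp (mem_coe.mp hs')).2
    exact Prod.ext (a.trans b.symm) e

variable {α : Type} [MetricSpace α]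

/-- The geodesic of `q` meets the ball of radius `R` around `x`. -/
def Meets (q : α × α) (x : α) (R : ℝ) : Prop := ∃ y, On q y ∧ dist x y ≤ R

/-- The number of geodesics of the family that meet a ball. -/
noncomputable def mass (P : Finset (α × α)) (x : α) (R : ℝ) : ℕ :=
  (P.filter fun q => Meets q x R).card

theorem idx_ne (hC : Chain α) {ρ : ℝ} (hρ : 0 < ρ) {q : α × α} {y y' : α} (hy : On q y)
    (hy' : On q y') (h : ρ ≤ dist y y') : idx ρ q y ≠ idx ρ q y' := by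
  intro e
  have := Blk.dist_lt hC hρ (A := idx ρ q y) (B := idx ρ q y + 1) ⟨hy, le_rfl, by omega⟩
    ⟨hy', e.le, by omega⟩
  push_cast at this
  linarith

variable [Fintype α]

theorem window {ρ : ℝ} (hρ : 0 < ρ) (l : ℕ) (q : α × α) (x : α) :
    ∃ I : Finset ℕ, I.card ≤ 4 * l + 1 ∧ ∀ y, dist x y ≤ 2 * l * ρ → idx ρ q y ∈ I := by
  obtain ⟨y₀, h1, h2⟩ := exists_first q (fun y => dist x y ≤ 2 * l * ρ)
    ⟨x, by rw [dist_self]; positivity⟩
  refine ⟨Icc (idx ρ q y₀) (idx ρ q y₀ + 4 * l), by simp; omega, fun y hy => ?_⟩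
  refine mem_Icc.mpr ⟨idx_mono hρ (h2 y hy), ?_⟩
  unfold idx
  rw [← Nat.floor_add_natCast (div_nonneg dist_nonneg hρ.le)]
  apply Nat.floor_le_floor
  have a := dist_triangle q.1 y₀ y
  have b := dist_triangle y₀ x y
  rw [dist_comm y₀ x] at b
  rw [div_add' _ _ _ hρ.ne']
  apply div_le_div_of_nonneg_right _ hρ.le
  push_cast
  linarith

theorem exists_net (D : Finset α) (r : ℝ) (hr : 0 ≤ r) : ∃ N ⊆ D,
    (∀ w ∈ N, ∀ w' ∈ N, w ≠ w' → r < dist w w') ∧ ∀ x ∈ D, ∃ w ∈ N, dist x w ≤ r := by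
  obtain ⟨N, h1, h2⟩ := exists_max_image
    (D.powerset.filter fun N => ∀ w ∈ N, ∀ w' ∈ N, w ≠ w' → r < dist w w') card ⟨∅, by simp⟩
  simp only [mem_filter, mem_powerset] at h1 h2
  refine ⟨N, h1.1, h1.2, fun x hx => ?_⟩
  by_contra hn
  push Not at hn
  have hxN : x ∉ N := fun h => by
    have := hn x h
    rw [dist_self] at this
    linarith
  have := h2 (insert x N) ⟨insert_subset hx h1.1, fun w hw w' hw' hne => ?_⟩
  · rw [card_insert_of_notMem hxN] at this; omega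
  rcases mem_insert.mp hw with e | g <;> rcases mem_insert.mp hw' with e' | g'
  · exact absurd (e.trans e'.symm) hne
  · rw [e]; exact hn _ g'
  · rw [dist_comm, e']; exact hn _ g
  · exact h1.2 w g w' g' hne

theorem sum_mass_le (hC : Chain α) (P : Finset (α × α)) (Z : Finset α) {ρ : ℝ} (hρ : 0 < ρ)
    (hsep : ∀ w ∈ Z, ∀ w' ∈ Z, w ≠ w' → 7 * ρ < dist w w') (Q : Finset (α × α)) (K : ℕ)
    (h1 : ∀ q ∈ P, ∀ w ∈ Z, ∀ y, On q y → dist w y ≤ 3 * ρ → q ∈ Q)
    (h2 : ∀ q ∈ Q, ∃ I : Finset ℕ, I.card ≤ K ∧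
      ∀ w ∈ Z, ∀ y, On q y → dist w y ≤ 3 * ρ → idx ρ q y ∈ I) :
    ∑ w ∈ Z, mass P w (3 * ρ) ≤ Q.card * K := by
  have hy : ∀ (w : α) (q : α × α), ∃ y, (∃ y, On q y ∧ dist w y ≤ 3 * ρ) →
      On q y ∧ dist w y ≤ 3 * ρ := by
    intro w q
    by_cases h : ∃ y, On q y ∧ dist w y ≤ 3 * ρ
    · obtain ⟨y, hy⟩ := h
      exact ⟨y, fun _ => hy⟩
    · exact ⟨w, fun h' => absurd h' h⟩
  choose y hy using hy
  set S := Z.sigma fun w => P.filter fun q => Meets q w (3 * ρ) with hS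
  have e : ∑ w ∈ Z, mass P w (3 * ρ) = S.card := by rw [hS, card_sigma]; rfl
  rw [e, ← card_image_of_injOn (f := fun s : Σ _ : α, α × α => (s.2, idx ρ s.2 (y s.1 s.2)))]
  · refine card_le_of_fibers _ Q K (fun s hs => ?_) fun q hq => ?_
    · obtain ⟨⟨w, q⟩, hs', rfl⟩ := mem_image.mp hs
      simp only [hS, mem_sigma, mem_filter] at hs'
      exact h1 q hs'.2.1 w hs'.1 _ (hy w q hs'.2.2).1 (hy w q hs'.2.2).2
    · obtain ⟨I, hI, hI'⟩ := h2 q hq
      refine ⟨I, hI, fun s hs e => ?_⟩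
      obtain ⟨⟨w, q'⟩, hs', rfl⟩ := mem_image.mp hs
      simp only [hS, mem_sigma, mem_filter] at hs'
      simp only at e
      subst e
      exact hI' w hs'.1 _ (hy w q' hs'.2.2).1 (hy w q' hs'.2.2).2
  · rintro ⟨w, q⟩ hs ⟨w', q'⟩ hs' e
    simp only [hS, coe_sigma, Set.mem_sigma_iff, mem_coe, mem_filter] at hs hs'
    simp only [Prod.mk.injEq] at e
    obtain ⟨rfl, e⟩ := e
    have : w = w' := by
      by_contra hne
      have a := hsep w hs.1 w' hs'.1 hne
      have b := hy w q hs.2.2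
      have c := hy w' q hs'.2.2
      have d := dist_triangle4 w (y w q) (y w' q) w'
      rw [dist_comm (y w' q) w'] at d
      exact idx_ne hC hρ b.1 c.1 (by linarith [b.2, c.2]) e
    rw [this]

theorem jump_lemma (hC : Chain α) (k : ℕ) (hk : Fintype.card α ≤ 2 ^ k) (P : Finset (α × α))
    {ρ : ℝ} (hρ : 0 < ρ) (l K₀ : ℕ) (hl : 24 ≤ l)
    (hK₀ : ∀ q ∈ P, ∀ y, On q y → idx ρ q y < K₀) (θ : ℝ) (F M Λ : ℕ) (hθ : 0 < θ) (hF0 : 0 < F)
    (hΛ : 0 < Λ) (hθ' : (F : ℝ) * M ≤ θ ^ 2 * Λ ^ 3) {σ : Type} [Nonempty σ] (I : Finset σ)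
    (X Y : σ → α) (hXY : ∀ s ∈ I, ∃ q ∈ P, On q (X s) ∧ On q (Y s))
    (hd : ∀ s ∈ I, dist (X s) (Y s) ≤ l * ρ) (hX : ∀ s ∈ I, θ ≤ mass P (X s) (3 * ρ))
    (hY : ∀ s ∈ I, θ ≤ mass P (Y s) (3 * ρ)) (hM : ∀ s ∈ I, mass P (X s) (2 * l * ρ) ≤ M)
    (hF : ∀ v, (I.filter fun s => Btw (X s) v (Y s)).card ≤ F) :
    ∃ (H : Finset (α × α)) (Bad : Finset σ), Bad.card * Λ ≤ P.card * K₀ * (4 * l + 1) ∧
      (∀ x, load H x ≤ 2 * k + 2 * Λ ^ 4) ∧
      (∀ e ∈ H, ∀ x, Btw e.1 x e.2 → ∃ q ∈ P, ∃ y, On q y ∧ dist y x ≤ 7 * ρ) ∧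
      ∀ s ∈ I, s ∉ Bad → Reach H (8 * k + 1) (dist (X s) (Y s) + 56 * ρ) (X s) (Y s) := by
  obtain ⟨N, n1, n2, n3⟩ := exists_net
    (univ.filter fun x => (∃ q ∈ P, On q x) ∧ θ ≤ mass P x (3 * ρ)) (7 * ρ) (by positivity)
  obtain ⟨ctr, Hv, v1, v2, v3⟩ := voronoi hC k hk N (7 * ρ)
  have hXc : ∀ s ∈ I, ctr (X s) ∈ N ∧ dist (X s) (ctr (X s)) ≤ 7 * ρ ∧
      Reach Hv (2 * k) (7 * ρ) (X s) (ctr (X s)) := fun s hs => by
    obtain ⟨q, hq, h1, h2⟩ := hXY s hs
    exact v3 _ (n3 _ (mem_filter.mpr ⟨mem_univ _, ⟨q, hq, h1⟩, hX s hs⟩))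
  have hYc : ∀ s ∈ I, ctr (Y s) ∈ N ∧ dist (Y s) (ctr (Y s)) ≤ 7 * ρ ∧
      Reach Hv (2 * k) (7 * ρ) (Y s) (ctr (Y s)) := fun s hs => by
    obtain ⟨q, hq, h1, h2⟩ := hXY s hs
    exact v3 _ (n3 _ (mem_filter.mpr ⟨mem_univ _, ⟨q, hq, h2⟩, hY s hs⟩))
  set cls : σ → α × α := fun s => (ctr (X s), ctr (Y s)) with hcls
  set T : α × α → Finset σ := fun c => I.filter fun s => cls s = c with hT
  have hFr : (0 : ℝ) < F := by exact_mod_cast hF0
  have hΛr : (0 : ℝ) < Λ := by exact_mod_cast hΛ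
  set t : ℝ := F / Λ ^ 4 with ht
  have ht0 : 0 < t := by positivity
  set K := (I.image cls).filter fun c => t ≤ (T c).card with hK
  obtain ⟨rep, r1, r2⟩ := exists_rep T (fun s x => Btw (X s) x (Y s)) K
    (fun c hc => by
      have := (mem_filter.mp hc).2
      rw [← card_pos]
      exact_mod_cast ht0.trans_le this) (Λ ^ 4) k hk
    (fun x => by
      have a : ∑ c ∈ K, (((T c).filter fun s => Btw (X s) x (Y s)).card : ℝ) / (T c).card ≤
          ∑ c ∈ K, (((T c).filter fun s => Btw (X s) x (Y s)).card : ℝ) / t :=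
        sum_le_sum fun c hc => div_le_div_of_nonneg_left (Nat.cast_nonneg _) ht0 (mem_filter.mp hc).2
      have b : ∑ c ∈ K, ((T c).filter fun s => Btw (X s) x (Y s)).card ≤ F := by
        refine le_trans ?_ (hF x)
        rw [← card_biUnion]
        · refine card_le_card fun s hs => ?_
          simp only [hT, mem_biUnion, mem_filter] at hs ⊢
          obtain ⟨c, -, h⟩ := hs
          exact ⟨h.1.1, h.2⟩
        · intro c _ c' _ hne
          simp only [Function.onFun]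
          rw [disjoint_left]
          intro s hs hs'
          simp only [hT, mem_filter] at hs hs'
          exact hne (hs.1.2.symm.trans hs'.1.2)
      have b' : ∑ c ∈ K, (((T c).filter fun s => Btw (X s) x (Y s)).card : ℝ) ≤ F := by
        exact_mod_cast b
      refine a.trans ?_
      rw [← sum_div, div_le_iff₀ ht0, ht]
      push_cast
      rw [mul_div_cancel₀ _ (by positivity)]
      exact b')
  have hrep : ∀ c ∈ K, rep c ∈ I ∧ cls (rep c) = c := fun c hc => mem_filter.mp (r1 c hc)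
  refine ⟨Hv ∪ K.image fun c => (X (rep c), Y (rep c)), I.filter fun s => ((T (cls s)).card : ℝ) < t,
    ?_, fun x => ?_, fun e he x hx => ?_, fun s hs hs' => ?_⟩
  · have a := few_small I cls (fun c => (T c).card) t ht0.le fun s _ => le_rfl
    have b := few_pairs N (I.image cls) (fun w => mass P w (3 * ρ)) θ (P.card * K₀)
      (M * (4 * l + 1)) hθ.le (by positivity) (fun z hz => (mem_filter.mp (n1 hz)).2.2)
      (fun c hc => by
        obtain ⟨s, hs, rfl⟩ := mem_image.mp hc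
        exact ⟨(hXc s hs).1, (hYc s hs).1⟩)
      (by
        have := sum_mass_le hC P N hρ n2 P K₀ (fun q hq _ _ _ _ _ => hq) fun q hq =>
          ⟨range K₀, by simp, fun w _ y hy _ => mem_range.mpr (hK₀ q hq y hy)⟩
        exact_mod_cast this)
      (fun u => by
        rcases (N.filter fun w => (u, w) ∈ I.image cls).eq_empty_or_nonempty with he | ⟨w₀, hw₀⟩
        · rw [he, sum_empty]; positivity
        obtain ⟨s₀, hs₀, e₀⟩ := mem_image.mp (mem_filter.mp hw₀).2
        have near : ∀ w ∈ N.filter fun w => (u, w) ∈ I.image cls, ∀ y, dist w y ≤ 3 * ρ →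
            dist (X s₀) y ≤ 2 * l * ρ := by
          intro w hw y hy
          obtain ⟨s, hs, e⟩ := mem_image.mp (mem_filter.mp hw).2
          simp only [hcls, Prod.mk.injEq] at e e₀
          have d1 := (hXc s₀ hs₀).2.1
          have d2 := (hXc s hs).2.1
          have d3 := (hYc s hs).2.1
          have d4 := hd s hs
          rw [e₀.1] at d1
          rw [e.1, dist_comm] at d2
          rw [e.2] at d3
          have t1 := dist_triangle4 (X s₀) u (X s) (Y s)
          have t2 := dist_triangle4 (X s₀) (Y s) w y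
          have : (24 : ℝ) ≤ l := by exact_mod_cast hl
          nlinarith
        have := sum_mass_le hC P (N.filter fun w => (u, w) ∈ I.image cls) hρ
          (fun w hw w' hw' => n2 w (mem_filter.mp hw).1 w' (mem_filter.mp hw').1)
          (P.filter fun q => Meets q (X s₀) (2 * l * ρ)) (4 * l + 1)
          (fun q hq w hw y hy hy' => mem_filter.mpr ⟨hq, y, hy, near w hw y hy'⟩)
          fun q _ => by
            obtain ⟨J, j1, j2⟩ := window hρ l q (X s₀)
            exact ⟨J, j1, fun w hw y _ hy' => j2 y (near w hw y hy')⟩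
        have h2 := this.trans (Nat.mul_le_mul_right _ (hM s₀ hs₀))
        exact_mod_cast h2)
    have c : ((I.filter fun s => ((T (cls s)).card : ℝ) < t).card : ℝ) * Λ ≤
        P.card * K₀ * (4 * l + 1) := by
      set G : ℝ := ((I.image cls).card : ℝ)
      have hG : 0 ≤ G := Nat.cast_nonneg _
      have hA : (0 : ℝ) ≤ P.card * K₀ * (4 * l + 1) := by positivity
      have e1 : G * t * Λ * (θ ^ 2 * Λ ^ 3) = G * θ ^ 2 * F := by rw [ht]; field_simp
      have e2 : G * θ ^ 2 * F ≤ P.card * K₀ * (4 * l + 1) * (F * M) := by nlinarith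
      have e3 := mul_le_mul_of_nonneg_left hθ' hA
      have e4 : G * t * Λ ≤ P.card * K₀ * (4 * l + 1) :=
        le_of_mul_le_mul_right (by linarith) (show 0 < θ ^ 2 * Λ ^ 3 by positivity)
      exact (mul_le_mul_of_nonneg_right a hΛr.le).trans e4
    exact_mod_cast c
  · have a := load_union Hv (K.image fun c => (X (rep c), Y (rep c))) x
    have b : load (K.image fun c => (X (rep c), Y (rep c))) x ≤ k + 2 * Λ ^ 4 := by
      refine le_trans ?_ (r2 x)
      unfold load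
      rw [filter_image]
      exact card_image_le
    have := v1 x
    omega
  · rcases mem_union.mp he with he | he
    · obtain ⟨a, ha, ha'⟩ := v2 e he x hx
      obtain ⟨q, hq, hq'⟩ := (mem_filter.mp (n1 ha)).2.1
      exact ⟨q, hq, a, hq', ha'⟩
    · obtain ⟨c, hc, rfl⟩ := mem_image.mp he
      obtain ⟨q, hq, h1, h2⟩ := hXY _ (hrep c hc).1
      exact ⟨q, hq, x, h1.of_btw' hC h2 hx, by rw [dist_self]; positivity⟩
  · have hc : cls s ∈ K := mem_filter.mpr ⟨mem_image_of_mem _ hs,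
      not_lt.mp fun h => hs' (mem_filter.mpr ⟨hs, h⟩)⟩
    obtain ⟨h1, h2⟩ := hrep _ hc
    set s' := rep (cls s) with hs'def
    simp only [hcls, Prod.mk.injEq] at h2
    have m : ∀ {a b : α}, Reach Hv (2 * k) (7 * ρ) a b →
        Reach (Hv ∪ K.image fun c => (X (rep c), Y (rep c))) (2 * k) (7 * ρ) a b :=
      fun h => h.mono subset_union_left le_rfl le_rfl
    have a1 := m (hXc s hs).2.2
    have a2 := (m (hXc s' h1).2.2).symm
    have a3 : Reach (Hv ∪ K.image fun c => (X (rep c), Y (rep c))) 1 _ (X s') (Y s') :=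
      Reach.single (Or.inr (Or.inl (mem_union_right _ (mem_image.mpr ⟨cls s, hc, rfl⟩))))
    have a4 := m (hYc s' h1).2.2
    have a5 := (m (hYc s hs).2.2).symm
    have d1 := (hXc s hs).2.1
    have d2 := (hXc s' h1).2.1
    have d3 := (hYc s hs).2.1
    have d4 := (hYc s' h1).2.1
    rw [h2.1] at a2 d2
    rw [h2.2] at a4 d4
    refine ((((a1.trans a2).trans a3).trans a4).trans a5).mono Subset.rfl (by omega) ?_
    have t1 := dist_triangle4 (X s') (ctr (X s)) (X s) (Y s)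
    have t2 := dist_triangle4 (X s') (Y s) (ctr (Y s)) (Y s')
    rw [dist_comm (ctr (X s)) (X s)] at t1
    rw [dist_comm (ctr (Y s)) (Y s')] at t2
    linarith

theorem hub_lemma (P : Finset (α × α)) {ρ : ℝ} (hρ : 0 < ρ) (l K₀ : ℕ)
    (hK₀ : ∀ q ∈ P, ∀ y, On q y → idx ρ q y < K₀) (J : Finset ((α × α) × ℕ))
    (z : (α × α) × ℕ → α) (hJ : ∀ s ∈ J, s.1 ∈ P ∧ On s.1 (z s) ∧ idx ρ s.1 (z s) = s.2)
    (F M Λ n₀ : ℕ) (hF0 : 0 < F) (hn : n₀ * M * Λ ≤ F ^ 2) {σ : Type} (I : Finset σ)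
    (pth : σ → α × α) (X Y : σ → α) (hp : ∀ s ∈ I, pth s ∈ P ∧ On (pth s) (X s) ∧ On (pth s) (Y s))
    (hinj : ∀ s ∈ I, ∀ s' ∈ I, pth s = pth s' → X s = X s' → s = s')
    (hd : ∀ s ∈ I, dist (X s) (Y s) ≤ l * ρ)
    (hX : ∀ s ∈ I, F ≤ (J.filter fun j => z j = X s).card)
    (hY : ∀ s ∈ I, F ≤ (J.filter fun j => z j = Y s).card)
    (hM : ∀ s ∈ I, mass P (X s) (2 * l * ρ) ≤ M) :
    (I.filter fun s => (P.filter fun q => On q (X s) ∧ On q (Y s)).card < n₀).card * Λ ≤
      P.card * K₀ * (4 * l + 1) := by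
  set cls : σ → α × α := fun s => (X s, Y s) with hcls
  have a := few_small I cls (fun c => (P.filter fun q => On q c.1 ∧ On q c.2).card) n₀
    (Nat.cast_nonneg _) fun s _ => by
      refine card_le_card_of_injOn pth (fun s' hs' => ?_) fun s1 h1 s2 h2 e => ?_
      · obtain ⟨h1, h2⟩ := mem_filter.mp (mem_coe.mp hs')
        rw [← h2]
        exact mem_coe.mpr (mem_filter.mpr (hp s' h1))
      · obtain ⟨a1, a2⟩ := mem_filter.mp (mem_coe.mp h1)
        obtain ⟨b1, b2⟩ := mem_filter.mp (mem_coe.mp h2)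
        exact hinj s1 a1 s2 b1 e (congrArg Prod.fst (a2.trans b2.symm))
  have hsum : ∀ Z : Finset α, ∑ v ∈ Z, (J.filter fun j => z j = v).card =
      (J.filter fun j => z j ∈ Z).card := by
    intro Z
    rw [card_eq_sum_card_fiberwise (s := J.filter fun j => z j ∈ Z) (t := Z) (f := z)
      fun j hj => (mem_filter.mp hj).2]
    refine sum_congr rfl fun v hv => ?_
    congr 1
    ext j
    simp only [mem_filter]
    exact ⟨fun h => ⟨⟨h.1, h.2 ▸ hv⟩, h.2⟩, fun h => ⟨h.1.1, h.2⟩⟩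
  set Z := univ.filter fun v => F ≤ (J.filter fun j => z j = v).card with hZ
  have b := few_pairs Z (I.image cls) (fun v => (J.filter fun j => z j = v).card) F (P.card * K₀)
    (M * (4 * l + 1)) (Nat.cast_nonneg _) (by positivity)
    (fun v hv => by exact_mod_cast (mem_filter.mp hv).2)
    (fun c hc => by
      obtain ⟨s, hs, rfl⟩ := mem_image.mp hc
      exact ⟨mem_filter.mpr ⟨mem_univ _, hX s hs⟩, mem_filter.mpr ⟨mem_univ _, hY s hs⟩⟩)
    (by
      have := card_le_of_fibers (J.filter fun j => z j ∈ Z) P K₀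
        (fun j hj => (hJ j (mem_filter.mp hj).1).1) fun q hq =>
          ⟨range K₀, by simp, fun j hj e => by
            obtain ⟨a1, a2, a3⟩ := hJ j (mem_filter.mp hj).1
            rw [← a3]
            exact mem_range.mpr (hK₀ _ a1 _ a2)⟩
      rw [← hsum] at this
      exact_mod_cast this)
    (fun u => by
      rcases (Z.filter fun w => (u, w) ∈ I.image cls).eq_empty_or_nonempty with he | ⟨w₀, hw₀⟩
      · rw [he, sum_empty]; positivity
      obtain ⟨s₀, hs₀, e₀⟩ := mem_image.mp (mem_filter.mp hw₀).2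
      have near : ∀ w ∈ Z.filter fun w => (u, w) ∈ I.image cls, dist (X s₀) w ≤ 2 * l * ρ := by
        intro w hw
        obtain ⟨s, hs, e⟩ := mem_image.mp (mem_filter.mp hw).2
        simp only [hcls, Prod.mk.injEq] at e e₀
        have d4 := hd s hs
        rw [e.1, e.2] at d4
        rw [e₀.1]
        have : (0 : ℝ) ≤ l * ρ := by positivity
        linarith
      have := card_le_of_fibers (J.filter fun j => z j ∈ Z.filter fun w => (u, w) ∈ I.image cls)
        (P.filter fun q => Meets q (X s₀) (2 * l * ρ)) (4 * l + 1)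
        (fun j hj => by
          obtain ⟨j1, j2⟩ := mem_filter.mp hj
          exact mem_filter.mpr ⟨(hJ j j1).1, z j, (hJ j j1).2.1, near _ j2⟩)
        fun q _ => by
          obtain ⟨W, w1, w2⟩ := window hρ l q (X s₀)
          refine ⟨W, w1, fun j hj e => ?_⟩
          obtain ⟨j1, j2⟩ := mem_filter.mp hj
          rw [← (hJ j j1).2.2, e]
          exact w2 _ (near _ j2)
      rw [← hsum] at this
      have h2 := this.trans (Nat.mul_le_mul_right _ (hM s₀ hs₀))
      exact_mod_cast h2)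
  have e : (I.filter fun s => (P.filter fun q => On q (X s) ∧ On q (Y s)).card < n₀) =
      I.filter fun s => (((P.filter fun q => On q (cls s).1 ∧ On q (cls s).2).card : ℕ) : ℝ) < n₀ :=
    filter_congr fun s _ => by simp [hcls]
  rw [e]
  set G : ℝ := ((I.image cls).card : ℝ)
  have hG : 0 ≤ G := Nat.cast_nonneg _
  have hFr : (0 : ℝ) < F := by exact_mod_cast hF0
  have hn' : (n₀ : ℝ) * M * Λ ≤ F ^ 2 := by exact_mod_cast hn
  have hA : (0 : ℝ) ≤ P.card * K₀ * (4 * l + 1) := by positivity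
  have e4 : G * n₀ * Λ ≤ P.card * K₀ * (4 * l + 1) := by
    refine le_of_mul_le_mul_right ?_ (show 0 < (F : ℝ) ^ 2 by positivity)
    calc G * n₀ * Λ * (F : ℝ) ^ 2 = G * F ^ 2 * (n₀ * Λ) := by ring
      _ ≤ (P.card : ℝ) * K₀ * (M * (4 * l + 1)) * (n₀ * Λ) :=
        mul_le_mul_of_nonneg_right b (by positivity)
      _ = (P.card : ℝ) * K₀ * (4 * l + 1) * (n₀ * M * Λ) := by ring
      _ ≤ _ := mul_le_mul_of_nonneg_left hn' hA
  have := (mul_le_mul_of_nonneg_right a (Nat.cast_nonneg Λ)).trans e4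
  exact_mod_cast this

end Pool.Agent.Work.MP_149e94_lc
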