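import Pool.Agent.Work.MP_149e94_lc.Node

/-!
One level of the subdivision.
-/

namespace Pool.Agent.Work.MP_149e94_lc

open Finset
open scoped Classical

variable {α : Type} [MetricSpace α] [Fintype α]

/-- Every point bypassed by an edge of `H` is within `r` of a geodesic of `P`. -/
def Near (P H : Finset (α × α)) (r : ℝ) : Prop :=
  ∀ e ∈ H, ∀ x, Btw e.1 x e.2 → ∃ q ∈ P, ∃ y, On q y ∧ dist y x ≤ r

theorem card_biUnion_mul_le {ι β : Type} [DecidableEq β] (I : Finset ι) (B : ι → Finset β)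
    (Λ b : ℕ) (h : ∀ i ∈ I, (B i).card * Λ ≤ b) : (I.biUnion B).card * Λ ≤ I.card * b := by
  refine (Nat.mul_le_mul_right _ card_biUnion_le).trans ?_
  rw [sum_mul]
  simpa using sum_le_card_nsmul I _ b h

theorem side_lemma (hC : Chain α) (k : ℕ) (hk : Fintype.card α ≤ 2 ^ k) (P : Finset (α × α))
    (k' : ℕ) (hP : P.card ≤ 2 ^ k') {ρ : ℝ} (hρ : 0 < ρ) (l K₀ J Λ : ℕ) (hl : 24 ≤ l) (hJ : 0 < J)
    (hΛ : 0 < Λ) (hK₀ : ∀ q ∈ P, ∀ y, On q y → idx ρ q y < K₀) (Low : (α × α) × ℕ → ℕ → Prop)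
    (hLow : ∀ v φ, ((P ×ˢ range K₀).filter fun j => Nd ρ j.1 j.2 v ∧ Low j φ).card ≤ φ)
    (lo hi : (α × α) × ℕ → ℕ) (hlo : ∀ s, lo s ≤ hi s ∧ hi s ≤ l)
    (hlow : ∀ s : (α × α) × ℕ, s.1 ∈ P → ∀ c, lo s ≤ c → c < hi s → NE ρ s.1 (l * s.2 + c) →
      Low (s.1, l * s.2 + c) (FF Λ (mE P (ρ * l) s.1 s.2) (gE P (ρ * l) s.1 s.2))) :
    ∃ (H : Finset (α × α)) (Bad : Finset ((α × α) × ℕ)),
      Bad.card * Λ ≤ (k' + 1) ^ 2 * (P.card * K₀ * (4 * l + 1)) ∧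
      (∀ x, load H x ≤ (k' + 1) ^ 2 * (2 * k + 2 * Λ ^ 4)) ∧ Near P H (7 * ρ) ∧
      ∀ s : (α × α) × ℕ, s.1 ∈ P → s ∉ Bad → ∃ (A B : ℕ) (St : Finset ℕ), lo s ≤ A ∧ A ≤ B ∧
        B ≤ hi s ∧ St.card ≤ J ∧ (A = B ∨ A + J ≤ B) ∧
        Cross H s.1 (Blk ρ s.1 (l * s.2 + A) (l * s.2 + B)) (8 * k + 1) (56 * ρ) ∧
        ∀ c, lo s ≤ c → c < hi s → (c < A ∨ B ≤ c) → c ∉ St →
          (massN P ρ s.1 (l * s.2 + c) : ℝ) <
            tt Λ (mE P (ρ * l) s.1 s.2) (gE P (ρ * l) s.1 s.2) := by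
  have hl0 : 0 < l := by omega
  choose a b h1 h2 h3 h4 h5 using fun s : (α × α) × ℕ => exists_span
    (fun c => tt Λ (mE P (ρ * l) s.1 s.2) (gE P (ρ * l) s.1 s.2) ≤ massN P ρ s.1 (l * s.2 + c))
    (hlo s).1
  have hXY : ∀ s : (α × α) × ℕ, ∃ X Y : α, a s + J ≤ b s →
      Nd ρ s.1 (l * s.2 + a s) X ∧ Nd ρ s.1 (l * s.2 + (b s - 1)) Y ∧
      (∀ z, Blk ρ s.1 (l * s.2 + a s) (l * s.2 + b s) z → dist s.1.1 X ≤ dist s.1.1 z) ∧
      (∀ z, Blk ρ s.1 (l * s.2 + a s) (l * s.2 + b s) z → dist s.1.1 z ≤ dist s.1.1 Y) := by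
    intro s
    by_cases hj : a s + J ≤ b s
    swap
    · exact ⟨s.1.1, s.1.1, fun h => absurd h hj⟩
    obtain ⟨d1, d2⟩ := h5 s (by omega)
    obtain ⟨x, hx⟩ := ne_of_massN (by exact_mod_cast (tt_pos hΛ _ _).trans_le d1)
    obtain ⟨y, hy⟩ := ne_of_massN (by exact_mod_cast (tt_pos hΛ _ _).trans_le d2)
    rw [nd_iff] at hx hy
    have hxb : Blk ρ s.1 (l * s.2 + a s) (l * s.2 + b s) x := ⟨hx.1, by omega, by omega⟩
    have hyb : Blk ρ s.1 (l * s.2 + a s) (l * s.2 + b s) y := ⟨hy.1, by omega, by omega⟩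
    obtain ⟨X, x1, x2⟩ := exists_first s.1 _ ⟨x, hxb⟩
    obtain ⟨Y, y1, y2⟩ := exists_last s.1 _ ⟨x, hxb⟩
    have e1 := idx_mono hρ (x2 x hxb)
    have e2 := idx_mono hρ (y2 y hyb)
    refine ⟨X, Y, fun _ => ⟨nd_iff.mpr ⟨x1.1, ?_⟩, nd_iff.mpr ⟨y1.1, ?_⟩, x2, y2⟩⟩
    · have := x1.2.1; omega
    · have := y1.2.2; omega
  choose X Y hXY using hXY
  have hXb : ∀ s, a s + J ≤ b s → Blk ρ s.1 (l * s.2 + a s) (l * s.2 + b s) (X s) := fun s hj => by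
    have := nd_iff.mp (hXY s hj).1
    exact ⟨this.1, by omega, by omega⟩
  have hYb : ∀ s, a s + J ≤ b s → Blk ρ s.1 (l * s.2 + a s) (l * s.2 + b s) (Y s) := fun s hj => by
    have := nd_iff.mp (hXY s hj).2.1
    exact ⟨this.1, by omega, by omega⟩
  have hbl : ∀ s, b s ≤ l := fun s => (h3 s).trans (hlo s).2
  set I : ℕ × ℕ → Finset ((α × α) × ℕ) := fun γ => (P ×ˢ range K₀).filter fun s =>
    a s + J ≤ b s ∧ mE P (ρ * l) s.1 s.2 = γ.1 ∧ gE P (ρ * l) s.1 s.2 = γ.2 with hI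
  have hIm : ∀ γ, ∀ s ∈ I γ, s.1 ∈ P ∧ a s + J ≤ b s ∧ mE P (ρ * l) s.1 s.2 = γ.1 ∧
      gE P (ρ * l) s.1 s.2 = γ.2 := fun γ s hs => by
    have := mem_filter.mp hs
    exact ⟨(mem_product.mp this.1).1, this.2⟩
  rcases isEmpty_or_nonempty α with hα | hα
  · refine ⟨∅, ∅, by simp, fun x => hα.elim x, fun e _ => hα.elim e.1, fun s => hα.elim s.1.1⟩
  have hgrp := fun γ : ℕ × ℕ => jump_lemma hC k hk P hρ l K₀ hl hK₀ (tt Λ γ.1 γ.2) (FF Λ γ.1 γ.2)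
    (2 ^ γ.1) Λ (tt_pos hΛ _ _) (FF_pos hΛ _ _) hΛ (FF_le hΛ _ _) (I γ) X Y
    (fun s hs => ⟨s.1, (hIm γ s hs).1, (hXb s (hIm γ s hs).2.1).1, (hYb s (hIm γ s hs).2.1).1⟩)
    (fun s hs => by
      have j := (hIm γ s hs).2.1
      have := Blk.dist_lt hC (L := ρ * l) (by positivity) ((hXb s j).parent hl0 (hbl s))
        ((hYb s j).parent hl0 (hbl s))
      push_cast at this
      linarith)
    (fun s hs => by
      obtain ⟨-, j, e1, e2⟩ := hIm γ s hs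
      have := (h5 s (by omega)).1
      rw [e1, e2] at this
      exact this.trans (by exact_mod_cast (hXY s j).1.le_mass hC hρ))
    (fun s hs => by
      obtain ⟨-, j, e1, e2⟩ := hIm γ s hs
      have := (h5 s (by omega)).2
      rw [e1, e2] at this
      exact this.trans (by exact_mod_cast (hXY s j).2.1.le_mass hC hρ))
    (fun s hs => by
      obtain ⟨-, j, e1, e2⟩ := hIm γ s hs
      have := (Nd.mass_le (P := P) ((hXb s j).parent hl0 (hbl s))).trans (massN_le_pow _ _ _ _)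
      rw [e1] at this
      rwa [show 2 * (l : ℝ) * ρ = 2 * (ρ * l) by ring])
    (fun v => by
      have key : ∀ s ∈ I γ, Btw (X s) v (Y s) → Blk ρ s.1 (l * s.2 + a s) (l * s.2 + b s) v := by
        intro s hs hv
        have j := (hIm γ s hs).2.1
        obtain ⟨o1, o2, o3⟩ := (hXb s j).1.of_btw hC (hYb s j).1 ((hXY s j).2.2.1 _ (hYb s j)) hv
        exact ⟨o1, (hXb s j).2.1.trans (idx_mono hρ o2), (idx_mono hρ o3).trans_lt (hYb s j).2.2⟩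
      refine le_trans (card_le_card_of_injOn (fun s => (s.1, idx ρ s.1 v)) (fun s hs => ?_)
        fun s hs s' hs' e => ?_) (hLow v (FF Λ γ.1 γ.2))
      · obtain ⟨s1, s2⟩ := mem_filter.mp (mem_coe.mp hs)
        obtain ⟨p1, j, e1, e2⟩ := hIm γ s s1
        have hb := key s s1 s2
        have hn : Nd ρ s.1 (idx ρ s.1 v) v := nd_iff.mpr ⟨hb.1, rfl⟩
        refine mem_coe.mpr (mem_filter.mpr ⟨mem_product.mpr ⟨p1, mem_range.mpr (hK₀ _ p1 _ hb.1)⟩,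
          hn, ?_⟩)
        have e : idx ρ s.1 v = l * s.2 + (idx ρ s.1 v - l * s.2) := by have := hb.2.1; omega
        have := hlow s p1 (idx ρ s.1 v - l * s.2) (by have := hb.2.1; have := h1 s; omega)
          (by have := hb.2.2; have := h3 s; omega) ⟨v, e ▸ hn⟩
        rwa [← e, e1, e2] at this
      · obtain ⟨s1, s2⟩ := mem_filter.mp (mem_coe.mp hs)
        obtain ⟨t1, t2⟩ := mem_filter.mp (mem_coe.mp hs')
        have e1 : s.1 = s'.1 := (Prod.mk.inj e).1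
        have a1 := (nd_iff.mp ((key s s1 s2).parent hl0 (hbl s))).2
        have a2 := (nd_iff.mp ((key s' t1 t2).parent hl0 (hbl s'))).2
        exact Prod.ext e1 (by rw [← a1, ← a2, e1]))
  choose H Bad g1 g2 g3 g4 using hgrp
  have hΓ : (range (k' + 1) ×ˢ range (k' + 1)).card = (k' + 1) ^ 2 := by
    rw [card_product, card_range, sq]
  refine ⟨(range (k' + 1) ×ˢ range (k' + 1)).biUnion H, (range (k' + 1) ×ˢ range (k' + 1)).biUnion Bad,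
    ?_, fun x => ?_, fun e he => ?_, fun s hs hs' => ?_⟩
  · rw [← hΓ]
    exact card_biUnion_mul_le _ _ _ _ fun γ _ => g1 γ
  · rw [← hΓ]
    exact load_biUnion_le _ _ H x _ (fun γ _ => g2 γ x) fun γ h h' => absurd h h'
  · obtain ⟨γ, -, h⟩ := mem_biUnion.mp he
    exact g3 γ e h
  · by_cases hj : a s + J ≤ b s
    · refine ⟨a s, b s, ∅, h1 s, h2 s, h3 s, by simp, Or.inr hj, ?_,
        fun c c1 c2 c3 _ => not_le.mp (h4 s c c1 c2 c3)⟩
      have hpar := (hXb s hj).parent hl0 (hbl s)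
      have hγ : (mE P (ρ * l) s.1 s.2, gE P (ρ * l) s.1 s.2) ∈
          range (k' + 1) ×ˢ range (k' + 1) := by
        have a1 := mE_le hP (ρ * l) s.1 s.2
        have a2 := NE.gE_le_mE P (L := ρ * l) (by positivity) ⟨_, hpar⟩
        simp only [mem_product, mem_range]
        omega
      have hsI : s ∈ I (mE P (ρ * l) s.1 s.2, gE P (ρ * l) s.1 s.2) := by
        refine mem_filter.mpr ⟨mem_product.mpr ⟨hs, mem_range.mpr ?_⟩, hj, rfl, rfl⟩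
        have a1 := (nd_iff.mp hpar).2
        rw [idx_div] at a1
        rw [← a1]
        exact (Nat.div_le_self _ _).trans_lt (hK₀ _ hs _ hpar.1)
      have r := (g4 _ s hsI fun h => hs' (mem_biUnion.mpr ⟨_, hγ, h⟩)).mono
        (subset_biUnion_of_mem H hγ) le_rfl le_rfl
      intro x y hx hy x1 y1
      have ex : x = X s := hx.1.eq_of_pos hC (hXb s hj).1
        (le_antisymm (x1 _ (hXb s hj)) ((hXY s hj).2.2.1 _ hx))
      have ey : y = Y s := hy.1.eq_of_pos hC (hYb s hj).1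
        (le_antisymm ((hXY s hj).2.2.2 _ hy) (y1 _ (hYb s hj)))
      rw [ex, ey]
      exact r
    · refine ⟨lo s, lo s, Ico (a s) (b s), le_rfl, le_rfl, (hlo s).1, by simp; omega, Or.inl rfl,
        Cross.of_empty _ _ fun x hx => by have := hx.2; omega, fun c c1 c2 _ c4 => ?_⟩
      rw [mem_Ico] at c4
      exact not_le.mp (h4 s c c1 c2 (by omega))

theorem level_lemma (hC : Chain α) (k : ℕ) (hk : Fintype.card α ≤ 2 ^ k) (P : Finset (α × α))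
    (k' : ℕ) (hP : P.card ≤ 2 ^ k') {ρ : ℝ} (hρ : 0 < ρ) (l K₀ J Λ : ℕ) (hl : 24 ≤ l) (hJ : 0 < J)
    (hΛ : 4 ≤ Λ) (hK₀ : ∀ q ∈ P, ∀ y, On q y → idx ρ q y < K₀) :
    ∃ (H : Finset (α × α)) (Bad : Finset ((α × α) × ℕ)),
      Bad.card * Λ ≤ 3 * ((k' + 1) ^ 2 * (P.card * K₀ * (4 * l + 1))) ∧
      (∀ x, load H x ≤ 2 * ((k' + 1) ^ 2 * (2 * k + 2 * Λ ^ 4))) ∧ Near P H (7 * ρ) ∧
      ∀ p ∈ P, ∀ i, (p, i) ∉ Bad → ∃ (A₁ B₁ A₂ B₂ : ℕ) (St : Finset ℕ), A₁ ≤ B₁ ∧ B₁ ≤ A₂ ∧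
        A₂ ≤ B₂ ∧ B₂ ≤ l ∧ St.card ≤ 2 * J + 2 ∧ (A₁ = B₁ ∨ A₁ + J ≤ B₁) ∧ (A₂ = B₂ ∨ A₂ + J ≤ B₂) ∧
        Cross H p (Blk ρ p (l * i + A₁) (l * i + B₁)) (8 * k + 1) (56 * ρ) ∧
        Cross H p (Blk ρ p (l * i + A₂) (l * i + B₂)) (8 * k + 1) (56 * ρ) ∧
        ∀ c, c < l → (c < A₁ ∨ B₁ ≤ c) → (c < A₂ ∨ B₂ ≤ c) → c ∉ St →
          4 * Psi P ρ p (l * i + c) ≤ Psi P (ρ * l) p i := by
  have hl0 : 0 < l := by omega
  have hΛ0 : 0 < Λ := by omega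
  rcases isEmpty_or_nonempty α with hα | hα
  · refine ⟨∅, ∅, by simp, fun x => hα.elim x, fun e _ => hα.elim e.1, fun p => hα.elim p.1⟩
  set Jn : Finset ((α × α) × ℕ) := (P ×ˢ range K₀).filter fun j => NE ρ j.1 j.2 with hJn
  obtain ⟨z, z1, z2⟩ := peeling (fun (j : (α × α) × ℕ) x => Nd ρ j.1 j.2 x) _ Jn le_rfl
    fun j hj => (mem_filter.mp hj).2
  have hJm : ∀ p ∈ P, ∀ i, NE ρ p i → (p, i) ∈ Jn := fun p hp i hi => by
    refine mem_filter.mpr ⟨mem_product.mpr ⟨hp, mem_range.mpr ?_⟩, hi⟩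
    obtain ⟨x, hx⟩ := hi
    rw [nd_iff] at hx
    exact hx.2 ▸ hK₀ _ hp _ hx.1
  set lev : α → ℕ := fun v => (Jn.filter fun j => z j = v).card with hlev
  choose a b h1 h2 h3 h4 h5 using fun s : (α × α) × ℕ => exists_span
    (fun c => NE ρ s.1 (l * s.2 + c) ∧
      FF Λ (mE P (ρ * l) s.1 s.2) (gE P (ρ * l) s.1 s.2) ≤ lev (z (s.1, l * s.2 + c)))
    (Nat.zero_le l)
  have hLow : ∀ v φ, ((P ×ˢ range K₀).filter fun j => Nd ρ j.1 j.2 v ∧ lev (z j) ≤ φ).card ≤ φ := by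
    intro v φ
    refine le_trans (card_le_card fun j hj => ?_) (z2 v φ)
    obtain ⟨j1, j2, j3⟩ := mem_filter.mp hj
    exact mem_filter.mpr ⟨mem_filter.mpr ⟨j1, v, j2⟩, j2, j3⟩
  obtain ⟨H₁, Bad₁, a1, a2, a3, a4⟩ := side_lemma hC k hk P k' hP hρ l K₀ J Λ hl hJ hΛ0 hK₀
    (fun j φ => lev (z j) ≤ φ) (fun v φ => by convert hLow v φ) (fun _ => 0) a (fun s => ⟨h1 s, (h2 s).trans (h3 s)⟩)
    fun s _ c _ c2 hne => by
      have := h4 s c (Nat.zero_le _) (by have := h2 s; have := h3 s; omega) (Or.inl c2)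
      exact (not_le.mp fun h => this ⟨hne, h⟩).le
  obtain ⟨H₂, Bad₂, b1, b2, b3, b4⟩ := side_lemma hC k hk P k' hP hρ l K₀ J Λ hl hJ hΛ0 hK₀
    (fun j φ => lev (z j) ≤ φ) (fun v φ => by convert hLow v φ) b (fun _ => l) (fun s => ⟨h3 s, le_rfl⟩)
    fun s _ c c1 c2 hne => by
      have := h4 s c (Nat.zero_le _) c2 (Or.inr c1)
      exact (not_le.mp fun h => this ⟨hne, h⟩).le
  set X : (α × α) × ℕ → α := fun s => z (s.1, l * s.2 + a s) with hX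
  set Y : (α × α) × ℕ → α := fun s => z (s.1, l * s.2 + (b s - 1)) with hY
  have hXn : ∀ s : (α × α) × ℕ, s.1 ∈ P → a s < b s → Nd ρ s.1 (l * s.2 + a s) (X s) :=
    fun s hs hab => z1 _ (hJm _ hs _ (h5 s hab).1.1)
  have hYn : ∀ s : (α × α) × ℕ, s.1 ∈ P → a s < b s → Nd ρ s.1 (l * s.2 + (b s - 1)) (Y s) :=
    fun s hs hab => z1 _ (hJm _ hs _ (h5 s hab).2.1)
  have hXp : ∀ s : (α × α) × ℕ, s.1 ∈ P → a s < b s → Nd (ρ * l) s.1 s.2 (X s) :=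
    fun s hs hab => (hXn s hs hab).parent (by have := h3 s; omega)
  have hYp : ∀ s : (α × α) × ℕ, s.1 ∈ P → a s < b s → Nd (ρ * l) s.1 s.2 (Y s) :=
    fun s hs hab => (hYn s hs hab).parent (by have := h3 s; omega)
  set I : ℕ × ℕ → Finset ((α × α) × ℕ) := fun γ => (P ×ˢ range K₀).filter fun s =>
    a s < b s ∧ mE P (ρ * l) s.1 s.2 = γ.1 ∧ gE P (ρ * l) s.1 s.2 = γ.2 with hI
  have hIm : ∀ γ, ∀ s ∈ I γ, s.1 ∈ P ∧ a s < b s ∧ mE P (ρ * l) s.1 s.2 = γ.1 ∧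
      gE P (ρ * l) s.1 s.2 = γ.2 := fun γ s hs => by
    have := mem_filter.mp hs
    exact ⟨(mem_product.mp this.1).1, this.2⟩
  have hgrp := fun γ : ℕ × ℕ => hub_lemma P hρ l K₀ hK₀ Jn z
    (fun j hj => ⟨(mem_product.mp (mem_filter.mp hj).1).1, nd_iff.mp (z1 j hj)⟩)
    (FF Λ γ.1 γ.2) (2 ^ γ.1) Λ (nn Λ γ.1 γ.2) (FF_pos hΛ0 _ _) (nn_le _ _ _) (I γ) Prod.fst X Y
    (fun s hs => ⟨(hIm γ s hs).1, (hXn s (hIm γ s hs).1 (hIm γ s hs).2.1).1,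
      (hYn s (hIm γ s hs).1 (hIm γ s hs).2.1).1⟩)
    (fun s hs s' hs' e1 e2 => by
      have c1 := (nd_iff.mp (hXp s (hIm γ s hs).1 (hIm γ s hs).2.1)).2
      have c2 := (nd_iff.mp (hXp s' (hIm γ s' hs').1 (hIm γ s' hs').2.1)).2
      exact Prod.ext e1 (by rw [← c1, ← c2, e1, e2]))
    (fun s hs => by
      have := Blk.dist_lt hC (L := ρ * l) (by positivity) (hXp s (hIm γ s hs).1 (hIm γ s hs).2.1)
        (hYp s (hIm γ s hs).1 (hIm γ s hs).2.1)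
      push_cast at this
      linarith)
    (fun s hs => by
      obtain ⟨-, j, e1, e2⟩ := hIm γ s hs
      have := (h5 s j).1.2
      rwa [e1, e2] at this)
    (fun s hs => by
      obtain ⟨-, j, e1, e2⟩ := hIm γ s hs
      have := (h5 s j).2.2
      rwa [e1, e2] at this)
    (fun s hs => by
      obtain ⟨p1, j, e1, e2⟩ := hIm γ s hs
      have := (Nd.mass_le (P := P) (hXp s p1 j)).trans (massN_le_pow _ _ _ _)
      rw [e1] at this
      rwa [show 2 * (l : ℝ) * ρ = 2 * (ρ * l) by ring])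
  have hΓ : (range (k' + 1) ×ˢ range (k' + 1)).card = (k' + 1) ^ 2 := by
    rw [card_product, card_range, sq]
  have c1 := card_biUnion_mul_le (range (k' + 1) ×ˢ range (k' + 1)) _ _ _ fun γ _ => hgrp γ
  rw [hΓ] at c1
  set Bad₃ := (range (k' + 1) ×ˢ range (k' + 1)).biUnion fun γ => (I γ).filter fun s =>
    (P.filter fun q => On q (X s) ∧ On q (Y s)).card < nn Λ γ.1 γ.2 with hBad₃
  refine ⟨H₁ ∪ H₂, Bad₁ ∪ Bad₂ ∪ Bad₃, ?_, fun x => ?_, fun e he => ?_, fun p hp i hs => ?_⟩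
  · have d1 := card_union_le (Bad₁ ∪ Bad₂) Bad₃
    have d2 := card_union_le Bad₁ Bad₂
    have d3 := Nat.mul_le_mul_right Λ (d1.trans (Nat.add_le_add_right d2 _))
    rw [add_mul, add_mul] at d3
    omega
  · have := load_union H₁ H₂ x
    have := a2 x
    have := b2 x
    omega
  · rcases mem_union.mp he with he | he
    · exact a3 e he
    · exact b3 e he
  · simp only [mem_union, not_or] at hs
    obtain ⟨A₁, B₁, S₁, e1, e2, e3, e4, e5, e6, e7⟩ := a4 (p, i) hp hs.1.1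
    obtain ⟨A₂, B₂, S₂, f1, f2, f3, f4, f5, f6, f7⟩ := b4 (p, i) hp hs.1.2
    refine ⟨A₁, B₁, A₂, B₂, S₁ ∪ S₂ ∪ {a (p, i), b (p, i) - 1}, e2, e3.trans ((h2 _).trans f1), f2, f3,
      ?_, e5, f5, e6.mono subset_union_left le_rfl le_rfl, f6.mono subset_union_right le_rfl le_rfl,
      fun c c1 c2 c3 c4 => ?_⟩
    · have d1 := card_union_le (S₁ ∪ S₂) {a (p, i), b (p, i) - 1}
      have d2 := card_union_le S₁ S₂
      have d3 := card_le_two (a := a (p, i)) (b := b (p, i) - 1)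
      omega
    simp only [mem_union, not_or, mem_insert, mem_singleton] at c4
    by_cases hca : c < a (p, i)
    · exact drop_sparse hρ hΛ hp c1 (e7 c (Nat.zero_le _) hca c2 c4.1.1)
    by_cases hcb : b (p, i) ≤ c
    · exact drop_sparse hρ hΛ hp c1 (f7 c hcb c1 c3 c4.1.2)
    have hab : a (p, i) < b (p, i) := by omega
    refine drop_inside hρ hΛ c1 fun x hx => ?_
    have hpar := hXp (p, i) hp hab
    have hγ : (mE P (ρ * l) p i, gE P (ρ * l) p i) ∈ range (k' + 1) ×ˢ range (k' + 1) := by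
      have a1 := mE_le hP (ρ * l) p i
      have a2 := NE.gE_le_mE P (L := ρ * l) (by positivity) ⟨_, hpar⟩
      simp only [mem_product, mem_range] at a2 ⊢
      omega
    have hsI : (p, i) ∈ I (mE P (ρ * l) p i, gE P (ρ * l) p i) := by
      refine mem_filter.mpr ⟨mem_product.mpr ⟨hp, mem_range.mpr ?_⟩, hab, rfl, rfl⟩
      have a1 := (nd_iff.mp hpar).2
      rw [idx_div] at a1
      simp only at a1 ⊢
      rw [← a1]
      exact (Nat.div_le_self _ _).trans_lt (hK₀ _ hp _ hpar.1)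
    have hbig : nn Λ (mE P (ρ * l) p i) (gE P (ρ * l) p i) ≤
        (P.filter fun q => On q (X (p, i)) ∧ On q (Y (p, i))).card :=
      not_lt.mp fun h => hs.2 (mem_biUnion.mpr ⟨_, hγ, mem_filter.mpr ⟨hsI, h⟩⟩)
    refine hbig.trans (card_le_card fun q hq => ?_)
    obtain ⟨q1, q2, q3⟩ := mem_filter.mp hq
    have x1 := nd_iff.mp (hXn (p, i) hp hab)
    have y1 := nd_iff.mp (hYn (p, i) hp hab)
    have x2 := nd_iff.mp hx
    simp only at x1 y1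
    have hb : Btw (X (p, i)) x (Y (p, i)) := x1.1.btw_of_le hC x2.1 y1.1
      (pos_lt_of_idx_lt hρ (by omega)).le (pos_lt_of_idx_lt hρ (by omega)).le
    exact mem_filter.mpr ⟨q1, q2.of_btw' hC q3 hb⟩

end Pool.Agent.Work.MP_149e94_lc
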