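import Pool.Agent.Work.MP_149e94_lc.Round

/-!
All scales together, and polynomial bounds for the parameters.
-/

namespace Pool.Agent.Work.MP_149e94_lc

open Finset
open scoped Classical

theorem card_le_of_close (S : Finset ℤ) (f : ℤ → ℕ) (k q : ℕ) (hq : 0 < q) (hf : ∀ j ∈ S, f j < k)
    (h : ∀ j ∈ S, ∀ j' ∈ S, f j = f j' → j' < j + q) : S.card ≤ k * q := by
  have hq' : (0 : ℤ) < q := by exact_mod_cast hq
  have := card_le_card_of_injOn (s := S) (t := range k ×ˢ Ico (0 : ℤ) q) (fun j => (f j, j % q))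
    (fun j hj => mem_coe.mpr (mem_product.mpr ⟨mem_range.mpr (hf j hj),
      mem_Ico.mpr ⟨Int.emod_nonneg _ hq'.ne', Int.emod_lt_of_pos _ hq'⟩⟩))
    fun j hj j' hj' e => by
      obtain ⟨e1, e2⟩ := Prod.mk.inj e
      have a := h j hj j' hj' e1
      have b := h j' hj' j hj e1.symm
      have c : (q : ℤ) ∣ j - j' := Int.dvd_of_emod_eq_zero (Int.emod_eq_emod_iff_emod_sub_eq_zero.mp e2)
      have d := Int.eq_zero_of_abs_lt_dvd c (abs_lt.mpr ⟨by omega, by omega⟩)
      omega
  simpa using this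

variable {α : Type} [MetricSpace α] [Fintype α]

noncomputable def ball (v : α) (R : ℝ) : Finset α := univ.filter fun x => dist v x ≤ R

/-- The ball of radius `2 ^ j` holds more than half of the ball of radius `2 ^ (j + q)`. -/
def Heavy (q : ℕ) (j : ℤ) (v : α) : Prop :=
  (ball v (2 ^ (j + q))).card < 2 * (ball v (2 ^ j)).card

theorem ball_subset {v v' : α} {R R' : ℝ} (h : dist v' v + R ≤ R') : ball v R ⊆ ball v' R' := by
  intro x hx
  simp only [ball, mem_filter, mem_univ, true_and] at hx ⊢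
  linarith [dist_triangle v' v x]

theorem Heavy.close {q : ℕ} {j : ℤ} {v v' : α} (h : Heavy q j v) (h' : Heavy q j v')
    (hd : dist v v' + 2 ^ j ≤ 2 ^ (j + q)) : dist v v' ≤ 2 * 2 ^ j := by
  have key : ∀ v v' : α, Heavy q j v → Heavy q j v' → dist v v' + 2 ^ j ≤ 2 ^ (j + q) →
      (ball v (2 ^ (j + q))).card ≤ (ball v' (2 ^ (j + q))).card → dist v v' ≤ 2 * 2 ^ j := by
    intro v v' h h' hd hle
    have s1 : ball v (2 ^ j) ⊆ ball v (2 ^ (j + q)) :=
      ball_subset (by rw [dist_self]; linarith [dist_nonneg (x := v) (y := v')])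
    have s2 : ball v' (2 ^ j) ⊆ ball v (2 ^ (j + q)) := ball_subset hd
    by_contra hn
    have hdis : Disjoint (ball v (2 ^ j)) (ball v' (2 ^ j)) := by
      rw [disjoint_left]
      intro x hx hx'
      simp only [ball, mem_filter, mem_univ, true_and] at hx hx'
      have := dist_triangle v x v'
      rw [dist_comm x v'] at this
      exact hn (by linarith)
    have := card_le_card (union_subset s1 s2)
    rw [card_union_of_disjoint hdis] at this
    unfold Heavy at h h'
    omega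
  rcases le_total (ball v (2 ^ (j + q))).card (ball v' (2 ^ (j + q))).card with hle | hle
  · exact key v v' h h' hd hle
  · rw [dist_comm] at hd ⊢
    exact key v' v h' h hd hle

theorem few_light (k q : ℕ) (hk : Fintype.card α < 2 ^ k) (hq : 0 < q) (S : Finset ℤ) (v : α) :
    (S.filter fun j => ¬ Heavy q j v).card ≤ k * q := by
  have hpos : ∀ j : ℤ, (ball v (2 ^ j)).card ≠ 0 := fun j =>
    (card_pos.mpr ⟨v, mem_filter.mpr ⟨mem_univ _, by rw [dist_self]; positivity⟩⟩).ne'
  refine card_le_of_close _ (fun j => Nat.log 2 (ball v (2 ^ j)).card) k q hq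
    (fun j _ => Nat.log_lt_of_lt_pow (hpos j) ((card_le_univ _).trans_lt hk)) fun j hj j' _ e => ?_
  by_contra hn
  have a : 2 * (ball v (2 ^ j)).card ≤ (ball v (2 ^ (j + q))).card := not_lt.mp (mem_filter.mp hj).2
  have b : (ball v (2 ^ (j + q))).card ≤ (ball v (2 ^ j')).card := card_le_card (ball_subset (by
    rw [dist_self, zero_add]; exact zpow_le_zpow_right₀ one_le_two (not_lt.mp hn)))
  have c := Nat.log_mono_right (b := 2) (a.trans b)
  rw [mul_comm, Nat.log_mul_base one_lt_two (hpos j)] at c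
  omega

theorem all_scales (hC : Chain α) (k E l Λ T q : ℕ) (hk : Fintype.card α < 2 ^ k) (hE : 0 < E)
    (hl : 8 + 448 * E ≤ l) (hΛ : 4 ≤ Λ) (hT : (4 * k + 1) * (2 * k + 1) ^ 8 * E ≤ 2 ^ T)
    (hΛ' : 2 * (4 * k + 1) * E * T * (3 * ((2 * k + 1) ^ 2 * (l * (4 * l + 1)))) ≤ Λ)
    (hq : 2 * (4 * k + 1) * E + 5 ≤ q) :
    ∃ H : Finset (α × α), (∀ x, load H x ≤ k * ((k + 1) * k) +
        k * q * (2 * k * (T * (2 * ((2 * k + 1) ^ 2 * (2 * k + 2 * Λ ^ 4)))))) ∧
      ∀ s t, Reach H (2 * (4 * k + 1) * E * (hops (8 * k + 1) l T + 1)) ((1 + 19 / E) * dist s t)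
        s t := by
  obtain ⟨H₀, b1, b2⟩ := base hC k hk
  have h₀ : ∀ u v, Reach H₀ (8 * k + 1) ((4 * k + 1 : ℕ) * dist u v) u v := fun u v =>
    (b2 u v).mono Subset.rfl (by omega) (by push_cast; exact le_rfl)
  set P : ℤ → Finset (α × α) := fun j => univ.filter fun p => dist p.1 p.2 < 2 ^ j ∧
    ∀ v, dist p.1 v ≤ 2 * 2 ^ j → ¬ Heavy q j v with hP
  have hcard : ∀ j, (P j).card < 2 ^ (2 * k) := fun j => by
    refine (card_le_univ _).trans_lt ?_
    rw [Fintype.card_prod, two_mul, pow_add]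
    exact Nat.mul_lt_mul'' hk hk
  choose H h1 h2 h3 using fun j : ℤ => scale hC k hk.le (2 * k) (W := 2 ^ j) (by positivity)
    E l Λ T (4 * k + 1) hE hl hΛ H₀ h₀ hT hΛ' (2 * k) (P j) (hcard j).le
    (fun p hp => (mem_filter.mp hp).2.1) (hcard j)
  set κ : ℕ := 4 * k + 1 with hκ
  have hκr : (0 : ℝ) < κ := by positivity
  have hEr : (0 : ℝ) < E := by exact_mod_cast hE
  have hsc : ∀ p : α × α, ∃ j : ℤ, p.1 ≠ p.2 →
      κ * E * 2 ^ j ≤ dist p.1 p.2 ∧ dist p.1 p.2 < 2 * κ * E * 2 ^ j := by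
    intro p
    by_cases h : p.1 = p.2
    · exact ⟨0, fun h' => absurd h h'⟩
    obtain ⟨j, j1, j2⟩ := exists_mem_Ico_zpow (x := dist p.1 p.2 / (κ * E)) (y := 2)
      (div_pos (dist_pos.mpr h) (by positivity)) one_lt_two
    rw [le_div_iff₀ (by positivity)] at j1
    rw [div_lt_iff₀ (by positivity), zpow_add_one₀ two_ne_zero] at j2
    exact ⟨j, fun _ => ⟨by linarith, by linarith⟩⟩
  choose sc hsc using hsc
  refine ⟨H₀ ∪ (univ.image sc).biUnion H, fun x => ?_, fun s t => ?_⟩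
  · refine (load_union _ _ _).trans (Nat.add_le_add (b1 x) ?_)
    refine (load_biUnion_le _ ((univ.image sc).filter fun j => ¬ Heavy q j x) H x _
      (fun j _ => h1 j x) fun j hj hj' e he hx => hj' (mem_filter.mpr ⟨hj, ?_⟩)).trans
      (Nat.mul_le_mul_right _ (few_light k q hk (by omega) _ x))
    obtain ⟨p, hp, y, y1, y2⟩ := h2 j e he x hx
    obtain ⟨p1, p2⟩ := (mem_filter.mp hp).2
    refine p2 x ?_
    linarith [dist_triangle p.1 y x, Btw.le_left y1]
  by_cases hst : s = t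
  · subst hst
    exact Reach.refl _ _ _ (by simp)
  obtain ⟨d1, d2⟩ := hsc (s, t) hst
  set j := sc (s, t) with hj
  set W : ℝ := 2 ^ j with hW
  have hW0 : 0 < W := by positivity
  simp only at d1 d2
  obtain ⟨St, s1, s2⟩ : ∃ St : Finset ℕ, St.card ≤ 13 ∧ ∀ x, On (s, t) x →
      (∃ v, dist x v ≤ 2 * W ∧ Heavy q j v) → idx W (s, t) x ∈ St := by
    by_cases h : ∃ x, On (s, t) x ∧ ∃ v, dist x v ≤ 2 * W ∧ Heavy q j v
    swap
    · exact ⟨∅, by simp, fun x hx hv => absurd ⟨x, hx, hv⟩ h⟩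
    obtain ⟨x₀, x1, v₀, x2, x3⟩ := h
    obtain ⟨I, i1, i2⟩ := window hW0 3 (s, t) x₀
    refine ⟨I, i1, fun x hx ⟨v, v1, v2⟩ => i2 x ?_⟩
    have t1 := dist_triangle4 v₀ x₀ x v
    have t2 := dist_triangle4 x₀ v₀ v x
    rw [dist_comm v₀ x₀] at t1
    rw [dist_comm v x] at t2
    have t3 : dist x₀ x ≤ dist s t := by
      rcases le_total (dist s x₀) (dist s x) with h | h
      · have := x1.btw hC hx h
        have := Btw.le_left hx
        linarith [dist_nonneg (x := s) (y := x₀)]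
      · have := hx.btw hC x1 h
        have := Btw.le_left x1
        rw [dist_comm]
        linarith [dist_nonneg (x := s) (y := x)]
    have t4 : (2 * κ * E + 5 : ℝ) ≤ 2 ^ q := by
      exact_mod_cast hq.trans (Nat.lt_two_pow_self).le
    have t5 := x3.close v2 (by
      rw [zpow_add₀ two_ne_zero, zpow_natCast]
      nlinarith)
    push_cast
    linarith
  have hsub : H₀ ∪ H j ⊆ H₀ ∪ (univ.image sc).biUnion H :=
    union_subset_union Subset.rfl (subset_biUnion_of_mem H (mem_image_of_mem _ (mem_univ _)))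
  have main := Cross.extend hC (H := H₀ ∪ (univ.image sc).biUnion H) (p := (s, t)) hW0 0
    (hops (8 * k + 1) l T) (fun c => 3 * (W / E) + if c ∈ St then κ * W else 0)
    (fun c => by split_ifs <;> positivity) (Nat.zero_le (2 * κ * E))
    (Cross.of_empty _ _ fun x hx => by have := hx.2; omega) fun c _ _ x y hx hy _ _ => by
      have a := Blk.dist_lt hC hW0 hx hy
      push_cast at a
      have hc : idx W (s, t) x = c := by have := hx.2; omega
      have h3' : 0 ≤ 3 * (W / E) := by positivity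
      by_cases hxy : (x, y) ∈ P j
      · refine (h3 j _ hxy).mono hsub le_rfl ?_
        have : (0 : ℝ) ≤ if c ∈ St then κ * W else 0 := by split_ifs <;> positivity
        simp only
        linarith
      · have : c ∈ St := by
          rw [← hc]
          refine s2 x hx.1 ?_
          by_contra hn
          push Not at hn
          exact hxy (mem_filter.mpr ⟨mem_univ _, by simp only; linarith, hn⟩)
        refine (h₀ x y).mono subset_union_left (le_hops _ _ (by omega) _) ?_
        simp only [this, if_true]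
        have := mul_le_mul_of_nonneg_left (show dist x y ≤ W by linarith) hκr.le
        linarith [dist_nonneg (x := x) (y := y)]
  have hn : ∀ x, On (s, t) x → Blk W (s, t) 0 (0 + 2 * κ * E) x := fun x hx => by
    refine ⟨hx, Nat.zero_le _, ?_⟩
    unfold idx
    rw [zero_add, Nat.floor_lt (div_nonneg dist_nonneg hW0.le), div_lt_iff₀ hW0]
    push_cast
    exact (Btw.le_left hx).trans_lt d2
  refine (main s t (hn _ (btw_left _ _)) (hn _ (btw_right _ _))
    (fun z _ => by simp) fun z hz => Btw.le_left hz.1).mono Subset.rfl le_rfl ?_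
  simp only [sum_add_distrib, sum_const, card_range, nsmul_eq_mul, ← sum_filter]
  have f1 : (((range (2 * κ * E)).filter fun c => c ∈ St).card : ℝ) ≤ 13 := by
    exact_mod_cast (card_le_card fun c hc => (mem_filter.mp hc).2).trans s1
  have f2 := mul_le_mul_of_nonneg_right f1 (show 0 ≤ κ * W by positivity)
  have f3 : ((2 * κ * E : ℕ) : ℝ) * (3 * (W / E)) = 6 * (κ * W) := by push_cast; field_simp; norm_num
  have f4 : κ * W ≤ dist s t / E := by rw [le_div_iff₀ hEr]; linarith
  have f5 : (1 + 19 / E) * dist s t = dist s t + 19 * (dist s t / E) := by ring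
  linarith

/-! ### Polynomial bounds -/

def PolyB (f : ℕ → ℕ) : Prop := ∃ A B : ℕ, ∀ k, 1 ≤ k → f k ≤ A * k ^ B

theorem PolyB.const (c : ℕ) : PolyB fun _ => c := ⟨c, 0, fun k _ => by simp⟩

theorem PolyB.id : PolyB fun k => k := ⟨1, 1, fun k _ => by simp⟩

theorem PolyB.add {f g : ℕ → ℕ} (hf : PolyB f) (hg : PolyB g) : PolyB fun k => f k + g k := by
  obtain ⟨A, B, h⟩ := hf
  obtain ⟨A', B', h'⟩ := hg
  refine ⟨A + A', B + B', fun k hk => ?_⟩
  have a := Nat.mul_le_mul_left A (Nat.pow_le_pow_right hk (Nat.le_add_right B B'))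
  have b := Nat.mul_le_mul_left A' (Nat.pow_le_pow_right hk (Nat.le_add_left B' B))
  have := h k hk
  have := h' k hk
  rw [add_mul]
  beta_reduce
  omega

theorem PolyB.mul {f g : ℕ → ℕ} (hf : PolyB f) (hg : PolyB g) : PolyB fun k => f k * g k := by
  obtain ⟨A, B, h⟩ := hf
  obtain ⟨A', B', h'⟩ := hg
  refine ⟨A * A', B + B', fun k hk => (Nat.mul_le_mul (h k hk) (h' k hk)).trans (le_of_eq ?_)⟩
  ring

theorem PolyB.pow {f : ℕ → ℕ} (hf : PolyB f) (m : ℕ) : PolyB fun k => f k ^ m := by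
  obtain ⟨A, B, h⟩ := hf
  refine ⟨A ^ m, B * m, fun k hk => (Nat.pow_le_pow_left (h k hk) m).trans (le_of_eq ?_)⟩
  rw [mul_pow, pow_mul]

theorem PolyB.mono {f g : ℕ → ℕ} (hg : PolyB g) (h : ∀ k, 1 ≤ k → f k ≤ g k) : PolyB f := by
  obtain ⟨A, B, h'⟩ := hg
  exact ⟨A, B, fun k hk => (h k hk).trans (h' k hk)⟩

theorem hops_le (b l : ℕ) (hl : 2 ≤ l) (r : ℕ) : hops b l r + 2 ≤ (2 ^ r) ^ l * (b + 2) := by
  have : hops b l r + 2 ≤ l ^ r * (b + 2) := by
    induction r with
    | zero => simp [hops]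
    | succ r ih =>
      have := Nat.mul_le_mul_left l ih
      simp only [hops]
      rw [pow_succ]
      linarith only [hl, this]
  refine this.trans (Nat.mul_le_mul_right _ ?_)
  rw [← pow_mul, mul_comm, pow_mul]
  exact Nat.pow_le_pow_left Nat.lt_two_pow_self.le _

theorem two_pow_clog_le (x : ℕ) (hx : 1 ≤ x) : 2 ^ Nat.clog 2 x ≤ 2 * x := by
  rcases hx.eq_or_lt with rfl | hx
  · simp
  have a := Nat.pow_pred_clog_lt_self one_lt_two hx
  have b := Nat.clog_pos one_lt_two hx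
  have c : 2 ^ Nat.clog 2 x = 2 * 2 ^ (Nat.clog 2 x).pred := by
    rw [← pow_succ']; congr 1; simp only [Nat.pred_eq_sub_one]; omega
  omega

theorem poly_main (E : ℕ) (hE : 0 < E) : ∃ A B : ℕ, ∀ (α : Type) [MetricSpace α] [Fintype α],
    Chain α → ∀ k, 1 ≤ k → Fintype.card α < 2 ^ k → ∃ H : Finset (α × α),
      (∀ x, load H x ≤ A * k ^ B) ∧ ∀ s t, Reach H (A * k ^ B) ((1 + 19 / E) * dist s t) s t := by
  set l := 8 + 448 * E with hl
  set X : ℕ → ℕ := fun k => (4 * k + 1) * (2 * k + 1) ^ 8 * E with hX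
  set T : ℕ → ℕ := fun k => Nat.clog 2 (X k) with hT
  set Λ : ℕ → ℕ := fun k =>
    2 * (4 * k + 1) * E * T k * (3 * ((2 * k + 1) ^ 2 * (l * (4 * l + 1)))) + 4 with hΛ
  set q : ℕ → ℕ := fun k => 2 * (4 * k + 1) * E + 5 with hq
  have lin : ∀ a b : ℕ, PolyB fun k => a * k + b := fun a b =>
    ((PolyB.const a).mul PolyB.id).add (PolyB.const b)
  have pX : PolyB X := ((lin 4 1).mul ((lin 2 1).pow 8)).mul (PolyB.const E)
  have p2T : PolyB fun k => 2 ^ T k := ((PolyB.const 2).mul pX).mono fun k _ =>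
    two_pow_clog_le _ (by simp only [hX]; exact Nat.succ_le_of_lt (by positivity))
  have pT : PolyB T := p2T.mono fun k _ => Nat.lt_two_pow_self.le
  have pκ : PolyB fun k => 2 * (4 * k + 1) * E := ((PolyB.const 2).mul (lin 4 1)).mul (PolyB.const E)
  have pΛ : PolyB Λ := ((pκ.mul pT).mul ((PolyB.const 3).mul (((lin 2 1).pow 2).mul
    (PolyB.const _)))).add (PolyB.const 4)
  have pq : PolyB q := pκ.add (PolyB.const 5)
  have p1 : PolyB fun k => k * ((k + 1) * k) +
      k * q k * (2 * k * (T k * (2 * ((2 * k + 1) ^ 2 * (2 * k + 2 * Λ k ^ 4))))) :=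
    (PolyB.id.mul ((PolyB.id.add (PolyB.const 1)).mul PolyB.id)).add ((PolyB.id.mul pq).mul
      (((PolyB.const 2).mul PolyB.id).mul (pT.mul ((PolyB.const 2).mul (((lin 2 1).pow 2).mul
        (((PolyB.const 2).mul PolyB.id).add ((PolyB.const 2).mul (pΛ.pow 4))))))))
  have p2 : PolyB fun k => 2 * (4 * k + 1) * E * (hops (8 * k + 1) l (T k) + 1) :=
    pκ.mul (((p2T.pow l).mul ((lin 8 1).add (PolyB.const 2))).mono fun k _ =>
      (Nat.le_succ _).trans (hops_le _ _ (by omega) _))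
  obtain ⟨A, B, h⟩ := p1.add p2
  refine ⟨A, B, fun α _ _ hC k hk hk' => ?_⟩
  obtain ⟨H, h1, h2⟩ := all_scales hC k E l (Λ k) (T k) (q k) hk' hE le_rfl (Nat.le_add_left _ _)
    (Nat.le_pow_clog one_lt_two _) (Nat.le_add_right _ _) le_rfl
  have := h k hk
  exact ⟨H, fun x => (h1 x).trans ((Nat.le_add_right _ _).trans this),
    fun s t => (h2 s t).mono Subset.rfl ((Nat.le_add_left _ _).trans this) le_rfl⟩

end Pool.Agent.Work.MP_149e94_lc
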