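import Pool.Agent.Work.MP_149e94_lc.Jump

/-!
Nodes of the subdivision of a geodesic, and the potential.
-/

namespace Pool.Agent.Work.MP_149e94_lc

open Finset
open scoped Classical

variable {α : Type} [MetricSpace α]

/-- The piece of index `i` and length `L` of the geodesic of `p`. -/
def Nd (L : ℝ) (p : α × α) (i : ℕ) (x : α) : Prop := Blk L p i (i + 1) x

/-- The piece is nonempty. -/
def NE (L : ℝ) (p : α × α) (i : ℕ) : Prop := ∃ x, Nd L p i x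

/-- The geodesic of `q` comes within `2 L` of the piece. -/
def NMeets (L : ℝ) (p : α × α) (i : ℕ) (q : α × α) : Prop := ∃ x, Nd L p i x ∧ Meets q x (2 * L)

noncomputable def massN (P : Finset (α × α)) (L : ℝ) (p : α × α) (i : ℕ) : ℕ :=
  (P.filter fun q => NMeets L p i q).card

noncomputable def traf (P : Finset (α × α)) (x : α) : ℕ := (P.filter fun q => On q x).card

noncomputable def gmin (P : Finset (α × α)) (L : ℝ) (p : α × α) (i : ℕ) : ℕ :=
  sInf {n | ∃ x, Nd L p i x ∧ traf P x = n}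

noncomputable def mE (P : Finset (α × α)) (L : ℝ) (p : α × α) (i : ℕ) : ℕ :=
  Nat.clog 2 (massN P L p i)

noncomputable def gE (P : Finset (α × α)) (L : ℝ) (p : α × α) (i : ℕ) : ℕ :=
  Nat.log 2 (gmin P L p i)

noncomputable def Psi (P : Finset (α × α)) (L : ℝ) (p : α × α) (i : ℕ) : ℝ :=
  if NE L p i then ((mE P L p i - gE P L p i : ℕ) + 1 : ℝ) ^ 8 else 0

theorem nd_iff {L : ℝ} {p : α × α} {i : ℕ} {x : α} : Nd L p i x ↔ On p x ∧ idx L p x = i := by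
  unfold Nd Blk
  constructor
  · rintro ⟨a, b, c⟩; exact ⟨a, by omega⟩
  · rintro ⟨a, b⟩; exact ⟨a, by omega, by omega⟩

theorem nd_parent {ρ : ℝ} {l : ℕ} (hl : 0 < l) {p : α × α} {i : ℕ} {x : α} :
    Nd (ρ * l) p i x ↔ Blk ρ p (l * i) (l * i + l) x := by
  rw [nd_iff, idx_div]
  unfold Blk
  rw [Nat.div_eq_iff hl]
  constructor
  · rintro ⟨a, b, c⟩; exact ⟨a, by rw [mul_comm]; exact b, by rw [mul_comm]; omega⟩
  · rintro ⟨a, b, c⟩; exact ⟨a, by rw [mul_comm]; exact b, by rw [mul_comm]; omega⟩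

theorem Blk.parent {ρ : ℝ} {l : ℕ} (hl : 0 < l) {p : α × α} {i A B : ℕ} {x : α} (hB : B ≤ l)
    (h : Blk ρ p (l * i + A) (l * i + B) x) : Nd (ρ * l) p i x :=
  (nd_parent hl).mpr ⟨h.1, by have := h.2.1; omega, by have := h.2.2; omega⟩

theorem Nd.parent {ρ : ℝ} {l : ℕ} {p : α × α} {i c : ℕ} {x : α} (hc : c < l)
    (h : Nd ρ p (l * i + c) x) : Nd (ρ * l) p i x :=
  Blk.parent (A := c) (B := c + 1) (by omega) hc h

theorem Meets.mono {q : α × α} {x x' : α} {R R' : ℝ} (h : Meets q x R) (h' : dist x' x + R ≤ R') :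
    Meets q x' R' := by
  obtain ⟨y, hy, hy'⟩ := h
  exact ⟨y, hy, by linarith [dist_triangle x' x y]⟩

theorem Nd.mass_le {P : Finset (α × α)} {L : ℝ} {p : α × α} {i : ℕ} {x : α} (h : Nd L p i x) :
    mass P x (2 * L) ≤ massN P L p i :=
  card_le_card fun _ hq => mem_filter.mpr ⟨(mem_filter.mp hq).1, x, h, (mem_filter.mp hq).2⟩

theorem Nd.le_mass (hC : Chain α) {P : Finset (α × α)} {L : ℝ} (hL : 0 < L) {p : α × α} {i : ℕ}
    {x : α} (h : Nd L p i x) : massN P L p i ≤ mass P x (3 * L) := by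
  refine card_le_card fun q hq => ?_
  obtain ⟨h1, y, h2, h3⟩ := mem_filter.mp hq
  have := Blk.dist_lt hC hL h h2
  push_cast at this
  exact mem_filter.mpr ⟨h1, h3.mono (by linarith)⟩

theorem massN_child {P : Finset (α × α)} {ρ : ℝ} (hρ : 0 < ρ) {l : ℕ} {p : α × α} {i c : ℕ}
    (hc : c < l) : massN P ρ p (l * i + c) ≤ massN P (ρ * l) p i := by
  refine card_le_card fun q hq => ?_
  obtain ⟨h1, y, h2, h3⟩ := mem_filter.mp hq
  have : (1 : ℝ) ≤ l := by exact_mod_cast (show 1 ≤ l by omega)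
  exact mem_filter.mpr ⟨h1, y, h2.parent hc, h3.mono (by rw [dist_self]; nlinarith)⟩

theorem ne_of_massN {P : Finset (α × α)} {L : ℝ} {p : α × α} {i : ℕ} (h : 0 < massN P L p i) :
    NE L p i := by
  obtain ⟨q, hq⟩ := card_pos.mp h
  obtain ⟨-, y, h2, -⟩ := mem_filter.mp hq
  exact ⟨y, h2⟩

theorem Nd.gmin_le {P : Finset (α × α)} {L : ℝ} {p : α × α} {i : ℕ} {x : α} (h : Nd L p i x) :
    gmin P L p i ≤ traf P x := Nat.sInf_le ⟨x, h, rfl⟩

theorem NE.exists_gmin (P : Finset (α × α)) {L : ℝ} {p : α × α} {i : ℕ} (h : NE L p i) :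
    ∃ x, Nd L p i x ∧ traf P x = gmin P L p i := by
  obtain ⟨x, hx⟩ := h
  exact Nat.sInf_mem (s := {n | ∃ x, Nd L p i x ∧ traf P x = n}) ⟨_, x, hx, rfl⟩

theorem NE.gmin_le_massN (P : Finset (α × α)) {L : ℝ} (hL : 0 < L) {p : α × α} {i : ℕ}
    (h : NE L p i) : gmin P L p i ≤ massN P L p i := by
  obtain ⟨x, hx, e⟩ := h.exists_gmin P
  rw [← e]
  refine card_le_card fun q hq => ?_
  obtain ⟨h1, h2⟩ := mem_filter.mp hq
  exact mem_filter.mpr ⟨h1, x, hx, x, h2, by rw [dist_self]; positivity⟩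

theorem NE.gmin_pos {P : Finset (α × α)} {L : ℝ} {p : α × α} {i : ℕ} (hp : p ∈ P)
    (h : NE L p i) : 0 < gmin P L p i := by
  obtain ⟨x, hx, e⟩ := h.exists_gmin P
  rw [← e]
  exact card_pos.mpr ⟨p, mem_filter.mpr ⟨hp, hx.1⟩⟩

theorem NE.gE_le_mE (P : Finset (α × α)) {L : ℝ} (hL : 0 < L) {p : α × α} {i : ℕ}
    (h : NE L p i) : gE P L p i ≤ mE P L p i :=
  (Nat.log_mono_right (h.gmin_le_massN P hL)).trans (Nat.log_le_clog _ _)

theorem mE_le {P : Finset (α × α)} {k : ℕ} (hP : P.card ≤ 2 ^ k) (L : ℝ) (p : α × α) (i : ℕ) :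
    mE P L p i ≤ k :=
  Nat.clog_le_of_le_pow ((card_filter_le _ _).trans hP)

theorem massN_le_pow (P : Finset (α × α)) (L : ℝ) (p : α × α) (i : ℕ) :
    massN P L p i ≤ 2 ^ mE P L p i := Nat.le_pow_clog one_lt_two _

theorem NE.parent {ρ : ℝ} {l : ℕ} {p : α × α} {i c : ℕ} (hc : c < l) (h : NE ρ p (l * i + c)) :
    NE (ρ * l) p i := by
  obtain ⟨x, hx⟩ := h
  exact ⟨x, hx.parent hc⟩

theorem mE_child {P : Finset (α × α)} {ρ : ℝ} (hρ : 0 < ρ) {l : ℕ} {p : α × α} {i c : ℕ}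
    (hc : c < l) : mE P ρ p (l * i + c) ≤ mE P (ρ * l) p i :=
  Nat.clog_mono_right _ (massN_child hρ hc)

theorem gE_child {P : Finset (α × α)} {ρ : ℝ} {l : ℕ} {p : α × α} {i c : ℕ}
    (hc : c < l) (h : NE ρ p (l * i + c)) : gE P (ρ * l) p i ≤ gE P ρ p (l * i + c) := by
  obtain ⟨x, hx, e⟩ := h.exists_gmin P
  exact Nat.log_mono_right (e ▸ (hx.parent hc).gmin_le)

theorem Psi_nonneg (P : Finset (α × α)) (L : ℝ) (p : α × α) (i : ℕ) : 0 ≤ Psi P L p i := by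
  unfold Psi; split_ifs <;> positivity

theorem Psi_of_not {P : Finset (α × α)} {L : ℝ} {p : α × α} {i : ℕ} (h : ¬ NE L p i) :
    Psi P L p i = 0 := if_neg h

theorem one_le_Psi {P : Finset (α × α)} {L : ℝ} {p : α × α} {i : ℕ} (h : NE L p i) :
    1 ≤ Psi P L p i := by
  unfold Psi
  rw [if_pos h]
  exact one_le_pow₀ (by linarith [Nat.cast_nonneg (α := ℝ) (mE P L p i - gE P L p i)])

theorem Psi_le {P : Finset (α × α)} {k : ℕ} (hP : P.card ≤ 2 ^ k) (L : ℝ) (p : α × α) (i : ℕ) :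
    Psi P L p i ≤ (k + 1) ^ 8 := by
  unfold Psi
  split_ifs
  · have : ((mE P L p i - gE P L p i : ℕ) : ℝ) ≤ k := by
      exact_mod_cast (Nat.sub_le _ _).trans (mE_le hP L p i)
    exact pow_le_pow_left₀ (by positivity) (by linarith) _
  · positivity

theorem Psi_child {P : Finset (α × α)} {ρ : ℝ} (hρ : 0 < ρ) {l : ℕ} {p : α × α} {i c : ℕ}
    (hc : c < l) : Psi P ρ p (l * i + c) ≤ Psi P (ρ * l) p i := by
  by_cases h : NE ρ p (l * i + c)
  swap
  · rw [Psi_of_not h]; exact Psi_nonneg _ _ _ _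
  unfold Psi
  rw [if_pos h, if_pos (h.parent hc)]
  have a := mE_child (P := P) (p := p) (i := i) hρ hc
  have b := gE_child (P := P) hc h
  have : ((mE P ρ p (l * i + c) - gE P ρ p (l * i + c) : ℕ) : ℝ) ≤
      (mE P (ρ * l) p i - gE P (ρ * l) p i : ℕ) := by exact_mod_cast (by omega)
  exact pow_le_pow_left₀ (by positivity) (by linarith) _

theorem Psi_drop {P : Finset (α × α)} {ρ : ℝ} {l : ℕ} {p : α × α} {i c : ℕ}
    (hc : c < l) (hu : NE ρ p (l * i + c) → 6 * (mE P ρ p (l * i + c) - gE P ρ p (l * i + c)) + 1 ≤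
      5 * (mE P (ρ * l) p i - gE P (ρ * l) p i)) :
    4 * Psi P ρ p (l * i + c) ≤ Psi P (ρ * l) p i := by
  by_cases h : NE ρ p (l * i + c)
  swap
  · rw [Psi_of_not h, mul_zero]; exact Psi_nonneg _ _ _ _
  unfold Psi
  rw [if_pos h, if_pos (h.parent hc)]
  have a := hu h
  generalize mE P ρ p (l * i + c) - gE P ρ p (l * i + c) = u at a ⊢
  generalize mE P (ρ * l) p i - gE P (ρ * l) p i = v at a ⊢
  have b : (6 * u + 1 : ℝ) ≤ 5 * v := by exact_mod_cast a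
  have c : ((u : ℝ) + 1) ^ 8 ≤ (5 / 6 * (v + 1)) ^ 8 :=
    pow_le_pow_left₀ (by positivity) (by linarith) _
  rw [mul_pow] at c
  have d : (0 : ℝ) ≤ ((v : ℝ) + 1) ^ 8 := by positivity
  nlinarith

/-- The level above which a piece counts as a hub piece. -/
def FF (Λ m g : ℕ) : ℕ := 2 ^ (m - (m - g) / 3) * Λ

/-- The typical number of geodesics through two hubs. -/
def nn (Λ m g : ℕ) : ℕ := 2 ^ (m - 2 * ((m - g) / 3)) * Λ

/-- The mass above which a piece counts as dense. -/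
noncomputable def tt (Λ m g : ℕ) : ℝ := 2 ^ (m - (m - g) / 6) / Λ

theorem FF_pos {Λ : ℕ} (hΛ : 0 < Λ) (m g : ℕ) : 0 < FF Λ m g := by unfold FF; positivity

theorem tt_pos {Λ : ℕ} (hΛ : 0 < Λ) (m g : ℕ) : 0 < tt Λ m g := by unfold tt; positivity

theorem nn_le (Λ m g : ℕ) : nn Λ m g * 2 ^ m * Λ ≤ FF Λ m g ^ 2 := by
  unfold nn FF
  apply le_of_eq
  have : m - 2 * ((m - g) / 3) + m = (m - (m - g) / 3) * 2 := by omega
  rw [mul_pow, ← pow_mul, ← this, pow_add]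
  ring

theorem FF_le {Λ : ℕ} (hΛ : 0 < Λ) (m g : ℕ) :
    (FF Λ m g : ℝ) * (2 ^ m : ℕ) ≤ tt Λ m g ^ 2 * Λ ^ 3 := by
  unfold FF tt
  have hΛ' : (0 : ℝ) < Λ := by exact_mod_cast hΛ
  have e : ((2 : ℝ) ^ (m - (m - g) / 6) / Λ) ^ 2 * Λ ^ 3 = 2 ^ ((m - (m - g) / 6) * 2) * Λ := by
    rw [pow_mul]; field_simp
  have : (2 : ℝ) ^ (m - (m - g) / 3 + m) ≤ 2 ^ ((m - (m - g) / 6) * 2) :=
    pow_le_pow_right₀ one_le_two (by omega)
  rw [e]
  push_cast
  rw [pow_add] at this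
  nlinarith

theorem drop_sparse {P : Finset (α × α)} {ρ : ℝ} (hρ : 0 < ρ) {l Λ : ℕ} (hΛ : 4 ≤ Λ) {p : α × α}
    (hp : p ∈ P) {i c : ℕ} (hc : c < l)
    (h : (massN P ρ p (l * i + c) : ℝ) < tt Λ (mE P (ρ * l) p i) (gE P (ρ * l) p i)) :
    4 * Psi P ρ p (l * i + c) ≤ Psi P (ρ * l) p i := by
  refine Psi_drop hc fun hne => ?_
  have a := gE_child (P := P) hc hne
  have b := hne.gE_le_mE P hρ
  have c1 := (hne.gmin_pos hp).trans_le (hne.gmin_le_massN P hρ)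
  unfold tt at h
  rw [lt_div_iff₀ (by positivity)] at h
  have h' : massN P ρ p (l * i + c) * Λ <
      2 ^ (mE P (ρ * l) p i - (mE P (ρ * l) p i - gE P (ρ * l) p i) / 6) := by exact_mod_cast h
  set r := mE P (ρ * l) p i - (mE P (ρ * l) p i - gE P (ρ * l) p i) / 6 with hr
  have h2 : massN P ρ p (l * i + c) * 4 < 2 ^ r := (Nat.mul_le_mul_left _ hΛ).trans_lt h'
  have h3 : 2 < r := by
    by_contra hn
    have : 2 ^ r ≤ 2 ^ 2 := Nat.pow_le_pow_right two_pos (by omega)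
    omega
  have h4 : mE P ρ p (l * i + c) ≤ r - 2 := by
    apply Nat.clog_le_of_le_pow
    have : 2 ^ r = 2 ^ (r - 2) * 4 := by
      rw [show 4 = 2 ^ 2 by norm_num, ← pow_add]; congr 1; omega
    omega
  omega

theorem drop_inside {P : Finset (α × α)} {ρ : ℝ} (hρ : 0 < ρ) {l Λ : ℕ} (hΛ : 4 ≤ Λ) {p : α × α}
    {i c : ℕ} (hc : c < l) (h : ∀ x, Nd ρ p (l * i + c) x →
      nn Λ (mE P (ρ * l) p i) (gE P (ρ * l) p i) ≤ traf P x) :
    4 * Psi P ρ p (l * i + c) ≤ Psi P (ρ * l) p i := by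
  refine Psi_drop hc fun hne => ?_
  have a := mE_child (P := P) (p := p) (i := i) hρ hc
  have b := hne.gE_le_mE P hρ
  obtain ⟨x, hx, e⟩ := hne.exists_gmin P
  have h1 := h x hx
  rw [e] at h1
  unfold nn at h1
  have h2 : mE P (ρ * l) p i - 2 * ((mE P (ρ * l) p i - gE P (ρ * l) p i) / 3) + 1 ≤
      gE P ρ p (l * i + c) := by
    apply Nat.le_log_of_pow_le one_lt_two
    rw [pow_succ]
    exact (Nat.mul_le_mul_left _ (by omega)).trans h1
  omega

theorem exists_span (R : ℕ → Prop) {lo hi : ℕ} (h : lo ≤ hi) : ∃ a b, lo ≤ a ∧ a ≤ b ∧ b ≤ hi ∧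
    (∀ c, lo ≤ c → c < hi → (c < a ∨ b ≤ c) → ¬ R c) ∧ (a < b → R a ∧ R (b - 1)) := by
  rcases ((Ico lo hi).filter R).eq_empty_or_nonempty with he | hne
  · refine ⟨hi, hi, h, le_rfl, le_rfl, fun c h1 h2 _ hc => ?_, fun h => absurd h (lt_irrefl _)⟩
    have : c ∈ (Ico lo hi).filter R := mem_filter.mpr ⟨mem_Ico.mpr ⟨h1, h2⟩, hc⟩
    rw [he] at this
    exact absurd this (notMem_empty _)
  · have a := mem_filter.mp (min'_mem _ hne)
    have b := mem_filter.mp (max'_mem _ hne)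
    rw [mem_Ico] at a b
    refine ⟨min' _ hne, max' _ hne + 1, a.1.1, (min'_le_max' _ hne).trans (Nat.le_succ _), b.1.2,
      fun c h1 h2 h3 hc => ?_, fun _ => ⟨a.2, b.2⟩⟩
    have m : c ∈ (Ico lo hi).filter R := mem_filter.mpr ⟨mem_Ico.mpr ⟨h1, h2⟩, hc⟩
    have := min'_le _ c m
    have := le_max' _ c m
    omega

end Pool.Agent.Work.MP_149e94_lc
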