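import Pool.Agent.Work.MP_149e94_lc.Level

/-!
The recursion over the levels, one round serving half of the pairs, and all rounds at one scale.
-/

namespace Pool.Agent.Work.MP_149e94_lc

open Finset
open scoped Classical

/-- The hop bound after `r` levels. -/
def hops (b l : ℕ) : ℕ → ℕ
  | 0 => b
  | r + 1 => l * (hops b l r + 1)

theorem le_hops (b l : ℕ) (hl : 0 < l) (r : ℕ) : b ≤ hops b l r := by
  induction r with
  | zero => exact le_rfl
  | succ r ih =>
    have := Nat.mul_le_mul_right (hops b l r + 1) hl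
    simp only [hops]
    omega

theorem sum_range_mul' (f : ℕ → ℝ) (l n : ℕ) :
    ∑ i ∈ range n, ∑ c ∈ range l, f (l * i + c) = ∑ i ∈ range (l * n), f i := by
  induction n with
  | zero => simp
  | succ n ih => rw [sum_range_succ, ih, Nat.mul_succ, sum_range_add]

variable {α : Type} [MetricSpace α]

theorem Near.mono {P P' H : Finset (α × α)} {r r' : ℝ} (h : Near P H r) (hP : P ⊆ P')
    (hr : r ≤ r') : Near P' H r' := fun e he x hx => by
  obtain ⟨q, hq, y, hy, hy'⟩ := h e he x hx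
  exact ⟨q, hP hq, y, hy, hy'.trans hr⟩

theorem Near.union {P H H' : Finset (α × α)} {r : ℝ} (h : Near P H r) (h' : Near P H' r) :
    Near P (H ∪ H') r := fun e he => (mem_union.mp he).elim (h e) (h' e)

variable [Fintype α]

theorem levels (hC : Chain α) (k : ℕ) (hk : Fintype.card α ≤ 2 ^ k) (P : Finset (α × α))
    (k' : ℕ) (hP : P.card ≤ 2 ^ k') {W : ℝ} (hW : 0 < W) (hPW : ∀ p ∈ P, dist p.1 p.2 < W)
    (E l Λ : ℕ) (hE : 0 < E) (hl : 8 + 448 * E ≤ l) (hΛ : 4 ≤ Λ) (H₀ : Finset (α × α)) {κ : ℝ}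
    (hκ : 0 ≤ κ) (h₀ : ∀ u v, Reach H₀ (8 * k + 1) (κ * dist u v) u v) (r : ℕ) :
    ∀ j : ℕ, ∃ (H : Finset (α × α)) (FS : α × α → ℕ → ℝ), (∀ p i, 0 ≤ FS p i) ∧
      (∑ p ∈ P, ∑ i ∈ range (l ^ j), FS p i) * Λ ≤
        r * (3 * ((k' + 1) ^ 2 * (P.card * l * (4 * l + 1))) * W) ∧
      (∀ x, load H x ≤ r * (2 * ((k' + 1) ^ 2 * (2 * k + 2 * Λ ^ 4)))) ∧ Near P H W ∧
      ∀ p ∈ P, ∀ i, Cross (H₀ ∪ H) p (Nd (W / l ^ j) p i) (hops (8 * k + 1) l r)
        (W / l ^ j / E + κ * FS p i + κ * (W / l ^ j) * (1 / 2) ^ r * Psi P (W / l ^ j) p i) := by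
  have hl0 : 0 < l := by omega
  have hlr : (0 : ℝ) < l := by exact_mod_cast hl0
  have hEr : (0 : ℝ) < E := by exact_mod_cast hE
  have hbase : ∀ (H : Finset (α × α)) (L : ℝ), 0 < L → ∀ p i r,
      Cross (H₀ ∪ H) p (Nd L p i) (hops (8 * k + 1) l r) (κ * L) := by
    intro H L hL p i r x y hx hy _ _
    have := Blk.dist_lt hC hL hx hy
    push_cast at this
    refine (h₀ x y).mono subset_union_left (le_hops _ _ hl0 _) ?_
    have := mul_le_mul_of_nonneg_left (show dist x y ≤ L by linarith) hκ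
    linarith [dist_nonneg (x := x) (y := y)]
  induction r with
  | zero =>
    intro j
    have hL : 0 < W / l ^ j := by positivity
    refine ⟨∅, fun _ _ => 0, fun _ _ => le_rfl, by simp, fun x => by simp [load],
      fun e he => by simp at he, fun p hp i => ?_⟩
    by_cases hne : NE (W / l ^ j) p i
    · refine (hbase ∅ _ hL p i 0).mono Subset.rfl le_rfl ?_
      have a := one_le_Psi (P := P) hne
      have b := mul_le_mul_of_nonneg_left a (mul_nonneg hκ hL.le)
      have c : 0 ≤ W / l ^ j / E := by positivity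
      simp only [pow_zero, mul_one, mul_zero] at b ⊢
      linarith
    · exact Cross.of_empty _ _ fun x hx => hne ⟨x, hx⟩
  | succ r ih =>
    intro j
    obtain ⟨H', FS', i1, i2, i3, i4, i5⟩ := ih (j + 1)
    set ρ := W / l ^ (j + 1) with hρdef
    have hρ : 0 < ρ := by positivity
    have hρl : W / l ^ j = ρ * l := by rw [hρdef, pow_succ]; field_simp
    have hρW : ρ * l ≤ W := by
      rw [← hρl]
      exact div_le_self hW.le (one_le_pow₀ (by exact_mod_cast hl0))
    have hK₀ : ∀ q ∈ P, ∀ y, On q y → idx ρ q y < l ^ (j + 1) := by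
      intro q hq y hy
      unfold idx
      rw [Nat.floor_lt (div_nonneg dist_nonneg hρ.le), div_lt_iff₀ hρ, hρdef]
      push_cast
      rw [mul_div_cancel₀ _ (by positivity)]
      exact (Btw.le_left hy).trans_lt (hPW q hq)
    obtain ⟨H, Bad, a1, a2, a3, a4⟩ := level_lemma hC k hk P k' hP hρ l (l ^ (j + 1)) (56 * E) Λ
      (by omega) (by omega) hΛ hK₀
    rw [hρl]
    refine ⟨H' ∪ H, fun p i => (if (p, i) ∈ Bad then ρ * l else 0) +
      ∑ c ∈ range l, FS' p (l * i + c), fun p i => ?_, ?_, fun x => ?_, ?_, fun p hp i => ?_⟩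
    · exact add_nonneg (by split_ifs <;> positivity) (sum_nonneg fun c _ => i1 _ _)
    · simp only [sum_add_distrib, sum_range_mul', ← pow_succ']
      have b1 : ∑ p ∈ P, ∑ i ∈ range (l ^ j), (if (p, i) ∈ Bad then ρ * l else 0) ≤
          Bad.card * (ρ * l) := by
        rw [← sum_product' (f := fun p i => if (p, i) ∈ Bad then ρ * l else 0), ← sum_filter,
          sum_const, nsmul_eq_mul]
        refine mul_le_mul_of_nonneg_right ?_ (by positivity)
        exact_mod_cast card_le_card fun s hs => (mem_filter.mp hs).2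
      have b2 : (Bad.card : ℝ) * Λ ≤
          3 * ((k' + 1) ^ 2 * (P.card * l ^ (j + 1) * (4 * l + 1))) := by exact_mod_cast a1
      have b3 : (Bad.card : ℝ) * (ρ * l) * Λ ≤
          3 * ((k' + 1) ^ 2 * (P.card * l * (4 * l + 1))) * W := by
        have e : W = ρ * l ^ (j + 1) := by rw [hρdef]; field_simp
        calc (Bad.card : ℝ) * (ρ * l) * Λ = Bad.card * Λ * (ρ * l) := by ring
          _ ≤ _ := mul_le_mul_of_nonneg_right b2 (by positivity)
          _ = 3 * ((k' + 1) ^ 2 * (P.card * l * (4 * l + 1))) * (ρ * l ^ (j + 1)) := by ring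
          _ = _ := by rw [← e]
      have b4 := mul_le_mul_of_nonneg_right b1 (Nat.cast_nonneg (α := ℝ) Λ)
      push_cast
      linarith only [i2, b3, b4]
    · have := load_union H' H x
      have := i3 x
      have := a2 x
      rw [add_mul, one_mul]
      omega
    · refine i4.union (a3.mono Subset.rfl ?_)
      have : (7 : ℝ) ≤ l := by exact_mod_cast (by omega)
      linarith only [hρW, mul_le_mul_of_nonneg_left this hρ.le]
    beta_reduce
    have hΨ := Psi_nonneg P (ρ * l) p i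
    have hS : 0 ≤ ∑ c ∈ range l, FS' p (l * i + c) := sum_nonneg fun c _ => i1 _ _
    by_cases hb : (p, i) ∈ Bad
    · refine (hbase _ _ (by positivity) p i (r + 1)).mono Subset.rfl le_rfl ?_
      rw [if_pos hb, mul_add]
      have : 0 ≤ κ * (ρ * l) * (1 / 2) ^ (r + 1) * Psi P (ρ * l) p i := by positivity
      have : 0 ≤ ρ * l / E := by positivity
      have := mul_nonneg hκ hS
      linarith
    rw [if_neg hb, zero_add]
    obtain ⟨A₁, B₁, A₂, B₂, St, c1, c2, c3, c4, c5, c6, c7, c8, c9, c10⟩ := a4 p hp i hb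
    set e : ℕ → ℝ := fun c => ρ / E + κ * FS' p (l * i + c) + κ * ρ * (1 / 2) ^ r *
      (Psi P (ρ * l) p i / 4 + if c ∈ St then Psi P (ρ * l) p i else 0) with he
    have he1 : ∀ c, ρ / E ≤ e c := fun c => by
      have := mul_nonneg hκ (i1 p (l * i + c))
      have : 0 ≤ κ * ρ * (1 / 2) ^ r *
          (Psi P (ρ * l) p i / 4 + if c ∈ St then Psi P (ρ * l) p i else 0) := by
        split_ifs <;> positivity
      simp only [he]
      linarith
    have he0 : ∀ c, 0 ≤ e c := fun c => le_trans (by positivity) (he1 c)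
    have hj : ∀ A B, (A = B ∨ A + 56 * E ≤ B) →
        Cross H p (Blk ρ p (l * i + A) (l * i + B)) (8 * k + 1) (56 * ρ) →
        Cross (H₀ ∪ (H' ∪ H)) p (Blk ρ p (l * i + A) (l * i + B)) (hops (8 * k + 1) l r)
          (∑ c ∈ Ico A B, e c) := by
      intro A B h1 h2
      rcases h1 with rfl | h1
      · exact Cross.of_empty _ _ fun x hx => by have := hx.2; omega
      refine h2.mono (subset_union_right.trans subset_union_right) (le_hops _ _ hl0 _) ?_
      have := card_nsmul_le_sum (Ico A B) e (ρ / E) fun c _ => he1 c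
      refine le_trans ?_ this
      rw [Nat.card_Ico, nsmul_eq_mul]
      have : (56 * E : ℝ) ≤ (B - A : ℕ) := by exact_mod_cast (by omega)
      calc 56 * ρ = 56 * E * (ρ / E) := by field_simp
        _ ≤ _ := mul_le_mul_of_nonneg_right this (by positivity)
    have main := Cross.assemble hC hρ (l * i) (hops (8 * k + 1) l r) l e he0 c1 c2 c3 c4
      (hj _ _ c6 c8) (hj _ _ c7 c9) fun c d1 d2 d3 => by
        refine (i5 p hp (l * i + c)).mono
          (union_subset_union Subset.rfl subset_union_left) le_rfl ?_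
        simp only [he]
        refine add_le_add le_rfl (mul_le_mul_of_nonneg_left ?_ (by positivity))
        split_ifs with hc
        · linarith [Psi_child (P := P) (p := p) (i := i) hρ d1]
        · linarith [c10 c d1 d2 d3 hc]
    refine (main.congr fun x => (nd_parent hl0).symm).mono Subset.rfl le_rfl ?_
    simp only [he, sum_add_distrib, ← mul_sum, sum_const, card_range, nsmul_eq_mul, ← sum_filter]
    have f1 : (((range l).filter fun c => c ∈ St).card : ℝ) ≤ l / 4 := by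
      have : ((range l).filter fun c => c ∈ St).card ≤ St.card :=
        card_le_card fun c hc => (mem_filter.mp hc).2
      have : ((range l).filter fun c => c ∈ St).card * 4 ≤ l := by omega
      rw [le_div_iff₀ (by norm_num)]
      exact_mod_cast this
    have f2 := mul_le_mul_of_nonneg_right f1 hΨ
    have f3 := mul_le_mul_of_nonneg_left f2 (show 0 ≤ κ * ρ * (1 / 2) ^ r by positivity)
    have f4 : (l : ℝ) * (ρ / E) = ρ * l / E := by ring
    rw [pow_succ]
    linarith only [f3, f4]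

theorem round (hC : Chain α) (k : ℕ) (hk : Fintype.card α ≤ 2 ^ k) (P : Finset (α × α))
    (k' : ℕ) (hP : P.card ≤ 2 ^ k') {W : ℝ} (hW : 0 < W) (hPW : ∀ p ∈ P, dist p.1 p.2 < W)
    (E l Λ T κ : ℕ) (hE : 0 < E) (hl : 8 + 448 * E ≤ l) (hΛ : 4 ≤ Λ) (H₀ : Finset (α × α))
    (h₀ : ∀ u v, Reach H₀ (8 * k + 1) (κ * dist u v) u v) (hT : κ * (k' + 1) ^ 8 * E ≤ 2 ^ T)
    (hΛ' : 2 * κ * E * T * (3 * ((k' + 1) ^ 2 * (l * (4 * l + 1)))) ≤ Λ) :
    ∃ (H P' : Finset (α × α)), P' ⊆ P ∧ 2 * P'.card ≤ P.card ∧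
      (∀ x, load H x ≤ T * (2 * ((k' + 1) ^ 2 * (2 * k + 2 * Λ ^ 4)))) ∧ Near P H W ∧
      ∀ p ∈ P, p ∉ P' → Reach (H₀ ∪ H) (hops (8 * k + 1) l T) (dist p.1 p.2 + 3 * (W / E)) p.1 p.2 := by
  obtain ⟨H, FS, h1, h2, h3, h4, h5⟩ := levels hC k hk P k' hP hW hPW E l Λ hE hl hΛ H₀
    (Nat.cast_nonneg κ) h₀ T 0
  simp only [pow_zero, range_one, sum_singleton, div_one] at h2 h5
  have hEr : (0 : ℝ) < E := by exact_mod_cast hE
  have hΛr : (0 : ℝ) < Λ := by exact_mod_cast (by omega : 0 < Λ)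
  refine ⟨H, P.filter fun p => W / E < κ * FS p 0, filter_subset _ _, ?_, h3, h4, fun p hp hp' => ?_⟩
  · have a := card_nsmul_le_sum (P.filter fun p => W / E < κ * FS p 0) (fun p => κ * FS p 0)
      (W / E) fun p hp => (mem_filter.mp hp).2.le
    have b : ∑ p ∈ P.filter (fun p => W / E < κ * FS p 0), κ * FS p 0 ≤ ∑ p ∈ P, κ * FS p 0 :=
      sum_le_sum_of_subset_of_nonneg (filter_subset _ _)
        fun p _ _ => mul_nonneg (Nat.cast_nonneg _) (h1 _ _)
    rw [← mul_sum P] at b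
    rw [nsmul_eq_mul] at a
    have c : (2 * κ * E * T * (3 * ((k' + 1) ^ 2 * (l * (4 * l + 1)))) : ℝ) ≤ Λ := by
      exact_mod_cast hΛ'
    set N : ℝ := ((P.filter fun p => W / E < κ * FS p 0).card : ℝ) with hN
    have d : 2 * N * (W * Λ) ≤ P.card * (W * Λ) := by
      calc 2 * N * (W * Λ) = 2 * E * (N * (W / E)) * Λ := by field_simp
        _ ≤ 2 * E * (κ * ∑ p ∈ P, FS p 0) * Λ :=
          mul_le_mul_of_nonneg_right (mul_le_mul_of_nonneg_left (a.trans b) (by positivity)) hΛr.le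
        _ = 2 * E * κ * ((∑ p ∈ P, FS p 0) * Λ) := by ring
        _ ≤ _ := mul_le_mul_of_nonneg_left h2 (by positivity)
        _ = P.card * W * (2 * κ * E * T * (3 * ((k' + 1) ^ 2 * (l * (4 * l + 1))))) := by ring
        _ ≤ P.card * W * Λ := mul_le_mul_of_nonneg_left c (by positivity)
        _ = _ := by ring
    have e := le_of_mul_le_mul_right d (by positivity)
    rw [hN] at e
    exact_mod_cast e
  · have hn : ∀ x, On p x → Nd W p 0 x := fun x hx => by
      refine nd_iff.mpr ⟨hx, ?_⟩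
      unfold idx
      rw [Nat.floor_eq_zero, div_lt_one hW]
      exact (Btw.le_left hx).trans_lt (hPW p hp)
    refine (h5 p hp 0 p.1 p.2 (hn _ (btw_left _ _)) (hn _ (btw_right _ _))
      (fun z _ => by rw [dist_self]; exact dist_nonneg) fun z hz => Btw.le_left hz.1).mono
      Subset.rfl le_rfl ?_
    have a : κ * FS p 0 ≤ W / E := not_lt.mp fun h => hp' (mem_filter.mpr ⟨hp, h⟩)
    have b := Psi_le hP W p 0
    have c : (κ * (k' + 1) ^ 8 * E : ℝ) ≤ 2 ^ T := by exact_mod_cast hT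
    have d : κ * W * (1 / 2) ^ T * Psi P W p 0 ≤ W / E := by
      refine (mul_le_mul_of_nonneg_left b (by positivity)).trans ?_
      rw [le_div_iff₀ hEr, one_div, inv_pow]
      calc κ * W * (2 ^ T)⁻¹ * (k' + 1) ^ 8 * E = W * (2 ^ T)⁻¹ * (κ * (k' + 1) ^ 8 * E) := by ring
        _ ≤ W * (2 ^ T)⁻¹ * 2 ^ T := mul_le_mul_of_nonneg_left c (by positivity)
        _ = W := by field_simp
    linarith

theorem scale (hC : Chain α) (k : ℕ) (hk : Fintype.card α ≤ 2 ^ k) (k' : ℕ) {W : ℝ} (hW : 0 < W)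
    (E l Λ T κ : ℕ) (hE : 0 < E) (hl : 8 + 448 * E ≤ l) (hΛ : 4 ≤ Λ) (H₀ : Finset (α × α))
    (h₀ : ∀ u v, Reach H₀ (8 * k + 1) (κ * dist u v) u v) (hT : κ * (k' + 1) ^ 8 * E ≤ 2 ^ T)
    (hΛ' : 2 * κ * E * T * (3 * ((k' + 1) ^ 2 * (l * (4 * l + 1)))) ≤ Λ) (i : ℕ) :
    ∀ P : Finset (α × α), P.card ≤ 2 ^ k' → (∀ p ∈ P, dist p.1 p.2 < W) → P.card < 2 ^ i →
    ∃ H : Finset (α × α), (∀ x, load H x ≤ i * (T * (2 * ((k' + 1) ^ 2 * (2 * k + 2 * Λ ^ 4))))) ∧
      Near P H W ∧
      ∀ p ∈ P, Reach (H₀ ∪ H) (hops (8 * k + 1) l T) (dist p.1 p.2 + 3 * (W / E)) p.1 p.2 := by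
  induction i with
  | zero =>
    intro P _ _ h
    have : P = ∅ := card_eq_zero.mp (by omega)
    subst this
    exact ⟨∅, fun x => by simp [load], fun e he => by simp at he, by simp⟩
  | succ i ih =>
    intro P hP hPW h
    obtain ⟨H, P', a1, a2, a3, a4, a5⟩ := round hC k hk P k' hP hW hPW E l Λ T κ hE hl hΛ H₀ h₀
      hT hΛ'
    obtain ⟨H', b1, b2, b3⟩ := ih P' (by omega) (fun p hp => hPW p (a1 hp))
      (by rw [pow_succ] at h; omega)
    refine ⟨H ∪ H', fun x => ?_, a4.union (b2.mono a1 le_rfl), fun p hp => ?_⟩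
    · have := load_union H H' x
      have := a3 x
      have := b1 x
      rw [add_mul, one_mul]
      omega
    · by_cases hp' : p ∈ P'
      · exact (b3 p hp').mono (union_subset_union Subset.rfl subset_union_right) le_rfl le_rfl
      · exact (a5 p hp hp').mono (union_subset_union Subset.rfl subset_union_left) le_rfl le_rfl

end Pool.Agent.Work.MP_149e94_lc
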