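import Pool.Agent.Work.MP_149e94_lc.Main
import Pool.Agent.Work.MP_149e94_lc.Defs
import Mathlib.Combinatorics.SimpleGraph.Walk.Counting

/-!
From weighted graphs with unique shortest paths to the abstract setting.
-/

namespace Pool.Agent.Work.MP_149e94_lc

open Finset SimpleGraph
open scoped Classical

variable {V : Type} {G : SimpleGraph V} {w : Sym2 V → ℝ}

theorem wt_append {s x t : V} (p : G.Walk s x) (q : G.Walk x t) :
    wt w (p.append q) = wt w p + wt w q := by simp [wt]

theorem wt_reverse {s t : V} (p : G.Walk s t) : wt w p.reverse = wt w p := by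
  simp [wt, List.sum_reverse]

theorem wt_cons {s x t : V} (h : G.Adj s x) (q : G.Walk x t) :
    wt w (Walk.cons h q) = w s(s, x) + wt w q := by simp [wt]

theorem wt_nonneg (hw : ∀ e ∈ G.edgeSet, 0 < w e) {s t : V} (p : G.Walk s t) : 0 ≤ wt w p := by
  refine List.sum_nonneg fun a ha => ?_
  obtain ⟨e, he, rfl⟩ := List.mem_map.mp ha
  exact (hw e (p.edges_subset_edgeSet he)).le

theorem wt_bypass (hw : ∀ e ∈ G.edgeSet, 0 < w e) {s t : V} (p : G.Walk s t) :
    wt w p.bypass ≤ wt w p := by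
  refine (p.edges_bypass_sublist_edges.map w).sum_le_sum fun a ha => ?_
  obtain ⟨e, he, rfl⟩ := List.mem_map.mp ha
  exact (hw e (p.edges_subset_edgeSet he)).le

theorem gdist_le (hw : ∀ e ∈ G.edgeSet, 0 < w e) {s t : V} (p : G.Walk s t) :
    gdist G w s t ≤ wt w p :=
  ciInf_le ⟨0, by rintro _ ⟨q, rfl⟩; exact wt_nonneg hw q⟩ p

theorem gdist_nonneg (hw : ∀ e ∈ G.edgeSet, 0 < w e) (s t : V) : 0 ≤ gdist G w s t :=
  Real.iInf_nonneg fun p => wt_nonneg hw p

theorem IsShortest.eq (hw : ∀ e ∈ G.edgeSet, 0 < w e) {s t : V} {p : G.Walk s t}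
    (h : IsShortest w p) : wt w p = gdist G w s t :=
  haveI : Nonempty (G.Walk s t) := ⟨p⟩
  le_antisymm (le_ciInf h) (gdist_le hw p)

theorem isShortest_of_le (hw : ∀ e ∈ G.edgeSet, 0 < w e) {s t : V} {p : G.Walk s t}
    (h : wt w p ≤ gdist G w s t) : IsShortest w p := fun q => h.trans (gdist_le hw q)

theorem gdist_self (hw : ∀ e ∈ G.edgeSet, 0 < w e) (s : V) : gdist G w s s = 0 :=
  le_antisymm (by simpa [wt] using gdist_le hw (Walk.nil : G.Walk s s)) (gdist_nonneg hw s s)

variable [Fintype V]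

theorem exists_shortest (hw : ∀ e ∈ G.edgeSet, 0 < w e) {s t : V} (h : G.Reachable s t) :
    ∃ p : G.Walk s t, IsShortest w p := by
  obtain ⟨q⟩ := h
  haveI : Nonempty (G.Path s t) := ⟨q.toPath⟩
  obtain ⟨p, hp⟩ := Finite.exists_min fun p : G.Path s t => wt w p.1
  exact ⟨p.1, fun q => (hp q.toPath).trans (wt_bypass hw q)⟩

theorem gdist_comm (hw : ∀ e ∈ G.edgeSet, 0 < w e) {s t : V} (h : G.Reachable s t) :
    gdist G w s t = gdist G w t s := by
  obtain ⟨p, hp⟩ := exists_shortest hw h
  obtain ⟨q, hq⟩ := exists_shortest hw h.symm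
  have a := gdist_le hw p.reverse
  have b := gdist_le hw q.reverse
  rw [wt_reverse, hp.eq hw] at a
  rw [wt_reverse, hq.eq hw] at b
  exact le_antisymm b a

theorem gdist_triangle (hw : ∀ e ∈ G.edgeSet, 0 < w e) {s x t : V} (h : G.Reachable s x)
    (h' : G.Reachable x t) : gdist G w s t ≤ gdist G w s x + gdist G w x t := by
  obtain ⟨p, hp⟩ := exists_shortest hw h
  obtain ⟨q, hq⟩ := exists_shortest hw h'
  have a := gdist_le hw (p.append q)
  rwa [wt_append, hp.eq hw, hq.eq hw] at a

theorem gdist_pos (hw : ∀ e ∈ G.edgeSet, 0 < w e) {s t : V} (h : G.Reachable s t) (hne : s ≠ t) :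
    0 < gdist G w s t := by
  obtain ⟨p, hp⟩ := exists_shortest hw h
  rw [← hp.eq hw]
  cases p with
  | nil => exact absurd rfl hne
  | cons h q =>
    rw [wt_cons]
    exact add_pos_of_pos_of_nonneg (hw _ h) (wt_nonneg hw q)

theorem IsShortest.split (hw : ∀ e ∈ G.edgeSet, 0 < w e) {s t v : V} {p : G.Walk s t}
    (h : IsShortest w p) (hv : v ∈ p.support) : G.Reachable s v ∧ G.Reachable v t ∧
      gdist G w s v + gdist G w v t = gdist G w s t := by
  have r1 : G.Reachable s v := ⟨p.takeUntil v hv⟩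
  have r2 : G.Reachable v t := ⟨p.dropUntil v hv⟩
  refine ⟨r1, r2, le_antisymm ?_ (gdist_triangle hw r1 r2)⟩
  rw [← h.eq hw, ← p.take_spec hv, wt_append]
  exact add_le_add (gdist_le hw _) (gdist_le hw _)

/-- The distance, with a large value between different components. -/
noncomputable def mdist (G : SimpleGraph V) (w : Sym2 V → ℝ) (B : ℝ) (s t : V) : ℝ :=
  if G.Reachable s t then gdist G w s t else B

/-- The metric space of a weighted graph. -/
@[reducible] noncomputable def metric (hw : ∀ e ∈ G.edgeSet, 0 < w e) {B : ℝ}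
    (hB : ∀ s t, gdist G w s t < B) : MetricSpace V where
  dist := mdist G w B
  dist_self s := by simp [mdist, gdist_self hw]
  dist_comm s t := by
    unfold mdist
    by_cases h : G.Reachable s t
    · rw [if_pos h, if_pos h.symm, gdist_comm hw h]
    · rw [if_neg h, if_neg fun h' => h h'.symm]
  dist_triangle s x t := by
    unfold mdist
    have a := gdist_nonneg hw s x
    have b := gdist_nonneg hw x t
    have c := hB s t
    have d := gdist_nonneg hw s t
    by_cases h1 : G.Reachable s x <;> by_cases h2 : G.Reachable x t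
    · rw [if_pos h1, if_pos h2, if_pos (h1.trans h2)]; exact gdist_triangle hw h1 h2
    · rw [if_pos h1, if_neg h2]; split_ifs <;> linarith
    · rw [if_neg h1, if_pos h2]; split_ifs <;> linarith
    · rw [if_neg h1, if_neg h2]; split_ifs <;> linarith
  eq_of_dist_eq_zero {s t} h := by
    by_contra hne
    change mdist G w B s t = 0 at h
    unfold mdist at h
    split_ifs at h with hr
    · exact (gdist_pos hw hr hne).ne' h
    · linarith [hB s t, gdist_nonneg hw s t]

theorem transfer (hw : ∀ e ∈ G.edgeSet, 0 < w e) (hU : UniqueShortest G w) (b : ℕ) (c : ℝ)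
    (hc : 0 ≤ c) (main : ∀ [MetricSpace V], Chain V → ∃ H : Finset (V × V),
      (∀ x, load H x ≤ b) ∧ ∀ s t, Reach H b ((1 + c) * dist s t) s t) :
    ∃ H : Set (Sym2 V), IsHopset G w b c H ∧ ∀ v, sens G w H v ≤ b := by
  set M := ∑ p : V × V, gdist G w p.1 p.2 with hM
  have hM' : ∀ s t, gdist G w s t ≤ M := fun s t =>
    single_le_sum (f := fun p : V × V => gdist G w p.1 p.2) (fun p _ => gdist_nonneg hw _ _)
      (mem_univ (s, t))
  have hB' : ∀ s t, (1 + c) * gdist G w s t < (1 + c) * M + 1 := fun s t => by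
    have := mul_le_mul_of_nonneg_left (hM' s t) (show 0 ≤ 1 + c by linarith)
    linarith
  have hB : ∀ s t, gdist G w s t < (1 + c) * M + 1 := fun s t => by
    have := hB' s t
    nlinarith [gdist_nonneg hw s t]
  set B := (1 + c) * M + 1 with hBdef
  letI : MetricSpace V := metric hw hB
  have hd : ∀ s t : V, G.Reachable s t → dist s t = gdist G w s t := fun s t h => if_pos h
  have hd' : ∀ s t : V, ¬ G.Reachable s t → dist s t = B := fun s t h => if_neg h
  have hr : ∀ s t : V, dist s t < B → G.Reachable s t := fun s t h => by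
    by_contra h'
    rw [hd' s t h'] at h
    exact lt_irrefl _ h
  have hle : ∀ s t : V, dist s t ≤ B := fun s t => by
    by_cases h : G.Reachable s t
    · rw [hd s t h]; exact (hB s t).le
    · rw [hd' s t h]
  have hsp : ∀ {s t v : V} {p : G.Walk s t}, IsShortest w p → v ∈ p.support → Btw s v t := by
    intro s t v p hp hv
    obtain ⟨r1, r2, e⟩ := hp.split hw hv
    unfold Btw
    rw [hd _ _ r1, hd _ _ r2, hd _ _ (r1.trans r2), e]
  have hbt : ∀ {s t x : V}, G.Reachable s t → Btw s x t → G.Reachable s x ∧ G.Reachable x t := by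
    intro s t x h hx
    have := hB s t
    rw [← hd s t h] at this
    exact ⟨hr _ _ (hx.le_left.trans_lt this), hr _ _ (hx.le_right.trans_lt this)⟩
  have hC : Chain V := by
    intro s t x y hx hy hxy
    by_cases h : G.Reachable s t
    · obtain ⟨p1, q1⟩ := exists_shortest hw (hbt h hx).1
      obtain ⟨p2, q2⟩ := exists_shortest hw (hbt h hx).2
      obtain ⟨p3, q3⟩ := exists_shortest hw (hbt h hy).1
      obtain ⟨p4, q4⟩ := exists_shortest hw (hbt h hy).2
      have e1 : IsShortest w (p1.append p2) := isShortest_of_le hw (by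
        rw [wt_append, q1.eq hw, q2.eq hw, ← hd _ _ h, ← hd _ _ (hbt h hx).1, ← hd _ _ (hbt h hx).2]
        exact hx.le)
      have e2 : IsShortest w (p3.append p4) := isShortest_of_le hw (by
        rw [wt_append, q3.eq hw, q4.eq hw, ← hd _ _ h, ← hd _ _ (hbt h hy).1, ← hd _ _ (hbt h hy).2]
        exact hy.le)
      have e3 : y ∈ (p1.append p2).support := by
        rw [hU s t _ _ e1 e2]
        simp
      rcases (Walk.mem_support_append_iff _ _).mp e3 with g | g
      · have a := hsp q1 g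
        unfold Btw at a ⊢
        rw [dist_comm x y]
        linarith [dist_nonneg (x := y) (y := x)]
      · exact (hx.trans_right (hsp q2 g)).2
    · have key : ∀ z, Btw s z t → z = s ∨ z = t := by
        intro z hz
        unfold Btw at hz
        rw [hd' s t h] at hz
        by_cases g : G.Reachable s z
        · rw [hd' z t fun g' => h (g.trans g')] at hz
          exact Or.inl (dist_eq_zero.mp (by linarith)).symm
        · rw [hd' s z g] at hz
          exact Or.inr (dist_eq_zero.mp (by linarith))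
      rcases key x hx with rfl | rfl
      · exact btw_left _ _
      · rcases key y hy with rfl | rfl
        · rw [dist_self] at hxy
          rw [← dist_le_zero.mp hxy]
          exact btw_left _ _
        · exact btw_right _ _
  have hat : ∀ u v : V, Atomic u v → G.Reachable u v → G.Adj u v ∧ w s(u, v) = gdist G w u v := by
    intro u v h h'
    obtain ⟨p, hp⟩ := exists_shortest hw h'
    cases p with
    | nil => exact absurd rfl h.1
    | @cons _ x _ g q =>
      obtain rfl : x = v := (h.2 x (hsp hp (by simp))).resolve_left g.ne'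
      refine ⟨g, le_antisymm ?_ (by simpa [wt] using gdist_le hw g.toWalk)⟩
      rw [← hp.eq hw, wt_cons]
      linarith [wt_nonneg hw q]
  obtain ⟨H, h1, h2⟩ := main hC
  set H' : Set (Sym2 V) := {e | ∃ p ∈ H, p.1 ≠ p.2 ∧ G.Reachable p.1 p.2 ∧ e = s(p.1, p.2)} with hH'
  have walk : ∀ (k : ℕ) (a : ℝ) (u v : V), Reach H k a u v → a < B →
      ∃ p : (G ⊔ fromEdgeSet H').Walk u v, p.length ≤ k ∧ augWt G w H' p ≤ a := by
    intro k a u v h
    induction h with
    | refl k a u h0 => exact fun _ => ⟨Walk.nil, by simp, by simpa [augWt] using h0⟩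
    | step k a a' u v x hs hr' ha ih =>
      intro haB
      have n1 := dist_nonneg (x := u) (y := v)
      have n2 := hr'.nonneg
      obtain ⟨p, p1, p2⟩ := ih (by linarith)
      by_cases huv : u = v
      · subst huv
        exact ⟨p, by omega, by linarith⟩
      have r : G.Reachable u v := hr u v (by linarith)
      have key : (G ⊔ fromEdgeSet H').Adj u v ∧ (s(u, v) ∉ H' → w s(u, v) = gdist G w u v) := by
        rcases hs with g | g | g
        · exact ⟨Or.inl (hat u v g r).1, fun _ => (hat u v g r).2⟩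
        · have : s(u, v) ∈ H' := ⟨_, g, huv, r, rfl⟩
          exact ⟨Or.inr ((fromEdgeSet_adj _).mpr ⟨this, huv⟩), fun h => absurd this h⟩
        · have : s(u, v) ∈ H' := ⟨_, g, Ne.symm huv, r.symm, Sym2.eq_swap⟩
          exact ⟨Or.inr ((fromEdgeSet_adj _).mpr ⟨this, huv⟩), fun h => absurd this h⟩
      refine ⟨Walk.cons key.1 p, by simpa using p1, ?_⟩
      have e : augWt G w H' (Walk.cons key.1 p) = gdist G w u v + augWt G w H' p := by
        simp only [augWt, Walk.darts_cons, List.map_cons, List.sum_cons, Dart.edge_mk]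
        congr 1
        split_ifs with g
        · rfl
        · exact key.2 g
      rw [e, ← hd u v r]
      linarith
  refine ⟨H', ⟨fun s t ⟨p, _, p1, p2, e⟩ => ?_, fun s t h => ?_⟩, fun v => ?_⟩
  · rcases Sym2.eq_iff.mp e with ⟨rfl, rfl⟩ | ⟨rfl, rfl⟩
    · exact ⟨p1, p2⟩
    · exact ⟨p1.symm, p2.symm⟩
  · have r := h2 s t
    rw [hd s t h] at r
    obtain ⟨p, p1, p2⟩ := walk _ _ s t r (hB' s t)
    refine ⟨p.bypass, p.bypass_isPath, p.length_bypass_le_length.trans p1, le_trans ?_ p2⟩
    refine (p.darts_bypass_sublist_darts.map _).sum_le_sum fun a ha => ?_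
    obtain ⟨d, -, rfl⟩ := List.mem_map.mp ha
    split_ifs with g
    · exact gdist_nonneg hw _ _
    · rcases d.adj with g' | g'
      · exact (hw _ g').le
      · exact absurd ((fromEdgeSet_adj _).mp g').1 g
  · refine le_trans ?_ (h1 v)
    unfold sens load
    rw [← Set.ncard_coe_finset]
    refine le_trans (Set.ncard_le_ncard ?_ (Set.toFinite _))
      (Set.ncard_image_le (f := fun p : V × V => s(p.1, p.2)) (Set.toFinite _))
    rintro e ⟨⟨p, hp, -, -, rfl⟩, s, t, e', q, q1, q2⟩
    refine ⟨p, mem_coe.mpr (mem_filter.mpr ⟨hp, ?_⟩), rfl⟩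
    rcases Sym2.eq_iff.mp e' with ⟨g1, g2⟩ | ⟨g1, g2⟩
    · rw [g1, g2]; exact hsp q1 q2
    · rw [g1, g2]; exact (hsp q1 q2).symm

theorem IsHopset.mono {β : ℕ} {ε ε' : ℝ} {H : Set (Sym2 V)} (hw : ∀ e ∈ G.edgeSet, 0 < w e)
    (h : IsHopset G w β ε H) (hε : ε ≤ ε') : IsHopset G w β ε' H := by
  refine ⟨h.1, fun s t r => ?_⟩
  obtain ⟨p, p1, p2, p3⟩ := h.2 s t r
  exact ⟨p, p1, p2, p3.trans (mul_le_mul_of_nonneg_right (by linarith) (gdist_nonneg hw s t))⟩

theorem final (ε : ℝ) (hε : 0 < ε) : ∃ C : ℕ, ∀ (V : Type) [Fintype V] (G : SimpleGraph V)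
    (w : Sym2 V → ℝ), (∀ e ∈ G.edgeSet, 0 < w e) → UniqueShortest G w → 2 ≤ Fintype.card V →
    ∃ (β : ℕ) (H : Set (Sym2 V)), 1 ≤ β ∧ IsHopset G w β ε H ∧
      (β : ℝ) ≤ C * Real.logb 2 (Fintype.card V) ^ C ∧
      ∀ v, (sens G w H v : ℝ) ≤ C * Real.logb 2 (Fintype.card V) ^ C := by
  obtain ⟨E, hE⟩ := exists_nat_gt (19 / ε)
  have hEr : (0 : ℝ) < E := lt_trans (by positivity) hE
  obtain ⟨A, B, h⟩ := poly_main E (by exact_mod_cast hEr)
  refine ⟨(A + 1) * 2 ^ B + B, fun V _ G w hw hU hn => ?_⟩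
  set k := Nat.log 2 (Fintype.card V) + 1 with hk
  obtain ⟨H, h1, h2⟩ := transfer hw hU ((A + 1) * k ^ B) (19 / E) (by positivity) fun hC => by
    obtain ⟨H, a1, a2⟩ := h V hC k (by omega) (Nat.lt_pow_succ_log_self one_lt_two _)
    have : A * k ^ B ≤ (A + 1) * k ^ B := Nat.mul_le_mul_right _ (Nat.le_succ _)
    exact ⟨H, fun x => (a1 x).trans this, fun s t => (a2 s t).mono Subset.rfl this le_rfl⟩
  have hn' : (2 : ℝ) ≤ Fintype.card V := by exact_mod_cast hn
  set L := Real.logb 2 (Fintype.card V) with hL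
  have hL1 : 1 ≤ L := by
    rw [hL, Real.le_logb_iff_rpow_le one_lt_two (by linarith)]
    simpa using hn'
  have hkL : (k : ℝ) ≤ 2 * L := by
    have : (Nat.log 2 (Fintype.card V) : ℝ) ≤ L := by
      rw [hL, Real.le_logb_iff_rpow_le one_lt_two (by linarith), Real.rpow_natCast]
      exact_mod_cast Nat.pow_log_le_self 2 (by omega)
    rw [hk]
    push_cast
    linarith
  have hb : (((A + 1) * k ^ B : ℕ) : ℝ) ≤
      ((A + 1) * 2 ^ B + B : ℕ) * L ^ ((A + 1) * 2 ^ B + B) := by
    have a : (k : ℝ) ^ B ≤ 2 ^ B * L ^ B := by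
      rw [← mul_pow]; exact pow_le_pow_left₀ (Nat.cast_nonneg _) hkL _
    have b : L ^ B ≤ L ^ ((A + 1) * 2 ^ B + B) := pow_le_pow_right₀ hL1 (Nat.le_add_left _ _)
    have c : (0 : ℝ) ≤ L ^ ((A + 1) * 2 ^ B + B) := by positivity
    push_cast
    calc ((A : ℝ) + 1) * k ^ B ≤ (A + 1) * (2 ^ B * L ^ B) :=
          mul_le_mul_of_nonneg_left a (by positivity)
      _ = (A + 1) * 2 ^ B * L ^ B := by ring
      _ ≤ (A + 1) * 2 ^ B * L ^ ((A + 1) * 2 ^ B + B) :=
          mul_le_mul_of_nonneg_left b (by positivity)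
      _ ≤ _ := mul_le_mul_of_nonneg_right (by linarith [Nat.cast_nonneg (α := ℝ) B]) c
  refine ⟨_, H, Nat.succ_le_of_lt (by positivity), h1.mono hw ?_, hb, fun v => ?_⟩
  · rw [div_lt_iff₀ hε] at hE
    rw [div_le_iff₀ hEr]
    linarith
  · exact le_trans (by exact_mod_cast h2 v) hb

end Pool.Agent.Work.MP_149e94_lc
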