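import Pool.Agent.Work.MP_149e94_lc.Basic

/-!
Shortcuts for forests of geodesics, Voronoi forests.
-/

namespace Pool.Agent.Work.MP_149e94_lc

open Finset
open scoped Classical

variable {α : Type} [MetricSpace α]

theorem nxt_unique (hC : Chain α) {v c x x' : α} (h : Btw v x c) (h' : Btw v x' c)
    (ha : Atomic x c) (ha' : Atomic x' c) : x = x' := by
  rcases le_total (dist v x) (dist v x') with hle | hle
  · have b := hC _ _ _ _ h h' hle
    rcases ha.2 x' (h'.trans_left b).2 with e | e
    · exact e.symm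
    · exact absurd e ha'.1
  · have b := hC _ _ _ _ h' h hle
    rcases ha'.2 x (h.trans_left b).2 with e | e
    · exact e
    · exact absurd e ha.1

variable [Fintype α]

theorem exists_nxt {v c : α} (hvc : v ≠ c) : ∃ x, Btw v x c ∧ Atomic x c := by
  obtain ⟨x, hx, hx'⟩ := exists_max_image (univ.filter fun x => Btw v x c ∧ x ≠ c)
    (fun x => dist v x) ⟨v, by simp [btw_left, hvc]⟩
  simp only [mem_filter, mem_univ, true_and] at hx hx'
  refine ⟨x, hx.1, hx.2, fun y hy => ?_⟩
  by_cases hyc : y = c
  · exact Or.inr hyc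
  left
  have a := hx.1.trans_right hy
  have b := hx' y ⟨a.1, hyc⟩
  have c := a.2
  unfold Btw at c
  exact (dist_eq_zero.mp (le_antisymm (by linarith) dist_nonneg)).symm

/-- A family of geodesics towards roots, closed under taking points on the way. -/
def Forest (C : Finset α) (rt : α → α) : Prop :=
  ∀ v ∈ C, ∀ x, Btw v x (rt v) → x ∈ C ∧ rt x = rt v

theorem forest_shortcut (hC : Chain α) (k : ℕ) : ∀ (C : Finset α) (rt : α → α), Forest C rt →
    (∀ w, (C.filter fun v => rt v = w).card ≤ 2 ^ k) →
    ∃ H : Finset (α × α), (∀ x, load H x ≤ k) ∧ (∀ e ∈ H, ∀ x, Btw e.1 x e.2 → x ∈ C) ∧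
      ∀ v ∈ C, Reach H (2 * k) (dist v (rt v)) v (rt v) := by
  induction k with
  | zero =>
    intro C rt hF hc
    refine ⟨∅, fun x => by simp [load], by simp, fun v hv => ?_⟩
    have h1 := hF v hv (rt v) (btw_right _ _)
    have h2 := hc (rt v)
    have : v = rt v := card_le_one.mp h2 v (by simp [hv]) (rt v) (by simp [h1.1, h1.2])
    rw [← this]
    exact Reach.refl _ _ _ dist_nonneg
  | succ k ih =>
    intro C rt hF hc
    set T : α → Finset α := fun c => C.filter fun v => rt v = rt c ∧ Btw v c (rt v) with hT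
    have hcen : ∀ w, ∃ c, w ∈ C → rt w = w → c ∈ C ∧ rt c = w ∧ (2 ^ k < (T c).card ∨ c = w) ∧
        ∀ c' ∈ C, rt c' = w → 2 ^ k < (T c').card → dist c' w ≤ dist c w := by
      intro w
      by_cases hw : w ∈ C ∧ rt w = w
      · obtain ⟨c, hc1, hc2⟩ := exists_max_image
          (C.filter fun c => rt c = w ∧ (2 ^ k < (T c).card ∨ c = w)) (fun c => dist c w)
          ⟨w, by simp [hw.1, hw.2]⟩
        simp only [mem_filter] at hc1 hc2
        exact ⟨c, fun _ _ => ⟨hc1.1, hc1.2.1, hc1.2.2, fun c' h1 h2 h3 => hc2 c' ⟨h1, h2, Or.inl h3⟩⟩⟩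
      · exact ⟨w, fun h1 h2 => absurd ⟨h1, h2⟩ hw⟩
    choose cen hcen using hcen
    have hnx : ∀ v c : α, ∃ x, v ≠ c → Btw v x c ∧ Atomic x c := by
      intro v c
      by_cases h : v = c
      · exact ⟨v, fun h' => absurd h h'⟩
      · obtain ⟨x, hx⟩ := exists_nxt h
        exact ⟨x, fun _ => hx⟩
    choose nx hnx using hnx
    have hroot : ∀ v ∈ C, rt v ∈ C ∧ rt (rt v) = rt v := fun v hv => hF v hv _ (btw_right _ _)
    have hcv : ∀ v ∈ C, cen (rt v) ∈ C ∧ rt (cen (rt v)) = rt v ∧
        (2 ^ k < (T (cen (rt v))).card ∨ cen (rt v) = rt v) ∧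
        ∀ c' ∈ C, rt c' = rt v → 2 ^ k < (T c').card → dist c' (rt v) ≤ dist (cen (rt v)) (rt v) :=
      fun v hv => hcen _ (hroot v hv).1 (hroot v hv).2
    set rt' : α → α := fun v => if Btw v (cen (rt v)) (rt v) then
      (if v = cen (rt v) then v else nx v (cen (rt v))) else rt v with hrt'
    have cases : ∀ v, (v = cen (rt v) ∧ Btw v (cen (rt v)) (rt v) ∧ rt' v = v) ∨
        (v ≠ cen (rt v) ∧ Btw v (cen (rt v)) (rt v) ∧ rt' v = nx v (cen (rt v))) ∨
        (¬ Btw v (cen (rt v)) (rt v) ∧ rt' v = rt v) := by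
      intro v
      by_cases h1 : Btw v (cen (rt v)) (rt v)
      · by_cases h2 : v = cen (rt v)
        · left; exact ⟨h2, h1, by simp only [hrt']; rw [if_pos h1, if_pos h2]⟩
        · right; left; exact ⟨h2, h1, by simp only [hrt']; rw [if_pos h1, if_neg h2]⟩
      · right; right; exact ⟨h1, by simp only [hrt']; rw [if_neg h1]⟩
    have hB : ∀ v ∈ C, Btw v (rt' v) (rt v) := by
      intro v hv
      rcases cases v with ⟨_, _, h⟩ | ⟨h1, h2, h⟩ | ⟨_, h⟩
      · rw [h]; exact btw_left _ _
      · rw [h]; exact (h2.trans_left (hnx _ _ h1).1).1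
      · rw [h]; exact btw_right _ _
    have hF' : Forest C rt' := by
      intro v hv x hx
      have hx' := hF v hv x ((hB v hv).trans_left hx).1
      refine ⟨hx'.1, ?_⟩
      rcases cases v with ⟨_, _, h⟩ | ⟨h1, h2, h⟩ | ⟨h1, h⟩
      · rw [h] at hx
        rw [hx.eq_of_self]
      · rw [h] at hx ⊢
        have a := hnx _ _ h1
        have b := a.1.trans_left hx
        have c := h2.trans_left b.1
        have hxc : x ≠ cen (rt v) := by
          intro e
          have b2 := b.2
          rw [e] at b2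
          exact a.2.1 b2.eq_of_self
        rcases cases x with ⟨g, _, _⟩ | ⟨g1, g2, g⟩ | ⟨g, _⟩
        · rw [hx'.2] at g; exact absurd g hxc
        · rw [g, hx'.2]
          exact nxt_unique hC (hnx _ _ hxc).1 b.2 (hnx _ _ hxc).2 a.2
        · rw [hx'.2] at g; exact absurd c.2 g
      · rw [h] at hx ⊢
        rcases cases x with ⟨_, g, _⟩ | ⟨g1, g, _⟩ | ⟨_, g⟩
        · rw [hx'.2] at g; exact absurd (hx.trans_right g).1 h1
        · rw [hx'.2] at g; exact absurd (hx.trans_right g).1 h1
        · rw [g, hx'.2]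
    have hc' : ∀ y, (C.filter fun v => rt' v = y).card ≤ 2 ^ k := by
      intro y
      rcases (C.filter fun v => rt' v = y).eq_empty_or_nonempty with he | ⟨v₀, hv₀⟩
      · rw [he]; simp
      rw [mem_filter] at hv₀
      obtain ⟨hv₀, hy⟩ := hv₀
      have hyC := hF v₀ hv₀ y (hy ▸ hB v₀ hv₀)
      have hfib : ∀ v ∈ C, rt' v = y → rt v = rt v₀ := by
        intro v hv e
        have := (hF v hv y (e ▸ hB v hv)).2
        rw [← this, hyC.2]
      obtain ⟨c1, c2, c3, c4⟩ := hcv v₀ hv₀
      rcases cases v₀ with ⟨h1, h2, h⟩ | ⟨h1, h2, h⟩ | ⟨h1, h⟩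
      · -- the fibre of the centre is a point
        have : (C.filter fun v => rt' v = y) ⊆ {v₀} := by
          intro v hv
          rw [mem_filter] at hv
          have e := hfib v hv.1 hv.2
          rw [mem_singleton]
          rcases cases v with ⟨_, _, g⟩ | ⟨g1, g2, g⟩ | ⟨g1, g⟩
          · rw [← g, hv.2, ← hy, h]
          · exfalso
            apply (hnx _ _ g1).2.1
            rw [← g, hv.2, ← hy, h, e, ← h1]
          · exfalso
            apply g1
            have : cen (rt v) = rt v := by rw [e, ← h1, ← e, ← g, hv.2, ← hy, h]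
            rw [this]; exact btw_right _ _
        exact (card_le_card this).trans (by simpa using Nat.one_le_two_pow)
      · -- the fibre of a child
        have a := hnx _ _ h1
        rw [← h, hy] at a
        have hsub : (C.filter fun v => rt' v = y) ⊆ T y := by
          intro v hv
          rw [mem_filter] at hv
          simp only [hT, mem_filter]
          exact ⟨hv.1, by rw [hfib v hv.1 hv.2, hyC.2], hv.2 ▸ hB v hv.1⟩
        refine (card_le_card hsub).trans ?_
        by_contra hbig
        have b := c4 y hyC.1 hyC.2 (not_le.mp hbig)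
        have c := (h2.trans_left a.1).2
        have d := dist_pos.mpr a.2.1
        unfold Btw at c
        linarith
      · -- the rest of a tree
        have hne : cen (rt v₀) ≠ rt v₀ := fun e => h1 (by rw [e]; exact btw_right _ _)
        have hbig := c3.resolve_right hne
        have hdis : Disjoint (C.filter fun v => rt' v = y) (T (cen (rt v₀))) := by
          rw [disjoint_left]
          intro v hv hv'
          simp only [hT, mem_filter] at hv hv'
          have e := hfib v hv.1 hv.2
          rcases cases v with ⟨g1, _, g⟩ | ⟨g1, g2, g⟩ | ⟨g1, g⟩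
          · apply hne
            have e' : v = rt v₀ := by rw [← g, hv.2, ← hy, h]
            rw [← e, ← g1, e, ← e']
          · have a := (hnx _ _ g1)
            rw [← g, hv.2, ← hy, h, e] at a
            rw [e] at g2
            have b := (g2.trans_left a.1).2
            exact hne b.eq_of_self
          · rw [e] at g1
            rw [e] at hv'
            exact g1 hv'.2.2
        have hsub : (C.filter fun v => rt' v = y) ∪ T (cen (rt v₀)) ⊆
            C.filter fun v => rt v = rt v₀ := by
          intro v hv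
          rcases mem_union.mp hv with hv | hv
          · rw [mem_filter] at hv ⊢
            exact ⟨hv.1, hfib v hv.1 hv.2⟩
          · simp only [hT, mem_filter] at hv ⊢
            exact ⟨hv.1, hv.2.1.trans c2⟩
        have e1 := card_le_card hsub
        rw [card_union_of_disjoint hdis] at e1
        have e2 := hc (rt v₀)
        rw [pow_succ] at e2
        omega
    obtain ⟨H', l1, l2, l3⟩ := ih C rt' hF' hc'
    set E : Finset (α × α) := (C.filter fun w => rt w = w).image fun w => (cen w, w) with hE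
    have hEm : ∀ e ∈ E, ∀ x, Btw e.1 x e.2 → x ∈ C ∧ e = (cen (rt x), rt x) := by
      intro e he x hx
      simp only [hE, mem_image, mem_filter] at he
      obtain ⟨w, ⟨hw1, hw2⟩, rfl⟩ := he
      obtain ⟨c1, c2, -⟩ := hcen w hw1 hw2
      have := hF _ c1 x (by rw [c2]; exact hx)
      exact ⟨this.1, by rw [this.2, c2]⟩
    refine ⟨H' ∪ E, fun x => ?_, fun e he x hx => ?_, fun v hv => ?_⟩
    · have : load E x ≤ 1 := by
        unfold load
        refine card_le_one.mpr fun a ha b hb => ?_
        rw [mem_filter] at ha hb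
        rw [(hEm a ha.1 x ha.2).2, (hEm b hb.1 x hb.2).2]
      have := load_union H' E x
      have := l1 x
      omega
    · rcases mem_union.mp he with he | he
      · exact l2 e he x hx
      · exact (hEm e he x hx).1
    · have hin : (cen (rt v), rt v) ∈ H' ∪ E :=
        mem_union_right _ (mem_image.mpr ⟨rt v, mem_filter.mpr (hroot v hv), rfl⟩)
      have r0 : Reach (H' ∪ E) 1 (dist (cen (rt v)) (rt v)) (cen (rt v)) (rt v) :=
        Reach.single (Or.inr (Or.inl hin))
      have r1 := (l3 v hv).mono (subset_union_left (s₂ := E)) le_rfl le_rfl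
      rcases cases v with ⟨h1, h2, h⟩ | ⟨h1, h2, h⟩ | ⟨h1, h⟩
      · rw [← h1] at r0
        exact r0.mono Subset.rfl (by omega) le_rfl
      · rw [h] at r1
        have a := hnx _ _ h1
        have r2 := (r1.trans (Reach.single (Or.inl a.2))).trans r0
        refine r2.mono Subset.rfl (by omega) ?_
        have a1 := a.1
        unfold Btw at a1 h2
        linarith
      · rw [h] at r1
        exact r1.mono Subset.rfl (by omega) le_rfl

/-- A nearest-point map whose cells are closed under geodesics to the centre. -/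
theorem exists_ctr (N : Finset α) (hN : N.Nonempty) : ∃ ctr : α → α, (∀ v, ctr v ∈ N) ∧
    (∀ v, ∀ a ∈ N, dist v (ctr v) ≤ dist v a) ∧ ∀ v x, Btw v x (ctr v) → ctr x = ctr v := by
  have h : ∀ v, ∃ a ∈ N, (∀ b ∈ N, dist v a ≤ dist v b) ∧
      ∀ b ∈ N, dist v b ≤ dist v a → Fintype.equivFin α a ≤ Fintype.equivFin α b := by
    intro v
    obtain ⟨a₀, h1, h2⟩ := exists_min_image N (fun b => dist v b) hN
    obtain ⟨a, h3, h4⟩ := exists_min_image (N.filter fun b => dist v b ≤ dist v a₀)
      (fun b => Fintype.equivFin α b) ⟨a₀, by simp [h1]⟩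
    simp only [mem_filter] at h3 h4
    exact ⟨a, h3.1, fun b hb => h3.2.trans (h2 b hb), fun b hb hb' => h4 b ⟨hb, hb'.trans h3.2⟩⟩
  choose ctr h1 h2 h3 using h
  refine ⟨ctr, h1, h2, fun v x hx => ?_⟩
  have a := h2 x _ (h1 v)
  have b := h2 v _ (h1 x)
  have c := dist_triangle v x (ctr x)
  unfold Btw at hx
  apply (Fintype.equivFin α).injective
  exact le_antisymm (h3 x _ (h1 v) (by linarith)) (h3 v _ (h1 x) (by linarith))

/-- Shortcuts towards the nearest point of `N`, for the points within `r` of `N`. -/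
theorem voronoi (hC : Chain α) (k : ℕ) (hk : Fintype.card α ≤ 2 ^ k) (N : Finset α) (r : ℝ) :
    ∃ (ctr : α → α) (H : Finset (α × α)), (∀ x, load H x ≤ k) ∧
      (∀ e ∈ H, ∀ x, Btw e.1 x e.2 → ∃ a ∈ N, dist a x ≤ r) ∧
      ∀ v, (∃ a ∈ N, dist v a ≤ r) →
        ctr v ∈ N ∧ dist v (ctr v) ≤ r ∧ Reach H (2 * k) r v (ctr v) := by
  rcases N.eq_empty_or_nonempty with rfl | hN
  · exact ⟨id, ∅, fun x => by simp [load], by simp, by simp⟩
  obtain ⟨ctr, h1, h2, h3⟩ := exists_ctr N hN
  obtain ⟨H, l1, l2, l3⟩ := forest_shortcut hC k (univ.filter fun v => dist v (ctr v) ≤ r) ctr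
    (fun v hv x hx => by
      have e := h3 v x hx
      simp only [mem_filter, mem_univ, true_and] at hv ⊢
      exact ⟨by rw [e]; exact hx.le_right.trans hv, e⟩)
    (fun w => (card_le_univ _).trans hk)
  refine ⟨ctr, H, l1, fun e he x hx => ⟨ctr x, h1 x, ?_⟩, fun v ⟨a, ha, hv⟩ => ?_⟩
  · have := l2 e he x hx
    rw [dist_comm]
    simpa using this
  · have := (h2 v a ha).trans hv
    exact ⟨h1 v, this, (l3 v (by simpa using this)).mono Subset.rfl le_rfl this⟩

end Pool.Agent.Work.MP_149e94_lc
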